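import Pool.Agent.MP_b2c033_nt.UH.Spec

/-! Three points of a Weierstrass curve add up to zero if and only if they are collinear. -/

namespace Pool.Agent.MP_b2c033_nt.UH

open WeierstrassCurve

namespace COLx

variable {F : Type} [Field F] {V : WeierstrassCurve F} {l l' m x₁ y₁ x₂ y₂ x₃ y₃ : F}

lemma pa_eq (h : V.toAffine.Nonsingular x₁ y₁) : pa V x₁ y₁ = .some x₁ y₁ h := dif_pos h

/-- `l` is the slope of the chord or tangent. -/
def Sl (V : WeierstrassCurve F) (l x₁ y₁ x₂ y₂ : F) : Prop :=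
  l * (x₁ - x₂) = y₁ - y₂ ∧ l * (y₁ - V.toAffine.negY x₂ y₂) =
    x₁ ^ 2 + x₁ * x₂ + x₂ ^ 2 + V.a₂ * (x₁ + x₂) + V.a₄ - V.a₁ * y₁

lemma Sl.uniq (h : Sl V l x₁ y₁ x₂ y₂) (h' : Sl V l' x₁ y₁ x₂ y₂)
    (hxy : ¬(x₁ = x₂ ∧ y₁ = V.toAffine.negY x₂ y₂)) : l = l' := by
  by_cases hx : x₁ = x₂
  · exact mul_right_cancel₀ (sub_ne_zero.2 fun hy => hxy ⟨hx, hy⟩) (h.2.trans h'.2.symm)
  · exact mul_right_cancel₀ (sub_ne_zero.2 hx) (h.1.trans h'.1.symm)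

lemma of_col (h : Col V l m x₁ y₁ x₂ y₂ x₃ y₃) : Sl V l x₁ y₁ x₂ y₂ := by
  refine ⟨by linear_combination h.h2 - h.h1, ?_⟩
  simp only [Affine.negY]
  linear_combination (l + V.a₁) * h.h1 + l * h.h2 - (x₁ + x₂) * h.e1 + h.e2

lemma sl_slope [DecidableEq F] (h₁ : V.toAffine.Equation x₁ y₁) (h₂ : V.toAffine.Equation x₂ y₂)
    (hxy : ¬(x₁ = x₂ ∧ y₁ = V.toAffine.negY x₂ y₂)) :
    Sl V (V.toAffine.slope x₁ x₂ y₁ y₂) x₁ y₁ x₂ y₂ := by
  by_cases hx : x₁ = x₂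
  · have hy : y₁ ≠ V.toAffine.negY x₂ y₂ := fun hy => hxy ⟨hx, hy⟩
    have hyy : y₁ = y₂ := Affine.Y_eq_of_Y_ne h₁ h₂ hx hy
    have hl := Affine.slope_of_Y_ne (W := V.toAffine) hx hy
    subst hx hyy
    rw [eq_div_iff (sub_ne_zero.2 hy)] at hl
    exact ⟨by ring, by linear_combination hl⟩
  · have hl := Affine.slope_of_X_ne (W := V.toAffine) (y₁ := y₁) (y₂ := y₂) hx
    rw [eq_div_iff (sub_ne_zero.2 hx)] at hl
    rw [Affine.equation_iff] at h₁ h₂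
    refine ⟨hl, mul_left_cancel₀ (sub_ne_zero.2 hx) ?_⟩
    simp only [Affine.negY]
    linear_combination (y₁ + y₂ + V.a₁ * x₂ + V.a₃) * hl + h₁ - h₂

lemma sum_iff [DecidableEq F] (h₁ : V.toAffine.Nonsingular x₁ y₁)
    (h₂ : V.toAffine.Nonsingular x₂ y₂) (h₃ : V.toAffine.Nonsingular x₃ y₃)
    (hxy : ¬(x₁ = x₂ ∧ y₁ = V.toAffine.negY x₂ y₂)) (hl : V.toAffine.slope x₁ x₂ y₁ y₂ = l) :
    pa V x₁ y₁ + pa V x₂ y₂ + pa V x₃ y₃ = 0 ↔
      l ^ 2 + V.a₁ * l - V.a₂ - x₁ - x₂ = x₃ ∧ l * (x₃ - x₁) + y₁ = y₃ := by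
  subst hl
  rw [pa_eq h₁, pa_eq h₂, pa_eq h₃, add_eq_zero_iff_eq_neg, Affine.Point.add_some hxy,
    Affine.Point.neg_some, Affine.Point.some.injEq]
  refine and_congr_right fun e => ?_
  rw [Affine.addY, Affine.negAddY, e]
  simp only [Affine.negY]
  exact ⟨fun h => by linear_combination -h, fun h => by linear_combination -h⟩

end COLx

open COLx in
theorem col : S_COL where
  of_sum F _ _ V x₁ y₁ x₂ y₂ x₃ y₃ h₁ h₂ h₃ h := by
    have hxy : ¬(x₁ = x₂ ∧ y₁ = V.toAffine.negY x₂ y₂) := fun q => by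
      rw [pa_eq h₁, pa_eq h₂, pa_eq h₃, Affine.Point.add_of_Y_eq q.1 q.2, zero_add] at h
      exact Affine.Point.some_ne_zero h₃ h
    obtain ⟨s1, s2⟩ := sl_slope h₁.1 h₂.1 hxy
    obtain ⟨a, b⟩ := (sum_iff h₁ h₂ h₃ hxy rfl).1 h
    have e := (Affine.equation_iff _ _).1 h₁.1
    generalize V.toAffine.slope x₁ x₂ y₁ y₂ = l at s1 s2 a b
    simp only [Affine.negY] at s2
    subst a
    refine ⟨l, y₁ - l * x₁, by ring, by linear_combination s1, by linear_combination -b,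
      by ring, ?_, ?_⟩
    · linear_combination s2 - l * s1
    · linear_combination x₁ * s2 - x₁ * l * s1 - e
  sum F _ _ V l m x₁ y₁ x₂ y₂ x₃ y₃ h₁ h₂ h₃ h := by
    have s := of_col h
    have hxy : ¬(x₁ = x₂ ∧ y₁ = V.toAffine.negY x₂ y₂) := fun ⟨q1, q2⟩ => by
      have q3 : y₁ = y₂ := by rw [h.h1, h.h2, q1]
      have q4 := s.2
      subst q1 q3
      rw [← q2] at q4
      simp only [Affine.negY] at q2
      rcases ((Affine.nonsingular_iff' _ _).1 h₁).2 with z | z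
      · exact z (by linear_combination q4)
      · exact z (by linear_combination q2)
    exact (sum_iff h₁ h₂ h₃ hxy ((sl_slope h₁.1 h₂.1 hxy).uniq s hxy)).2
      ⟨by linear_combination -h.e1, by linear_combination h.h1 - h.h3⟩

end Pool.Agent.MP_b2c033_nt.UH
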