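import Pool.Agent.MP_b2c033_nt.UH.Spec
import Pool.Agent.MP_c481b3_nt.H81.Basic

/-! Change of variables preserves the point count and the Frobenius relation. -/

namespace Pool.Agent.MP_b2c033_nt.UH

open Polynomial WeierstrassCurve

namespace FVCx

/-- the coefficients of `V` in terms of those of `U` -/
structure Rel {F : Type} [Field F] (V U : WeierstrassCurve F) (u r s t : F) : Prop where
  hu : u ≠ 0
  h1 : V.a₁ = u * U.a₁ - 2 * s
  h2 : V.a₂ = u ^ 2 * U.a₂ + s * V.a₁ - 3 * r + s ^ 2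
  h3 : V.a₃ = u ^ 3 * U.a₃ - r * V.a₁ - 2 * t
  h4 : V.a₄ = u ^ 4 * U.a₄ + s * V.a₃ - 2 * r * V.a₂ + (t + r * s) * V.a₁ - 3 * r ^ 2 + 2 * s * t
  h6 : V.a₆ = u ^ 6 * U.a₆ - r * V.a₄ - r ^ 2 * V.a₂ - r ^ 3 + t * V.a₃ + t ^ 2 + r * t * V.a₁

variable {F : Type} [Field F] {V U : WeierstrassCurve F} {u r s t : F}

lemma rel_smul (V : WeierstrassCurve F) (C : VariableChange F) :
    Rel V (C • V) (C.u : F) C.r C.s C.t := by
  have hu : (C.u : F) ≠ 0 := C.u.ne_zero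
  refine ⟨hu, ?_, ?_, ?_, ?_, ?_⟩
  · rw [variableChange_a₁, Units.val_inv_eq_inv_val]; field_simp; ring
  · rw [variableChange_a₂, Units.val_inv_eq_inv_val]; field_simp; ring
  · rw [variableChange_a₃, Units.val_inv_eq_inv_val]; field_simp; ring
  · rw [variableChange_a₄, Units.val_inv_eq_inv_val]; field_simp; ring
  · rw [variableChange_a₆, Units.val_inv_eq_inv_val]; field_simp; ring

lemma Rel.map {K : Type} [Field K] (h : Rel V U u r s t) (f : F →+* K) :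
    Rel (V.map f) (U.map f) (f u) (f r) (f s) (f t) := by
  refine ⟨(map_ne_zero f).2 h.hu, ?_, ?_, ?_, ?_, ?_⟩
  · simpa [map_ofNat] using congrArg f h.h1
  · simpa [map_ofNat] using congrArg f h.h2
  · simpa [map_ofNat] using congrArg f h.h3
  · simpa [map_ofNat] using congrArg f h.h4
  · simpa [map_ofNat] using congrArg f h.h6

lemma Rel.val (h : Rel V U u r s t) (x y : F) :
    (u ^ 3 * y + u ^ 2 * s * x + t) ^ 2 + V.a₁ * (u ^ 2 * x + r) * (u ^ 3 * y + u ^ 2 * s * x + t)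
      + V.a₃ * (u ^ 3 * y + u ^ 2 * s * x + t)
      - ((u ^ 2 * x + r) ^ 3 + V.a₂ * (u ^ 2 * x + r) ^ 2 + V.a₄ * (u ^ 2 * x + r) + V.a₆)
    = u ^ 6 * (y ^ 2 + U.a₁ * x * y + U.a₃ * y - (x ^ 3 + U.a₂ * x ^ 2 + U.a₄ * x + U.a₆)) := by
  rw [h.h6, h.h4, h.h3, h.h2, h.h1]; ring

lemma Rel.valY (h : Rel V U u r s t) (x y : F) :
    2 * (u ^ 3 * y + u ^ 2 * s * x + t) + V.a₁ * (u ^ 2 * x + r) + V.a₃
    = u ^ 3 * (2 * y + U.a₁ * x + U.a₃) := by
  rw [h.h3, h.h1]; ring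

lemma Rel.valX (h : Rel V U u r s t) (x y : F) :
    V.a₁ * (u ^ 3 * y + u ^ 2 * s * x + t)
      - (3 * (u ^ 2 * x + r) ^ 2 + 2 * V.a₂ * (u ^ 2 * x + r) + V.a₄)
    = u ^ 4 * (U.a₁ * y - (3 * x ^ 2 + 2 * U.a₂ * x + U.a₄))
      - s * u ^ 3 * (2 * y + U.a₁ * x + U.a₃) := by
  rw [h.h4, h.h3, h.h2, h.h1]; ring

lemma Rel.eqn (h : Rel V U u r s t) (x y : F) :
    V.toAffine.Equation (u ^ 2 * x + r) (u ^ 3 * y + u ^ 2 * s * x + t) ↔
      U.toAffine.Equation x y := by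
  rw [Affine.equation_iff', Affine.equation_iff']
  change _ - _ = (0 : F) ↔ _ - _ = (0 : F)
  erw [h.val x y]
  rw [mul_eq_zero, or_iff_right (pow_ne_zero _ h.hu)]

lemma Rel.ns (h : Rel V U u r s t) (x y : F) :
    V.toAffine.Nonsingular (u ^ 2 * x + r) (u ^ 3 * y + u ^ 2 * s * x + t) ↔
      U.toAffine.Nonsingular x y := by
  rw [Affine.nonsingular_iff', Affine.nonsingular_iff', h.eqn]
  refine and_congr_right fun _ => ?_
  change (_ - _ ≠ (0 : F) ∨ _ + _ ≠ (0 : F)) ↔ (U.a₁ * y - (3 * x ^ 2 + 2 * U.a₂ * x + U.a₄) ≠ 0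
    ∨ 2 * y + U.a₁ * x + U.a₃ ≠ 0)
  erw [h.valX x y, h.valY x y]
  have hu := h.hu
  by_cases hy : 2 * y + U.a₁ * x + U.a₃ = 0
  · simp [hy, hu]
  · simp [hy, hu]

lemma Rel.col (h : Rel V U u r s t) {l m x₁ y₁ x₂ y₂ x₃ y₃ : F}
    (c : Col U l m x₁ y₁ x₂ y₂ x₃ y₃) :
    Col V (u * l + s) (u ^ 3 * m + t - r * (u * l + s))
      (u ^ 2 * x₁ + r) (u ^ 3 * y₁ + u ^ 2 * s * x₁ + t)
      (u ^ 2 * x₂ + r) (u ^ 3 * y₂ + u ^ 2 * s * x₂ + t)
      (u ^ 2 * x₃ + r) (u ^ 3 * y₃ + u ^ 2 * s * x₃ + t) := by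
  refine ⟨?_, ?_, ?_, ?_, ?_, ?_⟩
  · rw [c.h1]; ring
  · rw [c.h2]; ring
  · rw [c.h3]; ring
  · rw [h.h2, h.h1]; linear_combination u ^ 2 * c.e1
  · rw [h.h4, h.h3, h.h2, h.h1]
    linear_combination u ^ 4 * c.e2 + 2 * r * u ^ 2 * c.e1
  · rw [h.h6, h.h4, h.h3, h.h2, h.h1]
    linear_combination u ^ 6 * c.e3 + r * u ^ 4 * c.e2 + r ^ 2 * u ^ 2 * c.e1

lemma pa_some {x y : F} (h : V.toAffine.Nonsingular x y) : pa V x y = .some x y h := by
  simp [pa, h]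

/-- the map on points -/
noncomputable def mp (V U : WeierstrassCurve F) (u r s t : F) :
    U.toAffine.Point → V.toAffine.Point
  | .zero => 0
  | .some x y _ => pa V (u ^ 2 * x + r) (u ^ 3 * y + u ^ 2 * s * x + t)

lemma Rel.mp_pa (h : Rel V U u r s t) (x y : F) :
    mp V U u r s t (pa U x y) = pa V (u ^ 2 * x + r) (u ^ 3 * y + u ^ 2 * s * x + t) := by
  by_cases hn : U.toAffine.Nonsingular x y
  · rw [pa_some hn]; rfl
  · have hn' := mt (h.ns x y).1 hn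
    simp only [pa, hn, hn', dif_neg, not_false_eq_true]
    rfl

lemma Rel.hom [DecidableEq F] (hc : S_COL) (h : Rel V U u r s t) :
    ∃ g : U.toAffine.Point →+ V.toAffine.Point, ∀ x y,
      g (pa U x y) = pa V (u ^ 2 * x + r) (u ^ 3 * y + u ^ 2 * s * x + t) := by
  refine ⟨Pool.Agent.MP_c481b3_nt.H81.homOf (mp V U u r s t) rfl ?_ ?_, h.mp_pa⟩
  · rintro (_ | ⟨x, y, hn⟩)
    · exact neg_zero.symm
    · rw [Affine.Point.neg_some]
      change pa V _ _ = -pa V _ _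
      rw [pa_some ((h.ns x y).2 hn), Affine.Point.neg_some,
        pa_some ((h.ns x _).2 ((Affine.nonsingular_neg x y).2 hn))]
      have e : u ^ 3 * U.toAffine.negY x y + u ^ 2 * s * x + t =
          V.toAffine.negY (u ^ 2 * x + r) (u ^ 3 * y + u ^ 2 * s * x + t) := by
        have := h.valY x y
        simp only [Affine.negY]
        change u ^ 3 * (-y - U.a₁ * x - U.a₃) + _ + _ = -_ - V.a₁ * _ - V.a₃
        linear_combination this
      simp only [e]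
  · rintro (_ | ⟨x₁, y₁, n₁⟩) (_ | ⟨x₂, y₂, n₂⟩) (_ | ⟨x₃, y₃, n₃⟩) hP hQ hR hs
    any_goals exact absurd rfl hP
    any_goals exact absurd rfl hQ
    any_goals exact absurd rfl hR
    rw [← pa_some n₁, ← pa_some n₂, ← pa_some n₃] at hs
    obtain ⟨l, m, c⟩ := hc.of_sum F U _ _ _ _ _ _ n₁ n₂ n₃ hs
    exact hc.sum F V _ _ _ _ _ _ _ _ ((h.ns _ _).2 n₁) ((h.ns _ _).2 n₂) ((h.ns _ _).2 n₃)
      (h.col c)

lemma Rel.card (h : Rel V U u r s t) :
    Nat.card {v : F × F // U.toAffine.Equation v.1 v.2} =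
      Nat.card {v : F × F // V.toAffine.Equation v.1 v.2} := by
  have hu := h.hu
  refine Nat.card_congr (Equiv.subtypeEquiv
    ⟨fun v => (u ^ 2 * v.1 + r, u ^ 3 * v.2 + u ^ 2 * s * v.1 + t),
      fun v => ((v.1 - r) / u ^ 2, (v.2 - s * (v.1 - r) - t) / u ^ 3), ?_, ?_⟩ ?_)
  · rintro ⟨x, y⟩
    refine Prod.ext ?_ ?_
    · simp only; field_simp; ring
    · simp only; field_simp; ring
  · rintro ⟨x, y⟩
    refine Prod.ext ?_ ?_
    · simp only; field_simp; ring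
    · simp only; field_simp; ring
  · rintro ⟨x, y⟩
    exact (h.eqn x y).symm

lemma tr {k K : Type} [Field k] [Field K] (j : k →+* K) (x : K) (a b : k) (ha : a ≠ 0)
    (hx : ∀ f : k[X], f ≠ 0 → f.eval₂ j x ≠ 0) (f : k[X]) (hf : f ≠ 0) :
    f.eval₂ j (j a * x + j b) ≠ 0 := by
  have e : (f.comp (C a * X + C b)).eval₂ j x = f.eval₂ j (j a * x + j b) := by
    rw [eval₂_comp]; simp
  rw [← e]
  refine hx _ fun h0 => ?_
  rcases comp_eq_zero_iff.1 h0 with h1 | ⟨_, h1⟩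
  · exact hf h1
  · have := congrArg (fun q : k[X] => q.coeff 1) h1
    simp [coeff_C] at this
    exact ha this

end FVCx

open FVCx in
theorem fvc (h : S_COL) : S_FVC := by
  intro p _ V C
  have hr := rel_smul V C
  refine ⟨hr.card, fun a e hF K _ _ _ j x y hx hn => ?_⟩
  set f := ZMod.castHom (dvd_refl p) K with hf
  have hK := hr.map f
  obtain ⟨g, hg⟩ := hK.hom h
  have hu := hK.hu
  have fx : ∀ c : ZMod p, f c ^ p = f c := fun c => by rw [← map_pow, ZMod.pow_card]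
  set u := f (C.u : ZMod p) with hu'
  set r := f C.r with hr'
  set s := f C.s with hs'
  set t := f C.t with ht'
  have fu : u ^ p = u := fx _
  have fr : r ^ p = r := fx _
  have fs : s ^ p = s := fx _
  have ft : t ^ p = t := fx _
  have pX : ∀ z : K, (u ^ 2 * z + r) ^ p = u ^ 2 * z ^ p + r := fun z => by
    rw [add_pow_char, mul_pow, fr, pow_right_comm, fu]
  have pY : ∀ z w : K, (u ^ 3 * w + u ^ 2 * s * z + t) ^ p =
      u ^ 3 * w ^ p + u ^ 2 * s * z ^ p + t := fun z w => by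
    rw [add_pow_char, add_pow_char, mul_pow, mul_pow, mul_pow, ft, fs, pow_right_comm u 3,
      pow_right_comm u 2, fu]
  obtain ⟨x', ex⟩ : ∃ x', x = u ^ 2 * x' + r := ⟨(x - r) / u ^ 2, by field_simp; ring⟩
  obtain ⟨y', ey⟩ : ∃ y', y = u ^ 3 * y' + u ^ 2 * s * x' + t :=
    ⟨(y - u ^ 2 * s * x' - t) / u ^ 3, by field_simp; ring⟩
  have hj : ∀ c : ZMod p, j (algebraMap (ZMod p) (AlgebraicClosure (ZMod p)) c) = f c := fun c =>
    congrArg (fun φ : ZMod p →+* K => φ c)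
      (RingHom.ext_zmod (j.comp (algebraMap (ZMod p) (AlgebraicClosure (ZMod p)))) f)
  have hx' : ∀ q : (AlgebraicClosure (ZMod p))[X], q ≠ 0 → q.eval₂ j x' ≠ 0 := by
    intro q hq
    have h0 : (C.u : ZMod p) ≠ 0 := C.u.ne_zero
    have := tr j x (algebraMap (ZMod p) _ (((C.u : ZMod p) ^ 2)⁻¹))
      (algebraMap (ZMod p) _ (-C.r * ((C.u : ZMod p) ^ 2)⁻¹))
      ((_root_.map_ne_zero _).2 (inv_ne_zero (pow_ne_zero _ h0))) hx q hq
    rw [hj, hj] at this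
    have e : f ((C.u : ZMod p) ^ 2)⁻¹ * x + f (-C.r * ((C.u : ZMod p) ^ 2)⁻¹) = x' := by
      rw [map_mul, map_neg, map_inv₀, map_pow, ← hu', ← hr', ex]
      field_simp; ring
    rwa [e] at this
  have hn' : ((C • V).map f).toAffine.Nonsingular x' y' := by
    rw [ex, ey] at hn
    exact (hK.ns x' y').1 hn
  have h1 := congrArg g (hF K j x' y' hx' hn')
  rw [map_add, map_sub, map_zsmul, map_zsmul, map_zsmul, map_zero, hg, hg, hg] at h1
  rw [ey, ex, pX, pX, pY, pY]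
  exact h1

end Pool.Agent.MP_b2c033_nt.UH
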