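import Pool.Agent.MP_b2c033_nt.UH.Spec

/-! The third point on the line through two formal points. -/

namespace Pool.Agent.MP_b2c033_nt.UH

theorem add : S_ADD := by
  intro R _ V I t₁ w₁ t₂ w₂ hI h₁ h₂
  have ml : ∀ a, ∀ {x}, x ∈ I → a * x ∈ I := fun a _ h => I.mul_mem_left a h
  obtain ⟨d, hd⟩ := (hI (t₁ * (-V.a₁ - V.a₂ * t₁) + (w₁ + w₂) * (-V.a₃ - V.a₄ * t₁) +
    ((-V.a₆ * (w₁ + w₂)) * w₁ + (-V.a₆ * w₂) * w₂)) (add_mem (add_mem (I.mul_mem_right _ h₁.ht)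
      (I.mul_mem_right _ (add_mem h₁.hw h₂.hw))) (add_mem (ml _ h₁.hw) (ml _ h₂.hw)))).exists_right_inv
  obtain ⟨N, hN, e⟩ : ∃ N ∈ I, N = (t₁ + t₂) * t₁ + t₂ * t₂ +
      (V.a₁ + V.a₂ * (t₁ + t₂) + V.a₄ * w₂) * w₂ :=
    ⟨_, add_mem (add_mem (ml _ h₁.ht) (ml _ h₂.ht)) (ml _ h₂.hw), rfl⟩
  obtain ⟨l, hl, el⟩ : ∃ l ∈ I, l = d * N := ⟨_, ml _ hN, rfl⟩
  obtain ⟨n, hn, en⟩ : ∃ n ∈ I, w₁ = l * t₁ + n :=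
    ⟨w₁ - l * t₁, sub_mem h₁.hw (ml _ h₁.ht), by ring⟩
  have q₁ := h₁.eqn
  have q₂ := h₂.eqn
  unfold Eq0 at q₁ q₂
  have e₂ : w₂ = l * t₂ + n := by
    linear_combination d * q₂ - d * q₁ - (w₂ - w₁) * hd + en - (t₂ - t₁) * el - (t₂ - t₁) * d * e
  have eN : N = l * (1 + (t₁ * (-V.a₁ - V.a₂ * t₁) + (w₁ + w₂) * (-V.a₃ - V.a₄ * t₁) +
      ((-V.a₆ * (w₁ + w₂)) * w₁ + (-V.a₆ * w₂) * w₂))) := by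
    rw [el]
    linear_combination (-N) * hd
  obtain ⟨u, hu⟩ := (hI ((V.a₂ + V.a₄ * l + V.a₆ * l ^ 2) * l) (ml _ hl)).exists_right_inv
  obtain ⟨t₃, h₃, e1⟩ : ∃ t₃ ∈ I, UU V l * (t₁ + t₂ + t₃) =
      -(V.a₁ * l + V.a₂ * n + V.a₃ * l ^ 2 + 2 * V.a₄ * l * n + 3 * V.a₆ * l ^ 2 * n) :=
    ⟨-u * ((V.a₁ + V.a₃ * l) * l + (V.a₂ + 2 * V.a₄ * l + 3 * V.a₆ * l ^ 2) * n) - t₁ - t₂,
      sub_mem (sub_mem (ml _ (add_mem (ml _ hl) (ml _ hn))) h₁.ht) h₂.ht, by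
        unfold UU
        linear_combination
          -((V.a₁ + V.a₃ * l) * l + (V.a₂ + 2 * V.a₄ * l + 3 * V.a₆ * l ^ 2) * n) * hu⟩
  rw [e] at eN
  clear el e hd
  subst en e₂
  have e2 : UU V l * (t₁ * t₂ + t₁ * t₃ + t₂ * t₃) =
      V.a₁ * n + 2 * V.a₃ * l * n + V.a₄ * n ^ 2 + 3 * V.a₆ * l * n ^ 2 - l := by
    unfold UU at e1 ⊢
    linear_combination (t₁ + t₂) * e1 - eN
  have e3 : UU V l * (t₁ * t₂ * t₃) = n - V.a₃ * n ^ 2 - V.a₆ * n ^ 3 := by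
    unfold UU at e1 ⊢
    linear_combination t₁ * t₂ * e1 - t₁ * eN - q₁
  refine ⟨l, hl, n, t₃, l * t₃ + n, ⟨h₃, add_mem (ml _ h₃) hn, ?_⟩, rfl, rfl, rfl, e1, e2, e3⟩
  unfold UU at e1 e2 e3
  unfold Eq0
  linear_combination -t₃ ^ 2 * e1 + t₃ * e2 - e3

end Pool.Agent.MP_b2c033_nt.UH
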