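import Pool.Agent.MP_b2c033_nt.UH.Spec

/-! The group law in the chart at infinity. -/

namespace Pool.Agent.MP_b2c033_nt.UH

open WeierstrassCurve

namespace CWx

variable {F : Type} [Field F] {V : WeierstrassCurve F} {l n t w t' w' : F}

theorem ns (e : Eq0 V t w) (h : HH V t w ≠ 0) (w0 : w ≠ 0) :
    V.toAffine.Nonsingular (t / w) (-1 / w) := by
  rw [Affine.nonsingular_iff', Affine.equation_iff]
  unfold Eq0 at e
  refine ⟨by field_simp; linear_combination e, ?_⟩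
  by_contra q
  rw [not_or, not_not, not_not] at q
  obtain ⟨q1, q2⟩ := q
  refine mul_ne_zero w0 h ?_
  have r1 : -V.a₁ * w - 3 * t ^ 2 - 2 * V.a₂ * t * w - V.a₄ * w ^ 2 = 0 := by
    rw [← mul_zero (w ^ 2), ← q1]
    field_simp
    ring
  have r2 : -2 * w + V.a₁ * t * w + V.a₃ * w ^ 2 = 0 := by
    rw [← mul_zero (w ^ 2), ← q2]
    field_simp
  unfold HH
  linear_combination 3 * e - t * r1 + r2

theorem t0 (e : Eq0 V t 0) : t = 0 := by
  unfold Eq0 at e
  exact pow_eq_zero_iff (n := 3) (by norm_num) |>.1 (by linear_combination -e)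

theorem pw_some (e : Eq0 V t w) (h : HH V t w ≠ 0) (w0 : w ≠ 0) :
    pw V t w = .some _ _ (ns e h w0) := by
  rw [pw, if_neg w0, pa, dif_pos (ns e h w0)]

theorem pw0 (t : F) : pw V t 0 = 0 := if_pos rfl

theorem two [DecidableEq F] (hU : UU V l ≠ 0) (e : Eq0 V t (l * t)) (h : HH V t (l * t) ≠ 0)
    (e' : Eq0 V t' (l * t')) (h' : HH V t' (l * t') ≠ 0)
    (e1 : UU V l * (t + t') = -(V.a₁ * l + V.a₃ * l ^ 2)) (e2 : UU V l * (t * t') = -l) :
    pw V t (l * t) + pw V t' (l * t') = 0 := by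
  rcases eq_or_ne l 0 with rfl | l0
  · simp only [zero_mul, pw0, add_zero]
  have k : t * t' ≠ 0 := fun q => l0 (by linear_combination e2 - UU V l * q)
  obtain ⟨a, b⟩ := mul_ne_zero_iff.1 k
  rw [pw_some e h (mul_ne_zero l0 a), pw_some e' h' (mul_ne_zero l0 b)]
  refine Affine.Point.add_of_Y_eq (by field_simp) ?_
  have : t + t' = (V.a₁ + V.a₃ * l) * (t * t') :=
    mul_left_cancel₀ hU (by linear_combination e1 - (V.a₁ + V.a₃ * l) * e2)
  rw [Affine.negY]
  field_simp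
  linear_combination -this

end CWx

open CWx

theorem cw (h : S_COL) : S_CW := by
  refine ⟨fun F _ V t w => ns, fun F _ V t w t' w' e a e' a' q => ?_,
    fun F _ _ V l n t₁ w₁ t₂ w₂ t₃ w₃ hU a₁ a₂ a₃ ⟨h1, h2, h3, e1, e2, e3⟩ => ?_⟩
  · rcases eq_or_ne w 0 with rfl | w0 <;> rcases eq_or_ne w' 0 with rfl | w0'
    · exact ⟨(t0 e).trans (t0 e').symm, rfl⟩
    · rw [pw0, pw_some e' a' w0'] at q
      exact absurd q.symm (Affine.Point.some_ne_zero _)
    · rw [pw0, pw_some e a w0] at q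
      exact absurd q (Affine.Point.some_ne_zero _)
    · rw [pw_some e a w0, pw_some e' a' w0', Affine.Point.some.injEq] at q
      obtain rfl : w = w' := by
        have := q.2
        rwa [neg_div, neg_div, neg_inj, one_div, one_div, inv_inj] at this
      exact ⟨(div_left_inj' w0).1 q.1, rfl⟩
  have q1 : Eq0 V t₁ w₁ := by
    unfold Eq0 UU at *
    rw [h1]
    linear_combination -t₁ ^ 2 * e1 + t₁ * e2 - e3
  have q2 : Eq0 V t₂ w₂ := by
    unfold Eq0 UU at *
    rw [h2]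
    linear_combination -t₂ ^ 2 * e1 + t₂ * e2 - e3
  have q3 : Eq0 V t₃ w₃ := by
    unfold Eq0 UU at *
    rw [h3]
    linear_combination -t₃ ^ 2 * e1 + t₃ * e2 - e3
  rcases eq_or_ne n 0 with rfl | n0
  · rw [add_zero] at h1 h2 h3
    subst h1 h2 h3
    have k : t₁ * t₂ * t₃ = 0 := mul_left_cancel₀ hU (by linear_combination e3)
    rcases mul_eq_zero.1 k with k | rfl
    · rcases mul_eq_zero.1 k with rfl | rfl
      · rw [mul_zero, pw0, zero_add]
        exact two hU q2 a₂ q3 a₃ (by linear_combination e1) (by linear_combination e2)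
      · rw [mul_zero, pw0, add_zero]
        exact two hU q1 a₁ q3 a₃ (by linear_combination e1) (by linear_combination e2)
    · rw [mul_zero, pw0, add_zero]
      exact two hU q1 a₁ q2 a₂ (by linear_combination e1) (by linear_combination e2)
  have p : UU V l * (w₁ * w₂ * w₃) = n ^ 3 := by
    unfold UU at *
    rw [h1, h2, h3]
    linear_combination l ^ 3 * e3 + l ^ 2 * n * e2 + l * n ^ 2 * e1
  have p0 : w₁ * w₂ * w₃ ≠ 0 := fun q => pow_ne_zero 3 n0 (by rw [← p, q, mul_zero])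
  obtain ⟨⟨b₁, b₂⟩, b₃⟩ := (mul_ne_zero_iff.1 p0).imp_left mul_ne_zero_iff.1
  have A1 : (t₁ * w₂ * w₃ + t₂ * w₁ * w₃ + t₃ * w₁ * w₂) * n ^ 2 =
      w₁ * w₂ * w₃ * (l ^ 2 + V.a₁ * l * n - V.a₂ * n ^ 2) := mul_left_cancel₀ hU (by
    rw [← mul_assoc _ (w₁ * w₂ * w₃), p, h1, h2, h3]
    linear_combination n ^ 2 * (3 * l ^ 2 * e3 + 2 * l * n * e2 + n ^ 2 * e1))
  have A2 : (t₁ * t₂ * w₃ + t₁ * t₃ * w₂ + t₂ * t₃ * w₁) * n ^ 2 =
      w₁ * w₂ * w₃ * (V.a₄ * n ^ 2 + 2 * l + V.a₁ * n - V.a₃ * l * n) := mul_left_cancel₀ hU (by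
    rw [← mul_assoc _ (w₁ * w₂ * w₃), p, h1, h2, h3]
    linear_combination n ^ 2 * (3 * l * e3 + n * e2))
  have A3 : t₁ * t₂ * t₃ * n ^ 2 = w₁ * w₂ * w₃ * (1 - V.a₃ * n - V.a₆ * n ^ 2) :=
    mul_left_cancel₀ hU (by
      rw [← mul_assoc _ (w₁ * w₂ * w₃), p]
      linear_combination n ^ 2 * e3)
  rw [pw, pw, pw, if_neg b₁, if_neg b₂, if_neg b₃]
  refine h.sum F V (l / n) (-1 / n) _ _ _ _ _ _ (ns q1 a₁ b₁) (ns q2 a₂ b₂) (ns q3 a₃ b₃)
    ⟨?_, ?_, ?_, ?_, ?_, ?_⟩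
  · field_simp
    linear_combination h1
  · field_simp
    linear_combination h2
  · field_simp
    linear_combination h3
  · field_simp
    linear_combination A1
  · field_simp
    linear_combination A2
  · field_simp
    linear_combination A3

end Pool.Agent.MP_b2c033_nt.UH
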