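import Pool.Agent.MP_b2c033_nt.UH.Spec

/-! Row DIF: the difference of two close points is an integral formal point. -/

namespace Pool.Agent.MP_b2c033_nt.UH

open WeierstrassCurve

namespace DIFx

theorem sub_pt {F : Type} [Field F] [DecidableEq F] (V : WeierstrassCurve F) (hΔ : V.Δ ≠ 0)
    {x₁ y₁ x₂ y₂ : F} (h₁ : V.toAffine.Equation x₁ y₁) (h₂ : V.toAffine.Equation x₂ y₂)
    (hx : x₁ ≠ x₂) : ∃ l x₃ y₃ : F, l * (x₁ - x₂) = y₁ + y₂ + V.a₁ * x₂ + V.a₃ ∧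
      x₃ = l ^ 2 + V.a₁ * l - V.a₂ - x₁ - x₂ ∧
      y₃ = -(l * (x₃ - x₁) + y₁) - V.a₁ * x₃ - V.a₃ ∧ V.toAffine.Equation x₃ y₃ ∧
      pa V x₃ y₃ = pa V x₁ y₁ - pa V x₂ y₂ := by
  have n₁ : V.toAffine.Nonsingular x₁ y₁ :=
    (Affine.equation_iff_nonsingular_of_Δ_ne_zero (W := V.toAffine) hΔ).1 h₁
  have n₂ : V.toAffine.Nonsingular x₂ y₂ :=
    (Affine.equation_iff_nonsingular_of_Δ_ne_zero (W := V.toAffine) hΔ).1 h₂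
  have n₂' := (Affine.nonsingular_neg (W' := V.toAffine) x₂ y₂).2 n₂
  have n₃ := Affine.nonsingular_add n₁ n₂' fun hxy => hx hxy.left
  refine ⟨V.toAffine.slope x₁ x₂ y₁ (V.toAffine.negY x₂ y₂), _, _, ?_, rfl, rfl, n₃.1, ?_⟩
  · rw [Affine.slope_of_X_ne hx, div_mul_cancel₀ _ (sub_ne_zero.2 hx), Affine.negY]
    ring
  · have e1 : pa V x₁ y₁ = .some _ _ n₁ := dif_pos n₁
    have e2 : pa V x₂ y₂ = .some _ _ n₂ := dif_pos n₂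
    rw [e1, e2, sub_eq_add_neg (Affine.Point.some _ _ n₁), Affine.Point.neg_some,
      Affine.Point.add_of_X_ne hx]
    exact dif_pos n₃

theorem chart {F : Type} [Field F] (V : WeierstrassCurve F) {t w x y : F} (hw : w * y = -1)
    (ht : t = w * x) (h : V.toAffine.Equation x y) : Eq0 V t w ∧ pw V t w = pa V x y := by
  have hw0 : w ≠ 0 := by
    rintro rfl
    simp at hw
  constructor
  · rw [Affine.equation_iff] at h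
    have h' : y ^ 2 + V.a₁ * x * y + V.a₃ * y = x ^ 3 + V.a₂ * x ^ 2 + V.a₄ * x + V.a₆ := h
    unfold Eq0
    rw [ht]
    linear_combination w ^ 3 * h' - (w * (w * y - 1) + V.a₁ * x * w ^ 2 + V.a₃ * w ^ 2) * hw
  · have e1 : t / w = x := by rw [ht]; field_simp
    have e2 : -1 / w = y := by rw [← hw]; field_simp
    unfold pw
    rw [if_neg hw0, e1, e2]

theorem alg {F : Type} [Field F] {a₁ a₂ a₃ m r s v b₁ b₂ b₃ X₁ Y₁ X₂ Y₂ x₁ y₁ x₂ y₂ μ l x₃ y₃ : F}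
    (hm : m ≠ 0) (h₁ : b₁ = m * a₁ + 2 * s) (h₂ : b₂ = m ^ 2 * a₂ - s * m * a₁ + 3 * r - s ^ 2)
    (h₃ : b₃ = m ^ 3 * a₃ + r * m * a₁ + 2 * v) (hx₁ : m ^ 2 * x₁ = X₁ + r)
    (hy₁ : m ^ 3 * y₁ = Y₁ + s * X₁ + v) (hx₂ : m ^ 2 * x₂ = X₂ + r)
    (hy₂ : m ^ 3 * y₂ = Y₂ + s * X₂ + v) (hx : x₁ ≠ x₂)
    (hμ : μ * (Y₁ + Y₂ + b₃ + b₁ * X₂) = X₁ - X₂)
    (hl : l * (x₁ - x₂) = y₁ + y₂ + a₁ * x₂ + a₃) (e₃ : x₃ = l ^ 2 + a₁ * l - a₂ - x₁ - x₂)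
    (f₃ : y₃ = -(l * (x₃ - x₁) + y₁) - a₁ * x₃ - a₃) (N : F)
    (hN : N = 1 + b₁ * μ - (b₂ + X₁ + X₂) * μ ^ 2) :
    m ^ 2 * x₃ * μ ^ 2 = N + r * μ ^ 2 ∧ m ^ 3 * y₃ * μ ^ 3 =
      -(N - X₁ * μ ^ 2 + Y₁ * μ ^ 3 + b₁ * μ * N + b₃ * μ ^ 3 - s * μ * N - v * μ ^ 3) := by
  have k : μ * m * l = 1 + s * μ := by
    apply mul_right_cancel₀ (mul_ne_zero (pow_ne_zero 2 hm) (sub_ne_zero.2 hx))
    subst h₁ h₃
    linear_combination μ * m ^ 3 * hl + μ * (hy₁ + hy₂) + μ * m * a₁ * hx₂ + hμ -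
      (1 + s * μ) * (hx₁ - hx₂)
  have k1 : m ^ 2 * x₃ * μ ^ 2 = N + r * μ ^ 2 := by
    rw [e₃, hN, h₁, h₂]
    linear_combination (μ * m * l + (1 + s * μ) + m * a₁ * μ) * k - μ ^ 2 * (hx₁ + hx₂)
  refine ⟨k1, ?_⟩
  rw [f₃, h₁, h₃]
  linear_combination (-(m ^ 2 * (x₃ - x₁) * μ ^ 2)) * k - (1 + s * μ + m * a₁ * μ) * k1 +
    (1 + s * μ) * μ ^ 2 * hx₁ - μ ^ 3 * hy₁

theorem unit_add {S : Type} [CommRing S] {J : Ideal S} (hJ : ∀ x ∈ J, IsUnit (1 + x)) {u z : S}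
    (hu : IsUnit u) (hz : z ∈ J) : ∃ b, (u + z) * b = 1 := by
  obtain ⟨c, hc⟩ := hu.exists_right_inv
  obtain ⟨d, hd⟩ := (hJ (c * z) (J.mul_mem_left _ hz)).exists_right_inv
  exact ⟨c * d, by linear_combination d * hc + hd⟩

end DIFx

open DIFx in
theorem dif : S_DIF := by
  intro S F _ _ _ _ J h W m r s v A B₀ B₁ C₀ C₁ C₂ C₃ ξ₁ η₁ ξ₂ η₂ x₁ y₁ x₂ y₂ hJ hΔ _ _ hC hξ hη
    he1 he2 hu hx₁ hy₁ hx₂ hy₂ h₁ h₂ hx
  obtain ⟨μ, hμJ, hμ⟩ : ∃ μ ∈ J, μ * (A * (η₁ + η₂) + B₀ + B₁ * ξ₂) = ξ₁ - ξ₂ := by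
    rcases hu with hu | hu
    · obtain ⟨b, hb⟩ := unit_add hJ hu (J.mul_mem_left (A : S) hη)
      exact ⟨(ξ₁ - ξ₂) * b, J.mul_mem_right _ hξ, by linear_combination (ξ₁ - ξ₂) * hb⟩
    · obtain ⟨b, hb⟩ := unit_add hJ hu (J.sub_mem
        (J.mul_mem_left ((C₂ : S) + C₃ * (ξ₁ + 2 * ξ₂)) hξ) (J.mul_mem_left (B₁ : S) hη))
      exact ⟨(η₁ - η₂) * b, J.mul_mem_right _ hη, by
        linear_combination b * (he1 - he2) + (ξ₁ - ξ₂) * hb⟩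
  have hΔ' : (bc W F).Δ ≠ 0 := by
    rw [map_Δ]
    exact Int.cast_ne_zero.2 hΔ
  obtain ⟨l, x₃, y₃, hl, e₃, f₃, h₃, hp⟩ := sub_pt (bc W F) hΔ' h₁ h₂ hx
  obtain ⟨N, hN⟩ : ∃ N : S, N = 1 + B₁ * μ - (A * C₂ + A * C₃ * ξ₁ + A * C₃ * ξ₂) * μ ^ 2 :=
    ⟨_, rfl⟩
  obtain ⟨b, hb⟩ : ∃ b : S, (N - A * C₃ * ξ₁ * μ ^ 2 + A ^ 2 * C₃ * η₁ * μ ^ 3 + B₁ * μ * N +
      B₀ * A * C₃ * μ ^ 3 - s * μ * N - v * μ ^ 3) * b = 1 := by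
    obtain ⟨b, hb⟩ := (hJ _ (J.mul_mem_left (B₁ - (A * C₂ + A * C₃ * ξ₁ + A * C₃ * ξ₂) * μ -
      A * C₃ * ξ₁ * μ + A ^ 2 * C₃ * η₁ * μ ^ 2 + B₁ * N + B₀ * A * C₃ * μ ^ 2 - s * N -
      v * μ ^ 2) hμJ)).exists_right_inv
    exact ⟨b, by linear_combination hb + b * hN⟩
  have hb' := congrArg h hb
  have hN' := congrArg h hN
  have hμ' := congrArg h hμ
  simp only [map_mul, map_add, map_sub, map_pow, map_intCast, map_one] at hb' hN' hμ'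
  have c₁ : (B₁ : F) = m * (bc W F).a₁ + 2 * s := by
    have := congrArg (fun z : ℤ => (z : F)) hC.h₁
    push_cast at this
    exact this
  have c₂ : (A * C₂ : F) = m ^ 2 * (bc W F).a₂ - s * m * (bc W F).a₁ + 3 * r - s ^ 2 := by
    have := congrArg (fun z : ℤ => (z : F)) hC.h₂
    push_cast at this
    exact this
  have c₃ : (B₀ * A * C₃ : F) = m ^ 3 * (bc W F).a₃ + r * m * (bc W F).a₁ + 2 * v := by
    have := congrArg (fun z : ℤ => (z : F)) hC.h₃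
    push_cast at this
    exact this
  obtain ⟨k1, k2⟩ := alg (μ := h μ) (Int.cast_ne_zero.2 hC.hm) c₁ c₂ c₃ hx₁ hy₁ hx₂ hy₂ hx
    (by linear_combination (A * C₃ : F) * hμ') hl e₃ f₃ (h N) hN'
  have q := chart (bc W F) (t := h (m * (N + r * μ ^ 2) * b * μ)) (w := h (m ^ 3 * μ ^ 2 * b * μ))
    (x := x₃) (y := y₃)
    (by
      simp only [map_mul, map_pow, map_intCast]
      linear_combination h b * k2 - hb')
    (by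
      simp only [map_mul, map_add, map_pow, map_intCast]
      linear_combination (-(m * h b * h μ)) * k1) h₃
  exact ⟨_, J.mul_mem_left _ hμJ, _, J.mul_mem_left _ hμJ, q.1, q.2.trans hp⟩

end Pool.Agent.MP_b2c033_nt.UH
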