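import Pool.Agent.MP_b2c033_nt.UH.Spec

/-! The Frobenius relation over the field with two elements. -/

namespace Pool.Agent.MP_b2c033_nt.UH

open Polynomial WeierstrassCurve

namespace F2x

variable {K : Type} [Field K] [DecidableEq K] {V : WeierstrassCurve K} {x y u : K}

lemma line (h : S_COL) (hV : V.Δ ≠ 0) (l m : K) {x₁ y₁ x₂ y₂ x₃ y₃ : K}
    (c : Col V l m x₁ y₁ x₂ y₂ x₃ y₃) : pa V x₁ y₁ + pa V x₂ y₂ + pa V x₃ y₃ = 0 := by
  have k : ∀ s t : K, t = l * s + m → (s - x₁) * (s - x₂) * (s - x₃) = 0 →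
      V.toAffine.Nonsingular s t := fun s t a b => by
    rw [← Affine.equation_iff_nonsingular_of_Δ_ne_zero hV, Affine.equation_iff, a]
    linear_combination -b - s ^ 2 * c.e1 + s * c.e2 - c.e3
  exact h.sum K V l m _ _ _ _ _ _ (k _ _ c.h1 (by ring)) (k _ _ c.h2 (by ring))
    (k _ _ c.h3 (by ring)) c

lemma neg {y' : K} (e : y' = -y - V.a₁ * x - V.a₃) : pa V x y' = -pa V x y := by
  have e' : y' = V.toAffine.negY x y := e
  rw [e', pa, pa]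
  by_cases h : V.toAffine.Nonsingular x y
  · rw [dif_pos h, dif_pos ((Affine.nonsingular_neg _ _).2 h), Affine.Point.neg_some]
  · rw [dif_neg h, dif_neg fun q => h ((Affine.nonsingular_neg _ _).1 q), neg_zero]

omit [DecidableEq K] in
lemma d1 (h2 : (2 : K) = 0) (a b : K) : (⟨0, 0, 1, a, b⟩ : WeierstrassCurve K).Δ ≠ 0 := by
  have : (⟨0, 0, 1, a, b⟩ : WeierstrassCurve K).Δ = 1 := by
    simp only [Δ, b₂, b₄, b₆, b₈]
    grind
  exact this.trans_ne one_ne_zero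

omit [DecidableEq K] in
lemma d2 (h2 : (2 : K) = 0) (a : K) : (⟨1, a, 0, 0, 1⟩ : WeierstrassCurve K).Δ ≠ 0 := by
  have : (⟨1, a, 0, 0, 1⟩ : WeierstrassCurve K).Δ = 1 := by
    simp only [Δ, b₂, b₄, b₆, b₈]
    grind
  exact this.trans_ne one_ne_zero

lemma c1 (h : S_COL) (h2 : (2 : K) = 0) (hV : V = ⟨0, 0, 1, 0, 0⟩) (e : V.toAffine.Equation x y) :
    pa V x y + pa V x y + pa V ((x ^ 2) ^ 2) ((y ^ 2) ^ 2) = 0 := by
  subst hV
  rw [Affine.equation_iff] at e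
  refine line h (d1 h2 _ _) (x ^ 2) (y + x ^ 3) ?_
  constructor <;> grind

lemma c2 (h : S_COL) (h2 : (2 : K) = 0) (hV : V = ⟨0, 0, 1, 1, 0⟩) (e : V.toAffine.Equation x y) :
    pa V x y + pa V (x ^ 2) (y ^ 2) + pa V (x + 1) (y + x + 1) = 0 ∧
    pa V (x + 1) (y + x + 1) + pa V (x + 1) (y + x + 1) +
      -pa V ((x ^ 2) ^ 2) ((y ^ 2) ^ 2) = 0 := by
  rw [← neg (y' := y ^ 4 + 1) (by subst hV; grind)]
  subst hV
  rw [Affine.equation_iff] at e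
  refine ⟨line h (d1 h2 _ _) (x + 1) (y + x ^ 2 + x) ?_,
    line h (d1 h2 _ _) (x ^ 2) (y + x + 1 + x ^ 2 + x ^ 3) ?_⟩ <;> constructor <;> grind

lemma c3 (h : S_COL) (h2 : (2 : K) = 0) (hV : V = ⟨0, 0, 1, 1, 1⟩) (e : V.toAffine.Equation x y) :
    pa V x y + -pa V (x ^ 2) (y ^ 2) + pa V (x + 1) (y + x + 1) = 0 ∧
    pa V (x + 1) (y + x + 1) + pa V (x + 1) (y + x + 1) +
      -pa V ((x ^ 2) ^ 2) ((y ^ 2) ^ 2) = 0 := by
  rw [← neg (y' := y ^ 2 + 1) (by subst hV; grind), ← neg (y' := y ^ 4 + 1) (by subst hV; grind)]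
  subst hV
  rw [Affine.equation_iff] at e
  refine ⟨line h (d1 h2 _ _) (x + 1) (y + x ^ 2 + x) ?_,
    line h (d1 h2 _ _) (x ^ 2) (y + x + 1 + x ^ 2 + x ^ 3) ?_⟩ <;> constructor <;> grind

lemma c4 (h : S_COL) (h2 : (2 : K) = 0) (hV : V = ⟨1, 0, 0, 0, 1⟩) (e : V.toAffine.Equation x y)
    (hu : x * u = 1) : ∃ R, pa V x y + pa V x y + R = 0 ∧
      pa V (x ^ 2) (y ^ 2) + pa V ((x ^ 2) ^ 2) ((y ^ 2) ^ 2) + -R = 0 := by
  refine ⟨pa V (x ^ 2 + u ^ 2) ((x + y * u) * (x ^ 2 + u ^ 2) + x ^ 2), ?_⟩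
  rw [← neg (y' := (x + y * u) * (x ^ 2 + u ^ 2) + u ^ 2) (by subst hV; grind)]
  subst hV
  rw [Affine.equation_iff] at e
  refine ⟨line h (d2 h2 _) (x + y * u) (x ^ 2) ?_, line h (d2 h2 _)
    (((y + x ^ 2 + x + 1) * u) ^ 2) (y ^ 2 + (y + x ^ 2 + x + 1) ^ 2) ?_⟩ <;> constructor <;> grind

lemma c5 (h : S_COL) (h2 : (2 : K) = 0) (hV : V = ⟨1, 1, 0, 0, 1⟩) (e : V.toAffine.Equation x y)
    (hu : x * u = 1) : ∃ R, pa V x y + pa V x y + R = 0 ∧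
      -pa V (x ^ 2) (y ^ 2) + pa V ((x ^ 2) ^ 2) ((y ^ 2) ^ 2) + -R = 0 := by
  refine ⟨pa V (x ^ 2 + u ^ 2) ((x + y * u) * (x ^ 2 + u ^ 2) + x ^ 2), ?_⟩
  rw [← neg (y' := y ^ 2 + x ^ 2) (by subst hV; grind),
    ← neg (y' := (x + y * u) * (x ^ 2 + u ^ 2) + u ^ 2) (by subst hV; grind)]
  subst hV
  rw [Affine.equation_iff] at e
  refine ⟨line h (d2 h2 _) (x + y * u) (x ^ 2) ?_, line h (d2 h2 _)
    (((y + x ^ 2 + 1) * u) ^ 2) (y ^ 2 + x ^ 2 + (y + x ^ 2 + 1) ^ 2) ?_⟩ <;> constructor <;> grind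

end F2x

open F2x

theorem f2 (h : S_COL) : S_F2 := by
  refine ⟨?_, ?_, ?_, ?_, ?_⟩ <;> intro K _ _ _ j x y hx e <;>
    have h2 : (2 : K) = 0 := by exact_mod_cast CharP.cast_eq_zero K 2
  · have := c1 h h2 (by ext <;> simp) e.1
    push_cast
    linear_combination (norm := abel1) this
  · obtain ⟨a, b⟩ := c2 h h2 (by ext <;> simp) e.1
    push_cast
    linear_combination (norm := abel1) a + a - b
  · obtain ⟨a, b⟩ := c3 h h2 (by ext <;> simp) e.1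
    push_cast
    linear_combination (norm := abel1) a + a - b
  · obtain ⟨R, a, b⟩ := c4 h h2 (by ext <;> simp) e.1
      (mul_inv_cancel₀ (by simpa using hx X X_ne_zero))
    push_cast
    linear_combination (norm := abel1) a + b
  · obtain ⟨R, a, b⟩ := c5 h h2 (by ext <;> simp) e.1
      (mul_inv_cancel₀ (by simpa using hx X X_ne_zero))
    push_cast
    linear_combination (norm := abel1) a + b

end Pool.Agent.MP_b2c033_nt.UH
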