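import Pool.Agent.MP_b2c033_nt.UH.Spec

/-! The Frobenius relation for the supersingular classes over the field with three elements. -/

namespace Pool.Agent.MP_b2c033_nt.UH

open Polynomial WeierstrassCurve

namespace F3ax

variable {K : Type} [Field K] [DecidableEq K] {A B x y : K}

omit [DecidableEq K] in
lemma ns (h3 : (3 : K) = 0) (hA : A ^ 2 = 1) (e : y ^ 2 = x ^ 3 + A * x + B) :
    (⟨0, 0, 0, A, B⟩ : WeierstrassCurve K).toAffine.Nonsingular x y := by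
  rw [Affine.nonsingular_iff', Affine.equation_iff]
  refine ⟨by linear_combination e, .inl fun q => one_ne_zero (α := K) ?_⟩
  have q : 0 * y - (3 * x ^ 2 + 2 * 0 * x + A) = 0 := q
  linear_combination -hA - A * q - A * x ^ 2 * h3

lemma neg (h3 : (3 : K) = 0) (hA : A ^ 2 = 1) (e : y ^ 2 = x ^ 3 + A * x + B) :
    pa ⟨0, 0, 0, A, B⟩ x (-y) = -pa ⟨0, 0, 0, A, B⟩ x y := by
  rw [pa, pa, dif_pos (ns h3 hA e), dif_pos (ns h3 hA (by rw [neg_sq, e])), Affine.Point.neg_some]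
  simp [Affine.negY]

lemma sum (h : S_COL) (h3 : (3 : K) = 0) (hA : A ^ 2 = 1) {l m x₁ y₁ x₂ y₂ x₃ y₃ : K}
    (h₁ : y₁ = l * x₁ + m) (h₂ : y₂ = l * x₂ + m) (h₃ : y₃ = l * x₃ + m)
    (e1 : x₁ + x₂ + x₃ = l ^ 2) (e2 : x₁ * x₂ + x₁ * x₃ + x₂ * x₃ = A - 2 * l * m)
    (e3 : x₁ * x₂ * x₃ = m ^ 2 - B) :
    pa ⟨0, 0, 0, A, B⟩ x₁ y₁ + pa ⟨0, 0, 0, A, B⟩ x₂ y₂ + pa ⟨0, 0, 0, A, B⟩ x₃ y₃ = 0 :=
  h.sum K _ l m _ _ _ _ _ _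
    (ns h3 hA (by rw [h₁]; linear_combination -x₁ ^ 2 * e1 + x₁ * e2 - e3))
    (ns h3 hA (by rw [h₂]; linear_combination -x₂ ^ 2 * e1 + x₂ * e2 - e3))
    (ns h3 hA (by rw [h₃]; linear_combination -x₃ ^ 2 * e1 + x₃ * e2 - e3))
    ⟨h₁, h₂, h₃, by linear_combination e1, by linear_combination e2, by linear_combination e3⟩

/-- multiplication by three -/
lemma tri (h : S_COL) (h3 : (3 : K) = 0) (hA : A ^ 2 = 1) (hB : B ^ 3 = B)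
    (e : y ^ 2 = x ^ 3 + A * x + B) (y0 : y ≠ 0) :
    (3 : ℤ) • pa ⟨0, 0, 0, A, B⟩ x y = -pa ⟨0, 0, 0, A, B⟩ (x ^ 9 + B - A * B) (y ^ 9) := by
  obtain ⟨u, hu⟩ : ∃ u, y * u = 1 := ⟨y⁻¹, mul_inv_cancel₀ y0⟩
  have s1 := sum (A := A) (B := B) h h3 hA (l := -A * u) (m := y + A * u * x) (x₁ := x) (y₁ := y)
    (x₂ := x) (y₂ := y) (x₃ := x + u ^ 2) (y₃ := y - A * u ^ 3)
    (by ring) (by ring) (by ring) (by grind) (by grind) (by grind)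
  have s2 := sum (A := A) (B := B) h h3 hA (l := y ^ 3 + A * u) (m := y - (y ^ 3 + A * u) * x)
    (x₁ := x) (y₁ := y) (x₂ := x + u ^ 2) (y₂ := -(y - A * u ^ 3)) (x₃ := x ^ 9 + B - A * B)
    (y₃ := y ^ 9) (by ring) (by grind) (by grind) (by grind) (by grind) (by grind)
  rw [neg h3 hA (by grind)] at s2
  rw [eq_neg_iff_add_eq_zero, ← add_zero (0 : (⟨0, 0, 0, A, B⟩ : WeierstrassCurve K).toAffine.Point)]
  nth_rewrite 1 [← s1]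
  rw [← s2]
  abel

lemma zero (h : S_COL) (h3 : (3 : K) = 0) (hA : A ^ 2 = 1) (e : y ^ 2 = x ^ 3 + A * x + 0)
    (y0 : y ≠ 0) : (1 : ℤ) • pa ⟨0, 0, 0, A, 0⟩ ((x ^ 3) ^ 3) ((y ^ 3) ^ 3)
      - (0 : ℤ) • pa ⟨0, 0, 0, A, 0⟩ (x ^ 3) (y ^ 3) + (3 : ℤ) • pa ⟨0, 0, 0, A, 0⟩ x y = 0 := by
  rw [tri h h3 hA (by ring) e y0, ← pow_mul, ← pow_mul]
  simp

lemma one (h : S_COL) (h3 : (3 : K) = 0) (e : y ^ 2 = x ^ 3 + 2 * x + 1)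
    (y0 : y ≠ 0) : (1 : ℤ) • pa ⟨0, 0, 0, 2, 1⟩ ((x ^ 3) ^ 3) ((y ^ 3) ^ 3)
      - (-3 : ℤ) • pa ⟨0, 0, 0, 2, 1⟩ (x ^ 3) (y ^ 3) + (3 : ℤ) • pa ⟨0, 0, 0, 2, 1⟩ x y = 0 := by
  have hA : (2 : K) ^ 2 = 1 := by linear_combination h3
  have e3 : (y ^ 3) ^ 2 = (x ^ 3) ^ 3 + 2 * x ^ 3 + 1 := by grind
  have e9 : ((y ^ 3) ^ 3) ^ 2 = ((x ^ 3) ^ 3) ^ 3 + 2 * (x ^ 3) ^ 3 + 1 := by
    generalize x ^ 3 = a at *
    generalize y ^ 3 = b at *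
    clear e
    grind
  have s := sum (A := 2) (B := 1) h h3 hA (l := y ^ 9) (m := y ^ 9 - y ^ 9 * (x ^ 9 + 1 - 2 * 1))
    (x₁ := x ^ 9 + 1 - 2 * 1) (y₁ := y ^ 9) (x₂ := (x ^ 3) ^ 9 + 1 - 2 * 1) (y₂ := (y ^ 3) ^ 9)
    (x₃ := (x ^ 3) ^ 3) (y₃ := -(y ^ 3) ^ 3) (by ring) ?_ ?_ ?_ ?_ ?_
  · rw [neg h3 hA e9] at s
    rw [neg_smul, tri h h3 hA (by ring) e y0, tri h h3 hA (by ring) e3 (pow_ne_zero 3 y0),
      ← neg_eq_zero, ← s]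
    abel
  all_goals
    rw [show y ^ 9 = (y ^ 3) ^ 3 by ring]
    try rw [show x ^ 9 = (x ^ 3) ^ 3 by ring]
    try rw [show (y ^ 3) ^ 9 = ((y ^ 3) ^ 3) ^ 3 by ring]
    try rw [show (x ^ 3) ^ 9 = ((x ^ 3) ^ 3) ^ 3 by ring]
    generalize (x ^ 3) ^ 3 = a at *
    generalize (y ^ 3) ^ 3 = b at *
    clear e e3
    grind

lemma two (h : S_COL) (h3 : (3 : K) = 0) (e : y ^ 2 = x ^ 3 + 2 * x + 2)
    (y0 : y ≠ 0) : (1 : ℤ) • pa ⟨0, 0, 0, 2, 2⟩ ((x ^ 3) ^ 3) ((y ^ 3) ^ 3)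
      - (3 : ℤ) • pa ⟨0, 0, 0, 2, 2⟩ (x ^ 3) (y ^ 3) + (3 : ℤ) • pa ⟨0, 0, 0, 2, 2⟩ x y = 0 := by
  have hA : (2 : K) ^ 2 = 1 := by linear_combination h3
  have hB : (2 : K) ^ 3 = 2 := by linear_combination 2 * h3
  have e3 : (y ^ 3) ^ 2 = (x ^ 3) ^ 3 + 2 * x ^ 3 + 2 := by grind
  have e9 : ((y ^ 3) ^ 3) ^ 2 = ((x ^ 3) ^ 3) ^ 3 + 2 * (x ^ 3) ^ 3 + 2 := by
    generalize x ^ 3 = a at *
    generalize y ^ 3 = b at *
    clear e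
    grind
  have s := sum (A := 2) (B := 2) h h3 hA (l := y ^ 9) (m := -y ^ 9 - y ^ 9 * (x ^ 9 + 2 - 2 * 2))
    (x₁ := x ^ 9 + 2 - 2 * 2) (y₁ := -y ^ 9) (x₂ := (x ^ 3) ^ 9 + 2 - 2 * 2) (y₂ := (y ^ 3) ^ 9)
    (x₃ := (x ^ 3) ^ 3) (y₃ := (y ^ 3) ^ 3) (by ring) ?_ ?_ ?_ ?_ ?_
  · rw [neg h3 hA ?_] at s
    · rw [tri h h3 hA hB e y0, tri h h3 hA hB e3 (pow_ne_zero 3 y0), ← s]
      abel
    · rw [show y ^ 9 = (y ^ 3) ^ 3 by ring, show x ^ 9 = (x ^ 3) ^ 3 by ring]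
      generalize (x ^ 3) ^ 3 = a at *
      generalize (y ^ 3) ^ 3 = b at *
      clear e e3 s
      grind
  all_goals
    rw [show y ^ 9 = (y ^ 3) ^ 3 by ring]
    try rw [show x ^ 9 = (x ^ 3) ^ 3 by ring]
    try rw [show (y ^ 3) ^ 9 = ((y ^ 3) ^ 3) ^ 3 by ring]
    try rw [show (x ^ 3) ^ 9 = ((x ^ 3) ^ 3) ^ 3 by ring]
    generalize (x ^ 3) ^ 3 = a at *
    generalize (y ^ 3) ^ 3 = b at *
    clear e e3
    grind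

/-- reduction to a statement over the field `K` -/
lemma red (a b : ℕ) (n : ℤ) (a' b' : ZMod 3) (ha : a' = a) (hb : b' = b)
    (H : ∀ (K : Type) [Field K] [DecidableEq K] (A B x y : K), A = a → B = b → (3 : K) = 0 →
      y ^ 2 = x ^ 3 + A * x + B → y ≠ 0 →
      (1 : ℤ) • pa ⟨0, 0, 0, A, B⟩ ((x ^ 3) ^ 3) ((y ^ 3) ^ 3)
      - n • pa ⟨0, 0, 0, A, B⟩ (x ^ 3) (y ^ 3) + (3 : ℤ) • pa ⟨0, 0, 0, A, B⟩ x y = 0) :
    FR 3 ⟨0, 0, 0, a', b'⟩ n 1 := by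
  intro K _ _ _ j x y tr hn
  have m : (⟨0, 0, 0, a', b'⟩ : WeierstrassCurve (ZMod 3)).map (ZMod.castHom (dvd_refl 3) K) =
      ⟨0, 0, 0, a, b⟩ := by
    simp only [WeierstrassCurve.map, map_zero, map_natCast, ha, hb]
  rw [m] at hn ⊢
  have e : y ^ 2 = x ^ 3 + a * x + b := by
    linear_combination (Affine.equation_iff x y).1 hn.1
  refine H K a b x y rfl rfl (CharP.cast_eq_zero K 3) e fun y0 =>
    tr (X ^ 3 + C (a : AlgebraicClosure (ZMod 3)) * X + C (b : AlgebraicClosure (ZMod 3)))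
      (fun q => ?_) ?_
  · have := congrArg (coeff · 3) q
    simp only [coeff_add, coeff_X_pow, coeff_C_mul, coeff_X, coeff_C, coeff_zero] at this
    norm_num at this
  · simp only [eval₂_add, eval₂_mul, eval₂_X_pow, eval₂_X, eval₂_C, map_natCast j]
    rw [← e, y0, zero_pow two_ne_zero]

end F3ax

open F3ax in
theorem f3a (h : S_COL) : S_F3a := by
  refine ⟨red 1 0 0 _ _ Nat.cast_one.symm Nat.cast_zero.symm fun K _ _ A B x y hA hB h3 e y0 => ?_,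
    red 2 0 0 _ _ Nat.cast_ofNat.symm Nat.cast_zero.symm fun K _ _ A B x y hA hB h3 e y0 => ?_,
    red 2 1 _ _ _ Nat.cast_ofNat.symm Nat.cast_one.symm fun K _ _ A B x y hA hB h3 e y0 => ?_,
    red 2 2 _ _ _ Nat.cast_ofNat.symm Nat.cast_ofNat.symm fun K _ _ A B x y hA hB h3 e y0 => ?_⟩
  · obtain rfl : B = 0 := hB.trans Nat.cast_zero
    exact zero h h3 (by rw [hA, Nat.cast_one, one_pow]) e y0
  · obtain rfl : B = 0 := hB.trans Nat.cast_zero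
    exact zero h h3 (by rw [hA, Nat.cast_ofNat]; linear_combination h3) e y0
  · obtain rfl : A = 2 := hA.trans Nat.cast_ofNat
    obtain rfl : B = 1 := hB.trans Nat.cast_one
    exact one h h3 e y0
  · obtain rfl : A = 2 := hA.trans Nat.cast_ofNat
    obtain rfl : B = 2 := hB.trans Nat.cast_ofNat
    exact two h h3 e y0

end Pool.Agent.MP_b2c033_nt.UH
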