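import Pool.Agent.MP_b2c033_nt.UH.Spec

/-! The Frobenius relation for the ordinary curves over the field with three elements. -/

namespace Pool.Agent.MP_b2c033_nt.UH

open Polynomial WeierstrassCurve

noncomputable section

namespace F3bx

variable {K : Type} [Field K]

/-- the curve `y ^ 2 = x ^ 3 + a x ^ 2 + b` -/
abbrev cv (a b : K) : WeierstrassCurve K := ⟨0, a, 0, 0, b⟩

theorem eqn (a b x y : K) : (cv a b).toAffine.Equation x y ↔ y ^ 2 = x ^ 3 + a * x ^ 2 + b := by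
  rw [Affine.equation_iff]
  simp

theorem ng {a b : K} (hΔ : (cv a b).Δ ≠ 0) {x y : K} (hy : y ^ 2 = x ^ 3 + a * x ^ 2 + b) :
    pa (cv a b) x (-y) = -pa (cv a b) x y := by
  have h1 : (cv a b).toAffine.Nonsingular x y :=
    (Affine.equation_iff_nonsingular_of_Δ_ne_zero hΔ).1 ((eqn a b x y).2 hy)
  have h2 : (cv a b).toAffine.Nonsingular x (-y) :=
    (Affine.equation_iff_nonsingular_of_Δ_ne_zero hΔ).1 ((eqn a b x (-y)).2 (by rw [← hy]; ring))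
  unfold pa
  rw [dif_pos h1, dif_pos h2, Affine.Point.neg_some]
  have h3 : -y = (cv a b).toAffine.negY x y := by simp [Affine.negY]
  simp only [h3]

variable [DecidableEq K]

/-- three points with a common denominator on a line -/
theorem sm (h : S_COL) {a b : K} (hΔ : (cv a b).Δ ≠ 0)
    (y f D l m r₁ r₂ r₃ s₁ s₂ s₃ : K) {x₁ y₁ x₂ y₂ x₃ y₃ : K} (hy : y ^ 2 = f) (hD : D ≠ 0)
    (a1 : x₁ * D ^ 2 = r₁) (a2 : x₂ * D ^ 2 = r₂) (a3 : x₃ * D ^ 2 = r₃)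
    (b1 : y₁ * D ^ 3 = y * s₁) (b2 : y₂ * D ^ 3 = y * s₂) (b3 : y₃ * D ^ 3 = y * s₃)
    (i1 : s₁ = l * r₁ + m) (i2 : s₂ = l * r₂ + m) (i3 : s₃ = l * r₃ + m)
    (e1 : r₁ + r₂ + r₃ = f * l ^ 2 - a * D ^ 2)
    (e2 : r₁ * r₂ + r₁ * r₃ + r₂ * r₃ = -2 * f * l * m)
    (e3 : r₁ * r₂ * r₃ = f * m ^ 2 - b * D ^ 6) :
    pa (cv a b) x₁ y₁ + pa (cv a b) x₂ y₂ + pa (cv a b) x₃ y₃ = 0 := by
  obtain ⟨u, hu⟩ : ∃ u, D * u = 1 := ⟨D⁻¹, mul_inv_cancel₀ hD⟩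
  have A : ∀ x r : K, x * D ^ 2 = r → x = r * u ^ 2 := fun x r e => by
    linear_combination u ^ 2 * e - x * (D * u + 1) * hu
  have B : ∀ z s : K, z * D ^ 3 = y * s → z = y * s * u ^ 3 := fun z s e => by
    linear_combination u ^ 3 * e - z * ((D * u) ^ 2 + D * u + 1) * hu
  have hC : Col (cv a b) (y * l * u) (y * m * u ^ 3) x₁ y₁ x₂ y₂ x₃ y₃ := by
    rw [A _ _ a1, A _ _ a2, A _ _ a3, B _ _ b1, B _ _ b2, B _ _ b3]
    refine ⟨by rw [i1]; ring, by rw [i2]; ring, by rw [i3]; ring, ?_, ?_, ?_⟩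
    · show _ = (y * l * u) ^ 2 + 0 * (y * l * u) - a
      linear_combination u ^ 2 * e1 - l ^ 2 * u ^ 2 * hy - a * (D * u + 1) * hu
    · show _ = 0 - 2 * (y * l * u) * (y * m * u ^ 3) - 0 * (y * m * u ^ 3) - 0 * (y * l * u)
      linear_combination u ^ 4 * e2 + 2 * l * m * u ^ 4 * hy
    · show _ = (y * m * u ^ 3) ^ 2 + 0 * (y * m * u ^ 3) - b
      linear_combination u ^ 6 * e3 - m ^ 2 * u ^ 6 * hy - b * ((D * u) ^ 5 + (D * u) ^ 4 +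
        (D * u) ^ 3 + (D * u) ^ 2 + D * u + 1) * hu
  obtain ⟨h1, h2, h3, c1, c2, c3⟩ := id hC
  generalize y * l * u = L at *
  generalize y * m * u ^ 3 = M at *
  have d1 : x₁ + x₂ + x₃ = L ^ 2 + 0 * L - a := c1
  have d2 : x₁ * x₂ + x₁ * x₃ + x₂ * x₃ = 0 - 2 * L * M - 0 * M - 0 * L := c2
  have d3 : x₁ * x₂ * x₃ = M ^ 2 + 0 * M - b := c3
  refine h.sum K _ L M _ _ _ _ _ _ ?_ ?_ ?_ hC <;>
    refine (Affine.equation_iff_nonsingular_of_Δ_ne_zero hΔ).1 ((eqn a b _ _).2 ?_)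
  · rw [h1]; linear_combination (-x₁ ^ 2) * d1 + x₁ * d2 - d3
  · rw [h2]; linear_combination (-x₂ ^ 2) * d1 + x₂ * d2 - d3
  · rw [h3]; linear_combination (-x₃ ^ 2) * d1 + x₃ * d2 - d3

/-- coordinates of `-2 P` -/
def dX (a b x : K) : K := (x ^ 4 + b * x - a * b) / (x ^ 3 + a * x ^ 2 + b)
def dY (a b x y : K) : K :=
  y * (a * x * (x ^ 4 + b * x - a * b) + (x ^ 3 + b) * (x ^ 3 + a * x ^ 2 + b)) /
    (x ^ 3 + a * x ^ 2 + b) ^ 2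
/-- the dual of Frobenius -/
def vX (a b x : K) : K := (x ^ 3 - a * b * x + b) / (x + b) ^ 2
def vY (a b x y : K) : K := y * (a * x ^ 3 + b * x + a * b - 1) / (x + b) ^ 3

variable [CharP K 3]

theorem dbl (h : S_COL) {a b : K} (hΔ : (cv a b).Δ ≠ 0) {x y : K}
    (hy : y ^ 2 = x ^ 3 + a * x ^ 2 + b) (hf : x ^ 3 + a * x ^ 2 + b ≠ 0) :
    pa (cv a b) x y + pa (cv a b) x y + pa (cv a b) (dX a b x) (dY a b x y) = 0 := by
  refine sm h hΔ y _ (x ^ 3 + a * x ^ 2 + b) (a * x) ((x ^ 3 + b) * (x ^ 3 + a * x ^ 2 + b) ^ 2)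
    _ _ ((x ^ 4 + b * x - a * b) * (x ^ 3 + a * x ^ 2 + b)) _ _
    ((a * x * (x ^ 4 + b * x - a * b) + (x ^ 3 + b) * (x ^ 3 + a * x ^ 2 + b)) *
      (x ^ 3 + a * x ^ 2 + b)) hy hf rfl rfl ?_ rfl rfl ?_ ?_ ?_ ?_ ?_ ?_ ?_
  · unfold dX; field_simp
  · unfold dY; field_simp
  all_goals grind

theorem tri (h : S_COL) {a b : K} (ha : a = 1 ∨ a = -1) (hb : b = 1 ∨ b = -1)
    (hΔ : (cv a b).Δ ≠ 0) {x y : K} (hy : y ^ 2 = x ^ 3 + a * x ^ 2 + b)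
    (hf : x ^ 3 + a * x ^ 2 + b ≠ 0) (hg : x ^ 3 + b ≠ 0) :
    pa (cv a b) x y + pa (cv a b) (dX a b x) (dY a b x (-y)) +
      pa (cv a b) (vX a b (x ^ 3)) (vY a b (x ^ 3) (-y ^ 3)) = 0 := by
  refine sm h hΔ y _ ((x ^ 3 + a * x ^ 2 + b) * (x ^ 3 + b))
    (-a * x ^ 6 + x ^ 5 + a * x ^ 4 + a * b * x ^ 3 + b * x ^ 2 - a * b * x - a)
    (((x ^ 3 + a * x ^ 2 + b) * (x ^ 3 + b)) ^ 2 *
      (a * x ^ 7 - a * b * x ^ 4 + b * x ^ 3 - a * b * x ^ 2 + a * x + 1))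
    _ ((x ^ 4 + b * x - a * b) * (x ^ 3 + a * x ^ 2 + b) * (x ^ 3 + b) ^ 2)
    (((x ^ 3) ^ 3 - a * b * x ^ 3 + b) * (x ^ 3 + a * x ^ 2 + b) ^ 2) _
    (-((a * x * (x ^ 4 + b * x - a * b) + (x ^ 3 + b) * (x ^ 3 + a * x ^ 2 + b)) *
      (x ^ 3 + a * x ^ 2 + b) * (x ^ 3 + b) ^ 3))
    (-((a * (x ^ 3) ^ 3 + b * x ^ 3 + a * b - 1) * (x ^ 3 + a * x ^ 2 + b) ^ 4))
    hy (mul_ne_zero hf hg) rfl ?_ ?_ rfl ?_ ?_ ?_ ?_ ?_ ?_ ?_ ?_
  · unfold dX; field_simp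
  · unfold vX; field_simp
  · unfold dY; field_simp
  · unfold vY
    rw [show y ^ 3 = y * (x ^ 3 + a * x ^ 2 + b) by rw [← hy]; ring]
    field_simp
  all_goals
    clear hy hf hg hΔ
    rcases ha with rfl | rfl <;> rcases hb with rfl | rfl <;> grind

theorem fro1 (h : S_COL) {a b : K} (ha : a = 1 ∧ b = -1 ∨ a = -1 ∧ b = 1)
    (hΔ : (cv a b).Δ ≠ 0) {x y : K} (hy : y ^ 2 = x ^ 3 + a * x ^ 2 + b) (hg : x + b ≠ 0) :
    pa (cv a b) (x ^ 3) (y ^ 3) + pa (cv a b) (vX a b x) (vY a b x y) +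
      pa (cv a b) x (-a * y) = 0 := by
  refine sm h hΔ y _ (x + b) x ((x + b) ^ 2 * (-x ^ 2 - a * x + 1))
    _ (x ^ 3 - a * b * x + b) _ ((x ^ 3 + a * x ^ 2 + b) * (x + b) ^ 3)
    (a * x ^ 3 + b * x + a * b - 1) (-a * (x + b) ^ 3) hy hg rfl ?_ rfl ?_ ?_ ?_ ?_ ?_ ?_ ?_ ?_ ?_
  · unfold vX; field_simp
  · rw [← hy]; ring
  · unfold vY; field_simp
  · ring
  all_goals
    clear hy hg hΔ
    rcases ha with ⟨rfl, rfl⟩ | ⟨rfl, rfl⟩ <;> grind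

theorem fro2 (h : S_COL) {a : K} (ha : a = 1 ∨ a = -1)
    (hΔ : (cv a a).Δ ≠ 0) {x y : K} (hy : y ^ 2 = x ^ 3 + a * x ^ 2 + a)
    (hf : x ^ 3 + a * x ^ 2 + a ≠ 0) (hg : x + a ≠ 0) :
    pa (cv a a) (x ^ 3) (y ^ 3) + pa (cv a a) (vX a a x) (vY a a x y) +
      pa (cv a a) (dX a a x) (dY a a x (-a * y)) = 0 := by
  refine sm h hΔ y _ ((x ^ 3 + a * x ^ 2 + a) * (x + a)) (x ^ 4 + x ^ 2 - 1)
    (((x ^ 3 + a * x ^ 2 + a) * (x + a)) ^ 2 * (-x ^ 5 - x ^ 3 - a * x ^ 2 + x + a))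
    _ ((x ^ 3 - a * a * x + a) * (x ^ 3 + a * x ^ 2 + a) ^ 2)
    ((x ^ 4 + a * x - a * a) * (x ^ 3 + a * x ^ 2 + a) * (x + a) ^ 2)
    ((x ^ 3 + a * x ^ 2 + a) * ((x ^ 3 + a * x ^ 2 + a) * (x + a)) ^ 3)
    ((a * x ^ 3 + a * x + a * a - 1) * (x ^ 3 + a * x ^ 2 + a) ^ 3)
    (-a * ((a * x * (x ^ 4 + a * x - a * a) + (x ^ 3 + a) * (x ^ 3 + a * x ^ 2 + a)) *
      (x ^ 3 + a * x ^ 2 + a) * (x + a) ^ 3))
    hy (mul_ne_zero hf hg) rfl ?_ ?_ ?_ ?_ ?_ ?_ ?_ ?_ ?_ ?_ ?_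
  · unfold vX; field_simp
  · unfold dX; field_simp
  · rw [← hy]; ring
  · unfold vY; field_simp
  · unfold dY; field_simp
  all_goals
    clear hy hf hg hΔ
    rcases ha with rfl | rfl <;> grind

omit [DecidableEq K] in
theorem disc {a b : K} (ha : a = 1 ∨ a = -1) (hb : b = 1 ∨ b = -1) : (cv a b).Δ ≠ 0 := by
  have : (cv a b).Δ = -(a ^ 3 * b) := by
    simp only [WeierstrassCurve.Δ, b₂, b₄, b₆, b₈]
    grind
  rw [this]
  rcases ha with rfl | rfl <;> rcases hb with rfl | rfl <;> simp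

omit [DecidableEq K] in
theorem cube {a b : K} (ha : a = 1 ∨ a = -1) (hb : b = 1 ∨ b = -1) {x y : K}
    (hy : y ^ 2 = x ^ 3 + a * x ^ 2 + b) : (y ^ 3) ^ 2 = (x ^ 3) ^ 3 + a * (x ^ 3) ^ 2 + b := by
  rw [show (y ^ 3) ^ 2 = (y ^ 2) ^ 3 by ring, hy]
  clear hy
  rcases ha with rfl | rfl <;> rcases hb with rfl | rfl <;> grind

/-- `-3 P` through the dual of Frobenius -/
theorem three (h : S_COL) {a b : K} (ha : a = 1 ∨ a = -1) (hb : b = 1 ∨ b = -1) {x y : K}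
    (hy : y ^ 2 = x ^ 3 + a * x ^ 2 + b) (hf : x ^ 3 + a * x ^ 2 + b ≠ 0) (hg : x ^ 3 + b ≠ 0) :
    pa (cv a b) (vX a b (x ^ 3)) (vY a b (x ^ 3) (-y ^ 3)) = -((3 : ℤ) • pa (cv a b) x y) := by
  have hΔ := disc ha hb
  have h1 := tri h ha hb hΔ hy hf hg
  have h2 := dbl h hΔ (y := -y) (by rw [← hy]; ring) hf
  rw [ng hΔ hy] at h2
  linear_combination (norm := module) h1 - h2

theorem rel1 (h : S_COL) {a b : K} (hab : a = 1 ∧ b = -1 ∨ a = -1 ∧ b = 1) {x y : K}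
    (hy : y ^ 2 = x ^ 3 + a * x ^ 2 + b) (hf : x ^ 3 + a * x ^ 2 + b ≠ 0) (hg : x ^ 3 + b ≠ 0) :
    pa (cv a b) ((x ^ 3) ^ 3) ((y ^ 3) ^ 3) - pa (cv a b) (x ^ 3) (a * y ^ 3) +
      (3 : ℤ) • pa (cv a b) x y = 0 := by
  have ha : a = 1 ∨ a = -1 := hab.imp And.left And.left
  have hb : b = 1 ∨ b = -1 := (hab.imp And.right And.right).symm
  have hΔ := disc ha hb
  have hy3 := cube ha hb hy
  have h1 := fro1 h hab hΔ (x := x ^ 3) (y := -y ^ 3) (by rw [← hy3]; ring) hg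
  rw [three h ha hb hy hf hg, show (-y ^ 3) ^ 3 = -(y ^ 3) ^ 3 by ring, ng hΔ (cube ha hb hy3),
    neg_mul_neg] at h1
  linear_combination (norm := module) -h1

theorem rel2 (h : S_COL) {a : K} (ha : a = 1 ∨ a = -1) {x y : K}
    (hy : y ^ 2 = x ^ 3 + a * x ^ 2 + a) (hf : x ^ 3 + a * x ^ 2 + a ≠ 0) (hg : x ^ 3 + a ≠ 0) :
    pa (cv a a) ((x ^ 3) ^ 3) ((y ^ 3) ^ 3) + (2 : ℤ) • pa (cv a a) (x ^ 3) (a * y ^ 3) +
      (3 : ℤ) • pa (cv a a) x y = 0 := by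
  have hΔ := disc ha ha
  have hy3 := cube ha ha hy
  have hf3 : (x ^ 3) ^ 3 + a * (x ^ 3) ^ 2 + a ≠ 0 := by
    rw [← hy3, show (y ^ 3) ^ 2 = (y ^ 2) ^ 3 by ring, hy]
    exact pow_ne_zero 3 hf
  have h1 := fro2 h ha hΔ (x := x ^ 3) (y := -y ^ 3) (by rw [← hy3]; ring) hf3 hg
  rw [three h ha ha hy hf hg, show (-y ^ 3) ^ 3 = -(y ^ 3) ^ 3 by ring, ng hΔ (cube ha ha hy3),
    neg_mul_neg] at h1
  have h2 := dbl h hΔ (x := x ^ 3) (y := a * y ^ 3)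
    (by rw [← hy3]; rcases ha with rfl | rfl <;> ring) hf3
  linear_combination (norm := module) h2 - h1

omit [DecidableEq K] [CharP K 3] in
theorem trans {k : Type} [Field k] (j : k →+* K) {x : K}
    (hx : ∀ f : k[X], f ≠ 0 → f.eval₂ j x ≠ 0) (a b : ℤ) : x ^ 3 + a * x ^ 2 + b ≠ 0 := by
  have hm : (X ^ 3 + C (a : k) * X ^ 2 + C (b : k) : k[X]).Monic := by monicity!
  have := hx _ hm.ne_zero
  simp only [eval₂_add, eval₂_mul, eval₂_C, eval₂_X_pow] at this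
  simpa only [map_intCast] using this

omit [DecidableEq K] in
theorem mp (a' b' : ZMod 3) (a b : K) (ha : ZMod.castHom (dvd_refl 3) K a' = a)
    (hb : ZMod.castHom (dvd_refl 3) K b' = b) :
    (⟨0, a', 0, 0, b'⟩ : WeierstrassCurve (ZMod 3)).map (ZMod.castHom (dvd_refl 3) K) =
      cv a b := by
  subst ha hb
  ext <;> simp only [map_a₁, map_a₂, map_a₃, map_a₄, map_a₆, map_zero]

omit [DecidableEq K] in
theorem c2 : ZMod.castHom (dvd_refl 3) K 2 = -1 := by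
  rw [show (2 : ZMod 3) = -1 from rfl, map_neg, map_one]

end F3bx

open F3bx in
theorem f3b (h : S_COL) : S_F3b := by
  refine ⟨?_, ?_, ?_, ?_⟩ <;> intro K _ _ _ j x y hx hn
  · rw [mp 1 1 1 1 (map_one _) (map_one _)] at hn ⊢
    have hf := trans j hx 1 1
    have hg := trans j hx 0 1
    push_cast at hf hg
    rw [zero_mul, add_zero] at hg
    have := rel2 h (Or.inl rfl) ((eqn _ _ _ _).1 hn.1) hf hg
    rw [one_mul] at this
    linear_combination (norm := module) this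
  · rw [mp 1 2 1 (-1) (map_one _) c2] at hn ⊢
    have hf := trans j hx 1 (-1)
    have hg := trans j hx 0 (-1)
    push_cast at hf hg
    rw [zero_mul, add_zero] at hg
    have := rel1 h (Or.inl ⟨rfl, rfl⟩) ((eqn _ _ _ _).1 hn.1) hf hg
    rw [one_mul] at this
    linear_combination (norm := module) this
  · rw [mp 2 1 (-1) 1 c2 (map_one _)] at hn ⊢
    have hf := trans j hx (-1) 1
    have hg := trans j hx 0 1
    push_cast at hf hg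
    rw [zero_mul, add_zero] at hg
    have hy := (eqn _ _ _ _).1 hn.1
    have := rel1 h (Or.inr ⟨rfl, rfl⟩) hy hf hg
    rw [neg_one_mul, ng (disc (Or.inr rfl) (Or.inl rfl))
      (cube (Or.inr rfl) (Or.inl rfl) hy)] at this
    linear_combination (norm := module) this
  · rw [mp 2 2 (-1) (-1) c2 c2] at hn ⊢
    have hf := trans j hx (-1) (-1)
    have hg := trans j hx 0 (-1)
    push_cast at hf hg
    rw [zero_mul, add_zero] at hg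
    have hy := (eqn _ _ _ _).1 hn.1
    have := rel2 h (Or.inr rfl) hy hf hg
    rw [neg_one_mul, ng (disc (Or.inr rfl) (Or.inr rfl))
      (cube (Or.inr rfl) (Or.inr rfl) hy)] at this
    linear_combination (norm := module) this

end

end Pool.Agent.MP_b2c033_nt.UH
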