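import Pool.Agent.MP_b2c033_nt.UH.Spec
import Pool.Agent.MP_c481b3_nt.H81.Frob

/-! The characteristic equation of Frobenius for a short Weierstrass equation. -/

set_option autoImplicit false

namespace Pool.Agent.MP_b2c033_nt.UH

open Polynomial WeierstrassCurve Pool.Agent.MP_c481b3_nt.H81

namespace F5x

theorem quad {G : Type*} [AddCommGroup G] (q : G → ℤ)
    (par : ∀ x y, q (x + y) + q (x - y) = 2 * q x + 2 * q y) :
    ∃ b : G →+ G →+ ℤ, (∀ x y, b x y = b y x) ∧ ∀ x, b x x = 2 * q x := by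
  have h0 : q 0 = 0 := by have := par 0 0; rw [add_zero, sub_zero] at this; omega
  have h3 : ∀ x y z, q (x + (y + z)) - q x - q (y + z) =
      q (x + y) - q x - q y + (q (x + z) - q x - q z) := fun x y z => by
    have a := par (x + y) z
    have b := par (x + z) y
    have c := par x (y - z)
    have d := par y z
    rw [add_assoc, add_sub_assoc] at a
    rw [add_assoc, add_comm z, show x + z - y = x - (y - z) by abel] at b
    omega
  refine ⟨AddMonoidHom.mk' (fun x => AddMonoidHom.mk' (fun y => q (x + y) - q x - q y) (h3 x))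
    fun x y => AddMonoidHom.ext fun z => ?_, fun x y => ?_, fun x => ?_⟩
  · have := h3 z x y
    rw [add_comm z, add_comm z, add_comm z] at this
    show q (x + y + z) - q (x + y) - q z = q (x + z) - q x - q z + (q (y + z) - q y - q z)
    omega
  · show q (x + y) - q x - q y = q (y + x) - q y - q x
    rw [add_comm x]; omega
  · have := par x x
    rw [sub_self] at this
    show q (x + x) - q x - q x = _
    omega

theorem arith {G : Type*} [AddCommGroup G] (q : G → ℤ)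
    (par : ∀ x y, q (x + y) + q (x - y) = 2 * q x + 2 * q y) {x y z : G} {p a : ℤ} (hp : 0 ≤ p)
    (hx : q x = p ^ 2) (hy : q y = p) (hz : q z = 1) (h1 : q (y - z) = p + 1 - a)
    (h2 : q (x - y) = p * (p + 1 - a)) (h3 : q (x - y - (y - z)) ≤ (p + 1 - a) ^ 2) :
    q (x - a • y + p • z) ≤ 0 := by
  obtain ⟨b, s, d⟩ := quad q par
  have e1 := d (y - z)
  have e2 := d (x - y)
  have e3 := d (x - y - (y - z))
  have e4 := d (x - a • y + p • z)
  simp only [map_sub, map_add, map_zsmul, AddMonoidHom.sub_apply, AddMonoidHom.add_apply,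
    AddMonoidHom.smul_apply, smul_eq_mul, d x, d y, d z, s y x, s z x, s z y, hx, hy, hz, h1,
    h2] at e1 e2 e3 e4
  have f1 : b y z = a := by linarith
  have f2 : b x y = p * a := by linarith
  rw [f1, f2] at e3 e4
  have f3 : b x z ≤ a ^ 2 - 2 * p := by nlinarith
  nlinarith [mul_le_mul_of_nonneg_left f3 hp]

variable {k : Type*} [Field k] {A B : k}

theorem deg_pow (r : RatFunc k) (n : ℕ) : (r ^ n).num.natDegree = n * r.num.natDegree := by
  by_cases h : r = 0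
  · rcases n with _ | n <;> simp [h]
  have e : (r ^ n).num * r.denom ^ n = r.num ^ n * (r ^ n).denom := by
    apply ap_inj
    simp only [map_mul, map_pow, num_eq]
    ring
  rw [← natDegree_pow]
  exact le_antisymm (natDegree_le_of_dvd ((r ^ n).isCoprime_num_denom.dvd_of_dvd_mul_right
    ⟨_, e.symm⟩) (pow_ne_zero n (RatFunc.num_ne_zero h))) (natDegree_le_of_dvd
      (r.isCoprime_num_denom.pow.dvd_of_dvd_mul_right ⟨_, e⟩)
      (RatFunc.num_ne_zero (pow_ne_zero n h)))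

variable [DecidableEq (RatFunc k)]

theorem cc_sub {h g : Tw A B} (hh : h ∈ Hinf A B) (hg : g ∈ Hinf A B) :
    cc (h - g) = cc h - cc g := by simpa using cc_sub_zsmul hh hg 1

variable (p : ℕ) [Fact p.Prime] [CharP k p]

theorem twist (hG : Good A B) (hA : A ^ p = A) (hB : B ^ p = B) {m : ℕ} (hm : p = 2 * m + 1) :
    ∃ Ψ : Tw A B →+ Tw A B, (∀ h, h ≠ 0 → Ψ h ≠ 0) ∧ (∀ h, Rr (Ψ h) = Rr h ^ p) ∧
      ∀ h, Ss (Ψ h) = Ss h ^ p * ff A B ^ m := by
  have hf := ff_ne (A := A) (B := B)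
  let s : Sc (RatFunc.C A * ff A B ^ 2) (RatFunc.C B * ff A B ^ 3) (RatFunc.C A * ff A B ^ 2)
      (RatFunc.C B * ff A B ^ 3) := ⟨frobenius _ p, ff A B ^ m, pow_ne_zero _ hf,
    by rw [frobenius_def, mul_pow, ← map_pow, hA, hm]; ring,
    by rw [frobenius_def, mul_pow, ← map_pow, hB, hm]; ring, hG.tw⟩
  have e : ff A B ^ p = (ff A B ^ m) ^ 2 * ff A B := by rw [hm]; ring
  refine ⟨s.map, fun h => s.map_ne, fun h => ?_, fun h => ?_⟩
  · rw [Rr, s.xc_map, Rr, div_pow, e, div_div]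
    rfl
  · rw [Ss, s.yc_map, Ss, div_pow, pow_right_comm (ff A B) 2 p, e]
    show yc h ^ p / (ff A B ^ m) ^ 3 / _ = _
    field_simp

variable [DecidableEq k] [DecidableEq (LL k)]

theorem pack (hG : Good A B) (n : ℕ) (hn : n ≠ 0) (hA : A ^ p ^ n = A) (hB : B ^ p ^ n = B) {m : ℕ}
    (hm : p ^ n = 2 * m + 1) {g : Tw A B} (g0 : g ≠ 0) (gR : Rr g = RatFunc.X ^ p ^ n)
    (gS : Ss g = ff A B ^ m) : g ∈ Hinf A B ∧ cc g = 0 ∧ dg g = p ^ n ∧ ∃ φ ψ, Ind hG g φ ψ ∧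
      (∀ P, xc (φ P) = xc P ^ p ^ n) ∧ (∀ P, yc (φ P) = yc P ^ p ^ n) ∧ ∀ P, P ≠ 0 → φ P ≠ 0 := by
  have q1 : 1 < p ^ n := Nat.one_lt_pow hn (Fact.out : p.Prime).one_lt
  have q0 : ((p ^ n : ℕ) : k) = 0 := by simp [hn]
  have hA' : (cL A) ^ p ^ n = cL A := by rw [← map_pow, hA]
  have hB' : (cL B) ^ p ^ n = cL B := by rw [← map_pow, hB]
  set φ := (Sc.ofHom (iterateFrobenius k p n) hA hB hG).map with hφ
  set ψ := (Sc.ofHom (iterateFrobenius (LL k) p n) hA' hB' (hG.map cL)).map with hψ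
  have x1 : ∀ P, xc (φ P) = xc P ^ p ^ n := xc_ofHom _ _ _ _
  have y1 : ∀ P, yc (φ P) = yc P ^ p ^ n := yc_ofHom _ _ _ _
  have x2 : ∀ P, xc (ψ P) = xc P ^ p ^ n := xc_ofHom _ _ _ _
  have y2 : ∀ P, yc (ψ P) = yc P ^ p ^ n := yc_ofHom _ _ _ _
  have n1 : ∀ {P}, P ≠ 0 → φ P ≠ 0 := Sc.map_ne _
  have n2 : ∀ {P}, P ≠ 0 → ψ P ≠ 0 := Sc.map_ne _
  refine ⟨Or.inr (by rw [gR, map_pow]; exact one_lt_pow₀ one_lt_vi_X (by omega)), ?_, ?_, φ, ψ,
    ⟨fun P => ?_, fun a => ?_, fun π x0 a Q => ?_⟩, x1, y1, fun _ => n1⟩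
  · rw [cc, gR, ← RatFunc.algebraMap_X, ← map_pow, DD_ap, derivative_X_pow, q0]; simp
  · rw [dg, gR, ← RatFunc.algebraMap_X, ← map_pow, RatFunc.num_algebraMap, natDegree_X_pow]
  · by_cases hP : P = 0
    · simp [hP]
    exact pt_ext (n2 (io_ne hG hP)) (io_ne hG (n1 hP)) (by rw [x2, xc_io, xc_io, x1, map_pow])
      (by rw [y2, yc_io, yc_io, y1, map_pow])
  · exact pt_ext (n2 (a.pt_ne hG)) (a.ev_ne hG g0) (by rw [x2, a.xc_pt, a.xc_ev, gR, map_pow])
      (by rw [y2, a.yc_pt, a.yc_ev, gS, map_pow, ← a.hη, ← pow_mul, ← pow_succ', hm])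
  · by_cases hQ : Q = 0
    · simp [hQ]
    by_cases hx : xc Q ∈ π.O
    · have hx' : xc (ψ Q) ∈ π.O := by rw [x2]; exact pow_mem hx _
      exact pt_ext (Rd.red_ne _ (n2 hQ) hx') (n1 (Rd.red_ne _ hQ hx))
        (by rw [Rd.xc_red _ (n2 hQ) hx', x1, Rd.xc_red _ hQ hx, x2, π.ev_pow hx])
        (by rw [Rd.yc_red _ (n2 hQ) hx', y1, Rd.yc_red _ hQ hx, y2,
          π.ev_pow ((a.rd hG).y_mem hx)])
    · rw [Rd.red_of_not _ hx, map_zero, Rd.red_of_not]
      rw [x2]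
      exact fun h => hx (π.mem_of_pow (by omega) h)

theorem rel [IsAlgClosed k] (hG : Good A B) (h3 : (3 : k) ≠ 0) (hA : A ^ p = A) (hB : B ^ p = B)
    {m : ℕ} (hm : p = 2 * m + 1) {a : ℤ}
    (ha : (Nat.card {P : Pt A B // xc P ^ p = xc P ∧ yc P ^ p = yc P} : ℤ) = p + 1 - a) :
    ∃ g g' : Tw A B, g ≠ 0 ∧ g' ≠ 0 ∧ Rr g = RatFunc.X ^ p ∧ Ss g = ff A B ^ m ∧
      Rr g' = Rr g ^ p ∧ Ss g' = Ss g ^ p * ff A B ^ m ∧ g' - a • g + (p : ℤ) • g1 A B = 0 := by
  obtain ⟨Ψ, s0, s1, s2⟩ := twist p hG hA hB hm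
  obtain ⟨e0, eR, eS⟩ := g1_spec hG
  have gR : Rr (Ψ (g1 A B)) = RatFunc.X ^ p := by rw [s1, eR]
  have gS : Ss (Ψ (g1 A B)) = ff A B ^ m := by rw [s2, eS, one_pow, one_mul]
  obtain ⟨m1, c1, d1, φ, ψ, i1, x1, y1, n1⟩ := pack p hG 1 one_ne_zero (by rwa [pow_one])
    (by rwa [pow_one]) (by rwa [pow_one]) (s0 _ e0) (by rwa [pow_one]) gS
  obtain ⟨m2, c2, d2, φ', ψ', i2, x2, y2, n2⟩ := pack p hG 2 two_ne_zero
    (by rw [sq, pow_mul, hA, hA]) (by rw [sq, pow_mul, hB, hB]) (m := m * p + m)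
    (by rw [hm]; ring) (s0 _ (s0 _ e0)) (by rw [s1, gR, sq, pow_mul])
    (by rw [s2, gS, ← pow_mul, pow_add])
  simp only [pow_one] at x1 y1 d1
  have m0 := g1_mem hG
  have i0 := Ind.zsmul hG 1
  rw [one_smul, one_smul] at i0
  obtain ⟨C, a1, a2, -⟩ := (i1.sub i0).kernel (sub_mem m1 m0) (neg_ne_zero.2 one_ne_zero)
    (by rw [cc_sub m1 m0, c1, cc_g1 hG]; simp) h3
  obtain ⟨D, b1, b2, -⟩ := ((i2.sub i1).sub (i1.sub i0)).kernel
    (sub_mem (sub_mem m2 m1) (sub_mem m1 m0)) one_ne_zero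
    (by rw [cc_sub (sub_mem m2 m1) (sub_mem m1 m0), cc_sub m2 m1, cc_sub m1 m0, c1, c2, cc_g1 hG]
        simp) h3
  simp only [AddMonoidHom.sub_apply, AddMonoidHom.id_apply] at a1 b1
  have hc : Nat.card {P : Pt A B // xc P ^ p = xc P ∧ yc P ^ p = yc P} = C.card := by
    refine Nat.subtype_card C fun P => ?_
    rw [a1, sub_eq_zero]
    refine ⟨fun h => by rw [← x1, ← y1, h]; exact ⟨rfl, rfl⟩, fun h => ?_⟩
    by_cases hP : P = 0
    · simp [hP]
    exact pt_ext (n1 P hP) hP (by rw [x1, h.1]) (by rw [y1, h.2])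
  have sq2 : ∀ P, φ' P = φ (φ P) := fun P => by
    by_cases hP : P = 0
    · simp [hP]
    exact pt_ext (n2 P hP) (n1 _ (n1 P hP)) (by rw [x2, x1, x1, sq, pow_mul])
      (by rw [y2, y1, y1, sq, pow_mul])
  have le : D.card ≤ C.card * C.card := by
    refine Finset.card_le_mul_card_image_of_maps_to (f := fun P => φ P - P)
      (fun P hP => (a1 _).2 (by rw [map_sub, ← sq2]; exact (b1 P).1 hP)) _ fun Q _ => ?_
    rcases (D.filter fun P => φ P - P = Q).eq_empty_or_nonempty with h | ⟨P₀, h⟩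
    · simp [h]
    refine Finset.card_le_card_of_injOn (· - P₀) (fun P hP => Finset.mem_coe.2 ((a1 _).2 ?_))
      fun _ _ _ _ e => sub_left_injective e
    rw [map_sub, sub_sub_sub_comm, (Finset.mem_filter.1 (Finset.mem_coe.1 hP)).2,
      (Finset.mem_filter.1 h).2, sub_self]
  rw [hc, a2] at ha
  have h2 : dg (Ψ (Ψ (g1 A B)) - Ψ (g1 A B)) = p * dg (Ψ (g1 A B) - g1 A B) := by
    rw [← map_sub, dg, s1, deg_pow, dg]
  have key := arith (G := Hinf A B) (fun h => (dg h.1 : ℤ))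
    (fun h g => by exact_mod_cast dg_par hG h.2 g.2) (x := ⟨_, m2⟩) (y := ⟨_, m1⟩) (z := ⟨_, m0⟩)
    (p := p) (a := a) (by positivity) (by exact_mod_cast d2) (by exact_mod_cast d1)
    (by exact_mod_cast dg_g1 hG) ha (by rw [← ha]; exact_mod_cast h2)
    (by rw [← ha, ← a2]; rw [b2, ← sq] at le; exact_mod_cast le)
  refine ⟨_, _, s0 _ e0, s0 _ (s0 _ e0), gR, gS, s1 _, s2 _, by_contra fun h => ?_⟩
  have := Hinf.deg_lt (add_mem (sub_mem m2 (zsmul_mem m1 a)) (zsmul_mem m0 p)) h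
  have k2 : (dg (Ψ (Ψ (g1 A B)) - a • Ψ (g1 A B) + (p : ℤ) • g1 A B) : ℤ) ≤ 0 := key
  rw [dg] at k2
  omega

end F5x

open F5x

theorem f5 : S_F5 := by
  intro p _ A B h5 hD K _ _ _ j x y hx hn
  classical
  have hp : p.Prime := Fact.out
  let k := AlgebraicClosure (ZMod p)
  let i := algebraMap (ZMod p) k
  have hi : Function.Injective i := i.injective
  have G0 : Good A B := good_of_ne hD
  have hG : Good (i A) (i B) := G0.map i
  have fx : ∀ a : ZMod p, i a ^ p = i a := fun a => by rw [← map_pow, ZMod.pow_card]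
  have h3 : (3 : k) ≠ 0 := fun h => by
    have := Nat.le_of_dvd (by norm_num) ((CharP.cast_eq_zero_iff k p 3).1 (by exact_mod_cast h))
    omega
  obtain ⟨m, hm⟩ := hp.odd_of_ne_two (by omega)
  have fix : ∀ {z : k}, z ^ p = z → ∃ a, i a = z := fun h =>
    (bot_le : ⊥ ≤ i.fieldRange) ((Subfield.mem_bot_iff_pow_eq_self k p).2 h)
  let T := Finset.univ.filter fun v : ZMod p × ZMod p => v.2 ^ 2 = v.1 ^ 3 + A * v.1 + B
  have hT : cnt (⟨0, 0, 0, A, B⟩ : WeierstrassCurve (ZMod p)) = T.card :=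
    Nat.subtype_card _ fun v => by
      rw [Finset.mem_filter]
      exact ⟨fun h => (eqn_iff _ _).2 h.2, fun h => ⟨Finset.mem_univ _, (eqn_iff _ _).1 h⟩⟩
  have eq : ∀ v ∈ T, i v.2 ^ 2 = i v.1 ^ 3 + i A * i v.1 + i B := fun v hv => by
    simpa using congrArg i (Finset.mem_filter.1 hv).2
  have hN : Nat.card {P : Pt (i A) (i B) // xc P ^ p = xc P ∧ yc P ^ p = yc P} = T.card + 1 := by
    have inj : Set.InjOn (fun v : ZMod p × ZMod p => pt (i A) (i B) (i v.1) (i v.2)) T :=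
      fun v hv w hw e => Prod.ext
        (hi (by simpa [xc_pt hG (eq v hv), xc_pt hG (eq w hw)] using congrArg xc e))
        (hi (by simpa [yc_pt hG (eq v hv), yc_pt hG (eq w hw)] using congrArg yc e))
    rw [← Finset.card_image_of_injOn inj, ← Finset.card_insert_of_notMem (a := 0) (by
      simp only [Finset.mem_image, not_exists, not_and]
      exact fun v hv => pt_ne hG (eq v hv))]
    refine Nat.subtype_card _ fun P => ?_
    simp only [Finset.mem_insert, Finset.mem_image]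
    constructor
    · rintro (rfl | ⟨v, hv, rfl⟩)
      · simp [hp.ne_zero]
      · rw [xc_pt hG (eq v hv), yc_pt hG (eq v hv)]
        exact ⟨fx _, fx _⟩
    · rintro ⟨hx, hy⟩
      by_cases hP : P = 0
      · exact Or.inl hP
      obtain ⟨a, ha⟩ := fix hx
      obtain ⟨b, hb⟩ := fix hy
      refine Or.inr ⟨(a, b), Finset.mem_filter.2 ⟨Finset.mem_univ _, hi ?_⟩, ?_⟩
      · simpa [ha, hb] using eqn hP
      · simp only [ha, hb]
        exact pt_self hP
  obtain ⟨g, g', g0, g0', r1, s1, r2, s2, h⟩ := rel p hG h3 (fx A) (fx B) hm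
    (a := p - cnt (⟨0, 0, 0, A, B⟩ : WeierstrassCurve (ZMod p))) (by rw [hN, hT]; push_cast; ring)
  obtain ⟨e0, r0, s0⟩ := g1_spec hG
  set c := ZMod.castHom (dvd_refl p) K
  have e : (⟨0, 0, 0, A, B⟩ : WeierstrassCurve (ZMod p)).map c = Wc (c A) (c B) := by
    simp [WeierstrassCurve.map, Wc]
  rw [e] at hn ⊢
  have ji : ∀ a, j (i a) = c a := fun a => RingHom.congr_fun (RingHom.ext_zmod (j.comp i) c) a
  have q : y ^ 2 = x ^ 3 + c A * x + c B := (eqn_iff _ _).1 hn.1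
  let σ : RatFunc k →+* K := IsFractionRing.lift (g := eval₂RingHom j x)
    ((injective_iff_map_eq_zero _).2 fun f hf => by_contra fun h => hx f h hf)
  have σ1 : ∀ f, σ (ap f) = f.eval₂ j x := fun f => IsFractionRing.lift_algebraMap _ f
  have σX : σ RatFunc.X = x := by simpa using σ1 X
  have σC : ∀ a, σ (RatFunc.C (i a)) = c a := fun a => by simpa [ji] using σ1 (C (i a))
  have σf : σ (ff (i A) (i B)) = y ^ 2 := by simp [ff, σX, σC, q]
  have y0 : y ≠ 0 := fun h => (map_ne_zero σ).2 ff_ne (by rw [σf, h, zero_pow two_ne_zero])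
  let s : Sc (RatFunc.C (i A) * ff (i A) (i B) ^ 2) (RatFunc.C (i B) * ff (i A) (i B) ^ 3) (c A)
      (c B) := ⟨σ, y, y0, by rw [map_mul, map_pow, σf, σC]; ring,
    by rw [map_mul, map_pow, σf, σC]; ring, G0.map c⟩
  have ev : ∀ {h : Tw (i A) (i B)}, h ≠ 0 →
      s.map h = pa (Wc (c A) (c B)) (σ (Rr h)) (y * σ (Ss h)) := fun {h} h0 => by
    rw [s.map_of_ne h0, Rr, Ss, map_div₀, map_div₀, map_pow, σf,
      show y * (σ (yc h) / (y ^ 2) ^ 2) = σ (yc h) / y ^ 3 by field_simp]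
    rfl
  have yp : y * (y ^ 2) ^ m = y ^ p := by rw [hm]; ring
  have := congrArg s.map h
  rw [map_add, map_sub, map_zsmul, map_zsmul, map_zero, ev g0, ev g0', ev e0, r2, s2, r1, s1, r0,
    s0] at this
  simp only [map_mul, map_pow, map_one, σX, σf, mul_one] at this
  rw [mul_left_comm, yp, ← mul_pow, mul_comm _ y, yp] at this
  rwa [one_smul]

end Pool.Agent.MP_b2c033_nt.UH
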