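import Pool.Agent.MP_b2c033_nt.UH.Spec

/-! Row FC: the number of points on a singular cubic. -/

set_option autoImplicit false

namespace Pool.Agent.MP_b2c033_nt.UH

open WeierstrassCurve

namespace FCx

theorem eqn {F : Type} [Field F] (a b x y : F) :
    (⟨a, b, 0, 0, 0⟩ : WeierstrassCurve F).toAffine.Equation x y ↔
      y ^ 2 + a * x * y = x ^ 3 + b * x ^ 2 := by
  rw [Affine.equation_iff]
  simp

theorem card_pts {F : Type} [Field F] [Finite F] (a b : F) :
    Nat.card {v : F × F // (⟨a, b, 0, 0, 0⟩ : WeierstrassCurve F).toAffine.Equation v.1 v.2} =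
      Nat.card {m : F // ¬(m ^ 2 + a * m - b = 0)} + 1 := by
  rw [← Finite.card_option]
  symm
  refine Nat.card_eq_of_bijective (fun o => match o with
    | none => ⟨(0, 0), (eqn a b 0 0).2 (by ring)⟩
    | some m => ⟨(m.1 ^ 2 + a * m.1 - b, m.1 * (m.1 ^ 2 + a * m.1 - b)),
        (eqn a b _ _).2 (by ring)⟩) ⟨?_, ?_⟩
  · rintro (_ | m) (_ | m') h
    · rfl
    · exact absurd (congrArg (fun v => v.1.1) h).symm m'.2
    · exact absurd (congrArg (fun v => v.1.1) h) m.2
    · have h1 : m.1 ^ 2 + a * m.1 - b = m'.1 ^ 2 + a * m'.1 - b := congrArg (fun v => v.1.1) h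
      have h2 : m.1 * (m.1 ^ 2 + a * m.1 - b) = m'.1 * (m'.1 ^ 2 + a * m'.1 - b) :=
        congrArg (fun v => v.1.2) h
      rw [← h1] at h2
      exact congrArg some (Subtype.ext (mul_right_cancel₀ m.2 h2))
  · rintro ⟨⟨x, y⟩, h⟩
    have h1 : y ^ 2 + a * x * y = x ^ 3 + b * x ^ 2 := (eqn a b x y).1 h
    by_cases hx : x = 0
    · subst hx
      have : y = 0 := by
        have : y ^ 2 = 0 := by linear_combination h1
        exact pow_eq_zero_iff two_ne_zero |>.1 this
      subst this
      exact ⟨none, rfl⟩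
    · have h2 : (y / x) ^ 2 + a * (y / x) - b = x := by
        field_simp
        linear_combination h1
      refine ⟨some ⟨y / x, by rw [h2]; exact hx⟩, Subtype.ext (Prod.ext h2 ?_)⟩
      show y / x * ((y / x) ^ 2 + a * (y / x) - b) = y
      rw [h2, div_mul_cancel₀ _ hx]

theorem root (p : ℕ) [hp : Fact p.Prime] (a b : ZMod p) (h : a ^ 2 + 4 * b = 0) :
    ∃ m : ZMod p, m ^ 2 + a * m - b = 0 := by
  by_cases h2 : (2 : ZMod p) = 0
  · have h3 : p = 2 := by
      have : ((2 : ℕ) : ZMod p) = 0 := by exact_mod_cast h2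
      exact (Nat.prime_dvd_prime_iff_eq hp.out Nat.prime_two).1
        ((ZMod.natCast_eq_zero_iff 2 p).1 this)
    have h4 : a = 0 := by
      have : a ^ 2 = 0 := by linear_combination h - 2 * b * h2
      exact pow_eq_zero_iff two_ne_zero |>.1 this
    have h5 : b ^ p = b := ZMod.pow_card b
    refine ⟨b, ?_⟩
    have h6 : b ^ 2 = b := by
      have h7 : b ^ 2 = b ^ p := congrArg (fun n => b ^ n) h3.symm
      rw [h7, h5]
    rw [h4, h6]
    ring
  · refine ⟨-a / 2, ?_⟩
    field_simp
    linear_combination -h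

end FCx

open FCx in
theorem fc : S_FC := by
  intro p hp a b
  refine ⟨?_, fun h => ?_, fun h => ?_⟩
  · classical
    have h1 := card_pts a b
    have h2 : Nat.card {m : ZMod p // ¬(m ^ 2 + a * m - b = 0)} +
        Nat.card {m : ZMod p // m ^ 2 + a * m - b = 0} = p := by
      rw [Nat.card_eq_fintype_card, Nat.card_eq_fintype_card, Fintype.card_subtype_compl,
        Nat.sub_add_cancel (Fintype.card_subtype_le _), ZMod.card]
    unfold cnt
    rw [h1]
    push_cast
    have h3 := congrArg (Nat.cast : ℕ → ℤ) h2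
    push_cast at h3
    linarith
  · obtain ⟨m, hm⟩ := root p a b h
    refine Nat.card_eq_one_iff_exists.2 ⟨⟨m, hm⟩, fun ⟨m', hm'⟩ => Subtype.ext ?_⟩
    have h1 : 2 * m + a = 0 := by
      have : (2 * m + a) ^ 2 = 0 := by linear_combination 4 * hm + h
      exact pow_eq_zero_iff two_ne_zero |>.1 this
    have h2 : (m' - m) ^ 2 = 0 := by linear_combination hm' - hm - (m' - m) * h1
    exact sub_eq_zero.1 (pow_eq_zero_iff two_ne_zero |>.1 h2)
  · by_cases he : ∃ m : ZMod p, m ^ 2 + a * m - b = 0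
    · obtain ⟨m, hm⟩ := he
      refine Or.inr (Nat.card_eq_two_iff.2 ⟨⟨m, hm⟩, ⟨-a - m, by linear_combination hm⟩, ?_, ?_⟩)
      · intro e
        have e1 : m = -a - m := congrArg Subtype.val e
        exact h (by linear_combination (2 * m + a) * e1 - 4 * hm)
      · refine Set.eq_univ_of_forall fun ⟨m', hm'⟩ => ?_
        have : (m' - m) * (m' - (-a - m)) = 0 := by linear_combination hm' - hm
        rcases mul_eq_zero.1 this with e | e
        · exact Or.inl (Subtype.ext (sub_eq_zero.1 e))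
        · exact Or.inr (Subtype.ext (sub_eq_zero.1 e))
    · have : IsEmpty {m : ZMod p // m ^ 2 + a * m - b = 0} := ⟨fun m => he ⟨m.1, m.2⟩⟩
      exact Or.inl Nat.card_of_isEmpty

end Pool.Agent.MP_b2c033_nt.UH
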