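import Pool.Agent.MP_b2c033_nt.UH.Spec

/-! A singular Weierstrass cubic over a prime field has a rational singular point. -/

namespace Pool.Agent.MP_b2c033_nt.UH

open WeierstrassCurve

namespace FNx

/-- the three equations of a singular point -/
def Sg {F : Type} [CommRing F] (a₁ a₂ a₃ a₄ a₆ r t : F) : Prop :=
  a₃ + r * a₁ + 2 * t = 0 ∧ a₄ + 2 * r * a₂ - t * a₁ + 3 * r ^ 2 = 0 ∧
    a₆ + r * a₄ + r ^ 2 * a₂ + r ^ 3 - t * a₃ - t ^ 2 - r * t * a₁ = 0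

/-- the discriminant, expanded -/
def Dl {F : Type} [CommRing F] (a₁ a₂ a₃ a₄ a₆ : F) : F :=
  -(a₁ ^ 2 + 4 * a₂) ^ 2 * (a₁ ^ 2 * a₆ + 4 * a₂ * a₆ - a₁ * a₃ * a₄ + a₂ * a₃ ^ 2 - a₄ ^ 2)
    - 8 * (2 * a₄ + a₁ * a₃) ^ 3 - 27 * (a₃ ^ 2 + 4 * a₆) ^ 2
    + 9 * (a₁ ^ 2 + 4 * a₂) * (2 * a₄ + a₁ * a₃) * (a₃ ^ 2 + 4 * a₆)

theorem dl_eq {F : Type} [CommRing F] (V : WeierstrassCurve F) :
    V.Δ = Dl V.a₁ V.a₂ V.a₃ V.a₄ V.a₆ := rfl

theorem two : ∀ a₁ a₂ a₃ a₄ a₆ : ZMod 2, Dl a₁ a₂ a₃ a₄ a₆ = 0 →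
    ∃ r t : ZMod 2, Sg a₁ a₂ a₃ a₄ a₆ r t := by
  unfold Dl Sg
  decide

set_option maxRecDepth 100000 in
theorem three : ∀ a₁ a₂ a₃ a₄ a₆ : ZMod 3, Dl a₁ a₂ a₃ a₄ a₆ = 0 →
    ∃ r t : ZMod 3, Sg a₁ a₂ a₃ a₄ a₆ r t := by
  unfold Dl Sg
  decide

theorem big {F : Type} [Field F] (h2 : (2 : F) ≠ 0) (h3 : (3 : F) ≠ 0) (V : WeierstrassCurve F)
    (h : V.Δ = 0) : ∃ r t : F, Sg V.a₁ V.a₂ V.a₃ V.a₄ V.a₆ r t := by
  have hc : V.c₄ ^ 3 = V.c₆ ^ 2 := by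
    have := V.c_relation
    rw [h] at this
    linear_combination -this
  have hY : ∃ Y : F, Y ^ 2 = V.c₄ ∧ Y ^ 3 = -V.c₆ := by
    by_cases h4 : V.c₄ = 0
    · have h6 : V.c₆ = 0 := by
        have : V.c₆ ^ 2 = 0 := by rw [← hc, h4]; ring
        exact pow_eq_zero_iff (two_ne_zero) |>.1 this
      exact ⟨0, by rw [h4]; ring, by rw [h6]; ring⟩
    · refine ⟨-V.c₆ / V.c₄, ?_, ?_⟩
      · field_simp
        linear_combination -hc
      · field_simp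
        linear_combination V.c₆ * hc
  obtain ⟨Y, hY2, hY3⟩ := hY
  have h12 : (12 : F) ≠ 0 := by
    have : (12 : F) = 2 * 2 * 3 := by norm_num
    rw [this]; exact mul_ne_zero (mul_ne_zero h2 h2) h3
  obtain ⟨r, hr⟩ : ∃ r : F, Y = 12 * r + V.b₂ := ⟨(Y - V.b₂) / 12, by field_simp; ring⟩
  obtain ⟨t, ht⟩ : ∃ t : F, V.a₃ + r * V.a₁ + 2 * t = 0 :=
    ⟨-(V.a₃ + r * V.a₁) / 2, by field_simp; ring⟩
  subst hr
  simp only [c₄, c₆, b₂, b₄, b₆] at hY2 hY3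
  refine ⟨r, t, ht, ?_, ?_⟩
  · have h48 : (48 : F) ≠ 0 := by
      have : (48 : F) = 2 * 2 * 12 := by norm_num
      rw [this]; exact mul_ne_zero (mul_ne_zero h2 h2) h12
    apply mul_left_cancel₀ h48
    linear_combination hY2 - 24 * V.a₁ * ht
  · have h1728 : (1728 : F) ≠ 0 := by
      have : (1728 : F) = 12 * 12 * 12 := by norm_num
      rw [this]; exact mul_ne_zero (mul_ne_zero h12 h12) h12
    apply mul_left_cancel₀ h1728
    linear_combination 3 * (12 * r + (V.a₁ ^ 2 + 4 * V.a₂)) * hY2 - 2 * hY3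
      - 432 * (V.a₃ + r * V.a₁ + 2 * t) * ht

theorem ne_of_ne (p q : ℕ) [hp : Fact p.Prime] (hq : q.Prime) (h : p ≠ q) :
    ((q : ℕ) : ZMod p) ≠ 0 := by
  intro h0
  rw [ZMod.natCast_eq_zero_iff] at h0
  exact h ((Nat.prime_dvd_prime_iff_eq hp.out hq).1 h0)

theorem sing (p : ℕ) [Fact p.Prime] (V : WeierstrassCurve (ZMod p)) (h : V.Δ = 0) :
    ∃ r t : ZMod p, Sg V.a₁ V.a₂ V.a₃ V.a₄ V.a₆ r t := by
  by_cases h2 : p = 2
  · subst h2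
    exact two _ _ _ _ _ (by rw [← dl_eq]; exact h)
  by_cases h3 : p = 3
  · subst h3
    exact three _ _ _ _ _ (by rw [← dl_eq]; exact h)
  refine big ?_ ?_ V h
  · exact_mod_cast ne_of_ne p 2 Nat.prime_two h2
  · exact_mod_cast ne_of_ne p 3 Nat.prime_three h3

end FNx

theorem fn : S_FN := by
  intro p _ V h
  obtain ⟨r, t, e1, e2, e3⟩ := FNx.sing p V h
  refine ⟨⟨1, r, 0, t⟩, V.a₁, V.a₂ + 3 * r, ?_⟩
  ext
  · simp [variableChange_a₁]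
  · simp [variableChange_a₂]
  · simp only [variableChange_a₃]
    simp [e1]
  · simp only [variableChange_a₄]
    simp only [inv_one, Units.val_one, one_pow, one_mul]
    linear_combination e2
  · simp only [variableChange_a₆]
    simp only [inv_one, Units.val_one, one_pow, one_mul]
    linear_combination e3

end Pool.Agent.MP_b2c033_nt.UH
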