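import Pool.Agent.MP_b2c033_nt.UH.Spec

/-! The Frobenius relation on a singular cubic. -/

namespace Pool.Agent.MP_b2c033_nt.UH

open WeierstrassCurve Polynomial

noncomputable section

namespace FSx

/-- an additive map from a three term relation -/
def homOf {G H : Type*} [AddCommGroup G] [AddCommGroup H] (g : G → H) (h0 : g 0 = 0)
    (hn : ∀ P, g (-P) = -g P)
    (h3 : ∀ P Q R, P ≠ 0 → Q ≠ 0 → R ≠ 0 → P + Q + R = 0 → g P + g Q + g R = 0) : G →+ H where
  toFun := g
  map_zero' := h0
  map_add' P Q := by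
    by_cases hP : P = 0
    · simp [hP, h0]
    by_cases hQ : Q = 0
    · simp [hQ, h0]
    by_cases hPQ : P + Q = 0
    · rw [hPQ, h0, eq_neg_of_add_eq_zero_left hPQ, hn, neg_add_cancel]
    have := h3 P Q (-(P + Q)) hP hQ (neg_ne_zero.2 hPQ) (add_neg_cancel _)
    rw [hn, ← sub_eq_add_neg, sub_eq_zero] at this
    exact this.symm

variable {K : Type} [Field K]

/-- the singular cubic with tangent slopes `al`, `be` -/
def V (al be : K) : WeierstrassCurve K := ⟨-(al + be), -(al * be), 0, 0, 0⟩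

lemma ns_iff (al be x y : K) : (V al be).toAffine.Nonsingular x y ↔
    (y - al * x) * (y - be * x) = x ^ 3 ∧ x ≠ 0 := by
  rw [Affine.nonsingular_iff', Affine.equation_iff]
  simp only [V]
  constructor
  · rintro ⟨he, hn⟩
    refine ⟨by linear_combination he, ?_⟩
    rintro rfl
    have hy : y = 0 := by
      have : y ^ 2 = 0 := by linear_combination he
      exact pow_eq_zero_iff (two_ne_zero) |>.1 this
    subst hy
    simp at hn
  · rintro ⟨he, hx⟩
    refine ⟨by linear_combination he, ?_⟩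
    by_contra hc
    push Not at hc
    obtain ⟨h1, h2⟩ := hc
    apply hx
    have : x ^ 3 = 0 := by linear_combination -(x * h1 + y * h2) + 2 * he
    exact pow_eq_zero_iff (three_ne_zero) |>.1 this

lemma pa_some {W : WeierstrassCurve K} {x y : K} (h : W.toAffine.Nonsingular x y) :
    pa W x y = .some x y h := by
  simp [pa, h]

lemma nz1 {al be x y : K} (h : (V al be).toAffine.Nonsingular x y) : y - al * x ≠ 0 := by
  obtain ⟨he, hx⟩ := (ns_iff _ _ _ _).1 h
  intro h0
  rw [h0, zero_mul] at he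
  exact pow_ne_zero 3 hx he.symm

lemma nz2 {al be x y : K} (h : (V al be).toAffine.Nonsingular x y) : y - be * x ≠ 0 := by
  obtain ⟨he, hx⟩ := (ns_iff _ _ _ _).1 h
  intro h0
  rw [h0, mul_zero] at he
  exact pow_ne_zero 3 hx he.symm

/-- the multiplicative coordinate -/
def gm (al be : K) : (V al be).toAffine.Point → Additive Kˣ
  | .zero => 0
  | .some x y h => Additive.ofMul (Units.mk0 ((y - al * x) / (y - be * x))
      (div_ne_zero (nz1 h) (nz2 h)))

/-- the additive coordinate -/
def ga (al : K) : (V al al).toAffine.Point → K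
  | .zero => 0
  | .some x y _ => x / (y - al * x)

lemma col_prod {al be l m x₁ y₁ x₂ y₂ x₃ y₃ : K} (c : Col (V al be) l m x₁ y₁ x₂ y₂ x₃ y₃) :
    (y₁ - al * x₁) * (y₂ - al * x₂) * (y₃ - al * x₃) = m ^ 3 ∧
    (y₁ - be * x₁) * (y₂ - be * x₂) * (y₃ - be * x₃) = m ^ 3 := by
  have e1 := c.e1
  have e2 := c.e2
  have e3 := c.e3
  simp only [V] at e1 e2 e3
  rw [c.h1, c.h2, c.h3]
  constructor
  · linear_combination (l - al) ^ 3 * e3 + (l - al) ^ 2 * m * e2 + (l - al) * m ^ 2 * e1
  · linear_combination (l - be) ^ 3 * e3 + (l - be) ^ 2 * m * e2 + (l - be) * m ^ 2 * e1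

lemma col_sum {al l m x₁ y₁ x₂ y₂ x₃ y₃ : K} (c : Col (V al al) l m x₁ y₁ x₂ y₂ x₃ y₃) :
    x₁ * (y₂ - al * x₂) * (y₃ - al * x₃) + x₂ * (y₁ - al * x₁) * (y₃ - al * x₃)
      + x₃ * (y₁ - al * x₁) * (y₂ - al * x₂) = 0 := by
  have e1 := c.e1
  have e2 := c.e2
  have e3 := c.e3
  simp only [V] at e1 e2 e3
  rw [c.h1, c.h2, c.h3]
  linear_combination 3 * (l - al) ^ 2 * e3 + 2 * (l - al) * m * e2 + m ^ 2 * e1

variable [DecidableEq K]

lemma col_of (h : S_COL) {W : WeierstrassCurve K} {x₁ y₁ x₂ y₂ x₃ y₃ : K}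
    (h₁ : W.toAffine.Nonsingular x₁ y₁) (h₂ : W.toAffine.Nonsingular x₂ y₂)
    (h₃ : W.toAffine.Nonsingular x₃ y₃)
    (hs : Affine.Point.some x₁ y₁ h₁ + Affine.Point.some x₂ y₂ h₂ + Affine.Point.some x₃ y₃ h₃
      = 0) : ∃ l m, Col W l m x₁ y₁ x₂ y₂ x₃ y₃ :=
  h.of_sum K W x₁ y₁ x₂ y₂ x₃ y₃ h₁ h₂ h₃ (by rw [pa_some h₁, pa_some h₂, pa_some h₃]; exact hs)

/-- the multiplicative coordinate is a homomorphism -/
def hm (h : S_COL) (al be : K) : (V al be).toAffine.Point →+ Additive Kˣ :=
  homOf (gm al be) rfl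
    (by
      rintro (_ | ⟨x, y, hxy⟩)
      · exact neg_zero.symm
      · rw [Affine.Point.neg_some]
        simp only [gm]
        rw [← ofMul_inv]
        refine congrArg _ (Units.ext ?_)
        have h1 := nz1 hxy
        have h2 := nz2 hxy
        simp only [Units.val_mk0, Units.val_inv_eq_inv_val, inv_div, Affine.negY, V]
        have e1 : -y - -(al + be) * x - 0 - al * x = -(y - be * x) := by ring
        have e2 : -y - -(al + be) * x - 0 - be * x = -(y - al * x) := by ring
        rw [e1, e2, neg_div_neg_eq])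
    (by
      rintro (_ | ⟨x₁, y₁, h₁⟩) (_ | ⟨x₂, y₂, h₂⟩) (_ | ⟨x₃, y₃, h₃⟩) hP hQ hR hs <;>
        try (first | exact absurd rfl hP | exact absurd rfl hQ | exact absurd rfl hR)
      obtain ⟨l, m, c⟩ := col_of h h₁ h₂ h₃ hs
      obtain ⟨p1, p2⟩ := col_prod c
      simp only [gm]
      rw [← ofMul_mul, ← ofMul_mul, ← ofMul_one]
      refine congrArg _ (Units.ext ?_)
      simp only [Units.val_mul, Units.val_mk0, Units.val_one]
      rw [div_mul_div_comm, div_mul_div_comm, p1, ← p2]
      exact div_self (mul_ne_zero (mul_ne_zero (nz2 h₁) (nz2 h₂)) (nz2 h₃)))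

lemma hm_apply (h : S_COL) (al be : K) (P : (V al be).toAffine.Point) :
    hm h al be P = gm al be P := rfl

lemma hm_inj (h : S_COL) {al be : K} (hne : al ≠ be) : Function.Injective (hm h al be) := by
  rw [injective_iff_map_eq_zero]
  rintro (_ | ⟨x, y, hxy⟩) h0
  · rfl
  · exfalso
    have h1 : (y - al * x) / (y - be * x) = 1 := congrArg (fun u => ((Additive.toMul u : Kˣ) : K)) h0
    rw [div_eq_one_iff_eq (nz2 hxy)] at h1
    have hx := ((ns_iff _ _ _ _).1 hxy).2
    apply hne
    have : (al - be) * x = 0 := by linear_combination -h1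
    exact sub_eq_zero.1 ((mul_eq_zero.1 this).resolve_right hx)

/-- the additive coordinate is a homomorphism -/
def ha (h : S_COL) (al : K) : (V al al).toAffine.Point →+ K :=
  homOf (ga al) rfl
    (by
      rintro (_ | ⟨x, y, hxy⟩)
      · exact neg_zero.symm
      · rw [Affine.Point.neg_some]
        simp only [ga, Affine.negY, V]
        have e1 : -y - -(al + al) * x - 0 - al * x = -(y - al * x) := by ring
        rw [e1, div_neg])
    (by
      rintro (_ | ⟨x₁, y₁, h₁⟩) (_ | ⟨x₂, y₂, h₂⟩) (_ | ⟨x₃, y₃, h₃⟩) hP hQ hR hs <;>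
        try (first | exact absurd rfl hP | exact absurd rfl hQ | exact absurd rfl hR)
      obtain ⟨l, m, c⟩ := col_of h h₁ h₂ h₃ hs
      have p1 := col_sum c
      have n1 := nz1 h₁
      have n2 := nz1 h₂
      have n3 := nz1 h₃
      simp only [ga]
      rw [div_add_div _ _ n1 n2, div_add_div _ _ (mul_ne_zero n1 n2) n3, div_eq_zero_iff]
      left
      linear_combination p1)

lemma ha_inj (h : S_COL) (al : K) : Function.Injective (ha h al) := by
  rw [injective_iff_map_eq_zero]
  rintro (_ | ⟨x, y, hxy⟩) h0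
  · rfl
  · exfalso
    have h1 : x / (y - al * x) = 0 := h0
    exact div_ne_zero ((ns_iff _ _ _ _).1 hxy).2 (nz1 hxy) h1

variable (p : ℕ) [Fact p.Prime] [CharP K p]

omit [Fact p.Prime] in
lemma cusp (h : S_COL) (al : K) (P : (V al al).toAffine.Point) : (p : ℤ) • P = 0 := by
  apply ha_inj h al
  rw [map_zsmul, map_zero, zsmul_eq_mul, Int.cast_natCast, CharP.cast_eq_zero, zero_mul]

omit [DecidableEq K] in
lemma frob_lin (c x y : K) : (y - c * x) ^ p = y ^ p - c ^ p * x ^ p := by
  rw [sub_pow_char, mul_pow]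

lemma split (h : S_COL) {al be x y : K} (hne : al ≠ be) (ha : al ^ p = al) (hb : be ^ p = be)
    (hxy : (V al be).toAffine.Nonsingular x y) :
    pa (V al be) (x ^ p) (y ^ p) = (p : ℤ) • pa (V al be) x y := by
  obtain ⟨he, hx⟩ := (ns_iff _ _ _ _).1 hxy
  have e1 := frob_lin p al x y
  have e2 := frob_lin p be x y
  rw [ha] at e1
  rw [hb] at e2
  have hn : (V al be).toAffine.Nonsingular (x ^ p) (y ^ p) := by
    refine (ns_iff _ _ _ _).2 ⟨?_, pow_ne_zero _ hx⟩
    rw [← e1, ← e2, ← mul_pow, he, ← pow_mul, ← pow_mul, mul_comm]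
  apply hm_inj h hne
  rw [map_zsmul, pa_some hn, pa_some hxy, natCast_zsmul]
  simp only [hm_apply, gm]
  rw [← ofMul_pow]
  refine congrArg _ (Units.ext ?_)
  simp only [Units.val_mk0, Units.val_pow_eq_pow_val]
  rw [← e1, ← e2, div_pow]

lemma nonsplit (h : S_COL) {al be x y : K} (hne : al ≠ be) (ha : al ^ p = be) (hb : be ^ p = al)
    (hxy : (V al be).toAffine.Nonsingular x y) :
    pa (V al be) (x ^ p) (y ^ p) = -((p : ℤ) • pa (V al be) x y) := by
  obtain ⟨he, hx⟩ := (ns_iff _ _ _ _).1 hxy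
  have e1 := frob_lin p al x y
  have e2 := frob_lin p be x y
  rw [ha] at e1
  rw [hb] at e2
  have hn : (V al be).toAffine.Nonsingular (x ^ p) (y ^ p) := by
    refine (ns_iff _ _ _ _).2 ⟨?_, pow_ne_zero _ hx⟩
    rw [← e1, ← e2, ← mul_pow, mul_comm, he, ← pow_mul, ← pow_mul, mul_comm]
  apply hm_inj h hne
  rw [map_neg, map_zsmul, pa_some hn, pa_some hxy, natCast_zsmul]
  simp only [hm_apply, gm]
  rw [← ofMul_pow, ← ofMul_inv]
  refine congrArg _ (Units.ext ?_)
  simp only [Units.val_mk0, Units.val_pow_eq_pow_val, Units.val_inv_eq_inv_val]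
  rw [← e1, ← e2, div_pow, inv_div]

omit [DecidableEq K] in
lemma roots (j : AlgebraicClosure (ZMod p) →+* K) (a b : ZMod p) :
    ∃ al be : K, ZMod.castHom (dvd_refl p) K a = -(al + be) ∧
      ZMod.castHom (dvd_refl p) K b = -(al * be) := by
  set i := algebraMap (ZMod p) (AlgebraicClosure (ZMod p))
  obtain ⟨z, hz⟩ := IsAlgClosed.exists_root (C 1 * X ^ 2 + C (i a) * X + C (-(i b)))
    (by rw [degree_quadratic one_ne_zero]; decide)
  have hj : j.comp i = ZMod.castHom (dvd_refl p) K := RingHom.ext_zmod _ _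
  have hz' : z ^ 2 + i a * z - i b = 0 := by
    have := hz
    simp only [IsRoot, eval_add, eval_mul, eval_C, eval_pow, eval_X] at this
    linear_combination this
  have hz2 := congrArg j hz'
  simp only [map_add, map_sub, map_mul, map_pow, map_zero] at hz2
  refine ⟨j z, -(j (i a)) - j z, ?_, ?_⟩
  · rw [← hj]; simp
  · rw [← hj]; simp only [RingHom.comp_apply]; linear_combination -hz2

omit [DecidableEq K] in
lemma map_eq {a b : ZMod p} {al be : K} (ha : ZMod.castHom (dvd_refl p) K a = -(al + be))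
    (hb : ZMod.castHom (dvd_refl p) K b = -(al * be)) :
    (⟨a, b, 0, 0, 0⟩ : WeierstrassCurve (ZMod p)).map (ZMod.castHom (dvd_refl p) K) = V al be := by
  simp only [WeierstrassCurve.map, V, ha, hb, map_zero]

omit [DecidableEq K] in
lemma cast_pow (a : ZMod p) :
    ZMod.castHom (dvd_refl p) K a ^ p = ZMod.castHom (dvd_refl p) K a := by
  rw [← map_pow, ZMod.pow_card]

omit [DecidableEq K] in
lemma disc {a b : ZMod p} {al be : K} (ha : ZMod.castHom (dvd_refl p) K a = -(al + be))
    (hb : ZMod.castHom (dvd_refl p) K b = -(al * be)) :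
    ZMod.castHom (dvd_refl p) K (a ^ 2 + 4 * b) = (al - be) ^ 2 := by
  rw [map_add, map_mul, map_pow, ha, hb, map_ofNat]
  ring

end FSx

open FSx in
theorem fs (h : S_COL) : S_FS := by
  intro p _ a b
  refine ⟨fun hd => ?_, fun hd hm => ?_, fun hd hm => ?_⟩
  · intro K _ _ _ j x y _ _
    obtain ⟨al, be, ha, hb⟩ := roots p j a b
    have hd' := disc p ha hb
    rw [hd, map_zero] at hd'
    have hab : al = be := sub_eq_zero.1 (pow_eq_zero_iff two_ne_zero |>.1 hd'.symm)
    subst hab
    rw [map_eq p ha hb, cusp p h]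
    simp
  · intro K _ _ _ j x y _ hxy
    obtain ⟨m, hm⟩ := hm
    set f := ZMod.castHom (dvd_refl p) K with hf
    have ha : f a = -(f m + f (-a - m)) := by simp
    have hb : f b = -(f m * f (-a - m)) := by
      rw [← map_mul, ← map_neg]
      exact congrArg f (by linear_combination -hm)
    have hne : f m ≠ f (-a - m) := by
      intro he
      have hd' := disc p ha hb
      rw [he, sub_self, zero_pow two_ne_zero] at hd'
      exact hd (f.injective (hd'.trans (map_zero f).symm))
    rw [map_eq p ha hb] at hxy ⊢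
    rw [split p h hne (cast_pow p m) (cast_pow p _) hxy]
    simp
  · intro K _ _ _ j x y _ hxy
    obtain ⟨al, be, ha, hb⟩ := roots p j a b
    set f := ZMod.castHom (dvd_refl p) K with hf
    have hne : al ≠ be := by
      intro he
      have hd' := disc p ha hb
      rw [he, sub_self, zero_pow two_ne_zero] at hd'
      exact hd (f.injective (hd'.trans (map_zero f).symm))
    have key : ∀ z : K, z ^ 2 + f a * z - f b = 0 → z ^ p ≠ z ∧ (z ^ p - al) * (z ^ p - be) = 0 := by
      intro z hz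
      constructor
      · intro hp
        obtain ⟨n, hn⟩ := (mem_bot_iff_intCast p K).1 ((Subfield.mem_bot_iff_pow_eq_self K p).2 hp)
        apply hm
        refine ⟨n, f.injective ?_⟩
        rw [map_zero, map_sub, map_add, map_mul, map_pow, map_intCast, hn, hz]
      · have h1 := congrArg (frobenius K p) hz
        rw [map_zero, map_sub, map_add, map_mul, map_pow, frobenius_def, frobenius_def,
          frobenius_def, cast_pow, cast_pow, ha, hb] at h1
        linear_combination h1
    obtain ⟨k1, k2⟩ := key al (by rw [ha, hb]; ring)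
    obtain ⟨k3, k4⟩ := key be (by rw [ha, hb]; ring)
    have h1 : al ^ p = be :=
      sub_eq_zero.1 ((mul_eq_zero.1 k2).resolve_left (sub_ne_zero.2 k1))
    have h2 : be ^ p = al :=
      sub_eq_zero.1 ((mul_eq_zero.1 k4).resolve_right (sub_ne_zero.2 k3))
    rw [map_eq p ha hb] at hxy ⊢
    rw [nonsplit p h hne h1 h2 hxy]
    simp

end

end Pool.Agent.MP_b2c033_nt.UH
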