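import Pool.Agent.MP_b2c033_nt.UH.H2

/-! The congruences of Honda from the three parts. -/

namespace Pool.Agent.MP_b2c033_nt.UH

open PowerSeries WeierstrassCurve
open Pool.Agent.MP_b2c033_nt.H87

theorem hfin (h1 : S_H1) (h2 : S_H2) (h5 : S_H5) : S_H := by
  intro W Λ N φ b hΔ hmin g2 g3 hN hP b0 hs
  set c : ℚ⟦X⟧ := mk fun n => b n / n with hc
  have hb : ∀ n, coeff n (X * derivative ℚ c) = b n := fun n => by
    rcases n with _ | n
    · simp [b0]
    · rw [coeff_succ_X_mul, coeff_derivative, hc, coeff_mk]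
      push_cast
      field_simp
  by_cases c0 : c = 0
  · have : b = fun _ => 0 := funext fun n => by rw [← hb, c0]; simp
    subst this
    exact ⟨fun n => ⟨0, by simp⟩, fun p hp n => ⟨0, 1, fun h =>
      hp.one_lt.ne' (by exact_mod_cast Int.eq_one_of_dvd_one (by positivity) h), by simp [dv]⟩⟩
  obtain ⟨t, w, t0, w0, wne, heq, hode, fx, fy⟩ := h1 W Λ N φ c g2 g3 hN hP c0 (by simp [hc])
    (by simpa only [hc, coeff_mk] using hs)
  obtain ⟨t', w', rfl, rfl⟩ := h2 W _ t w hΔ hmin t0 w0 wne heq hode fx fy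
  have inj : Function.Injective (map (Int.castRingHom ℚ) : ℤ⟦X⟧ →+* ℚ⟦X⟧) :=
    PowerSeries.map_injective _ (RingHom.injective_int _)
  have z0 : ∀ {a : ℤ⟦X⟧}, constantCoeff (map (Int.castRingHom ℚ) a) = 0 → constantCoeff a = 0 :=
    fun h => by
      rw [← coeff_zero_eq_constantCoeff_apply, coeff_map, coeff_zero_eq_constantCoeff_apply] at h
      simpa using h
  have heq' : Eq0 (bc W ℤ⟦X⟧) t' w' := inj (by
    simpa only [Eq0, map_a₁, map_a₂, map_a₃, map_a₄, map_a₆, eq_intCast, map_add, map_mul, map_pow,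
      map_intCast] using heq)
  have hu : IsUnit (HH (bc W ℤ⟦X⟧) t' w') := by
    rw [isUnit_iff_constantCoeff]
    simp [HH, z0 t0, z0 w0]
  obtain ⟨u, hu'⟩ := hu.exists_left_inv
  have hh : X * derivative ℤ t' = X * derivative ℤ t' * u * HH (bc W ℤ⟦X⟧) t' w' := by
    rw [mul_assoc _ u, hu', mul_one]
  have e : map (Int.castRingHom ℚ) (X * derivative ℤ t' * u) = X * derivative ℚ c := by
    have h3 := congrArg (map (Int.castRingHom ℚ)) hu'
    rw [map_mul, H2x.hh_map, map_one] at h3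
    rw [map_mul, map_mul, map_X, ← P7x.der_map, hode]
    linear_combination X * derivative ℚ c * h3
  have eb : b = fun n => ((coeff n (X * derivative ℤ t' * u) : ℤ) : ℚ) := funext fun n => by
    rw [← hb, ← e, coeff_map, eq_intCast]
  refine ⟨fun n => ⟨_, congrFun eb n⟩, fun p hp n => ?_⟩
  obtain ⟨r, s, hs', h⟩ := h5 W p t' w' _ hp (z0 t0) (z0 w0) heq' hh n
  refine ⟨r, s, hs', ?_⟩
  have h' := congrArg (Int.cast : ℤ → ℚ) h
  rw [eb]
  simp only [dv] at h' ⊢
  push_cast at h' ⊢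
  exact h'

end Pool.Agent.MP_b2c033_nt.UH
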