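import Pool.Agent.MP_b2c033_nt.UH.Spec

/-! The pairs (point, invariant differential) of formal points form a group. -/

namespace Pool.Agent.MP_b2c033_nt.UH

open WeierstrassCurve

namespace GRPx

variable {R F : Type} [CommRing R] [CommRing F] (W : WeierstrassCurve ℤ) (f : R →+* F)

lemma mapHH (t w : R) : f (HH (bc W R) t w) = HH (bc W F) (f t) (f w) := by
  simp [HH, map_ofNat]

lemma mapUU (l : R) : f (UU (bc W R) l) = UU (bc W F) (f l) := by
  simp [UU]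

lemma mapCw {l n t₁ w₁ t₂ w₂ t₃ w₃ : R} (h : Cw (bc W R) l n t₁ w₁ t₂ w₂ t₃ w₃) :
    Cw (bc W F) (f l) (f n) (f t₁) (f w₁) (f t₂) (f w₂) (f t₃) (f w₃) where
  h1 := by simpa using congrArg f h.h1
  h2 := by simpa using congrArg f h.h2
  h3 := by simpa using congrArg f h.h3
  e1 := by
    have := congrArg f h.e1
    rw [map_mul, mapUU] at this
    simpa [map_ofNat] using this
  e2 := by
    have := congrArg f h.e2
    rw [map_mul, mapUU] at this
    simpa [map_ofNat] using this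
  e3 := by
    have := congrArg f h.e3
    rw [map_mul, mapUU] at this
    simpa [map_ofNat] using this

lemma uHH {V : WeierstrassCurve R} {I : Ideal R} (hI : ∀ x ∈ I, IsUnit (1 + x)) {t w : R}
    (h : FP V I t w) : IsUnit (HH V t w) := by
  have := hI _ (I.add_mem (I.mul_mem_left (-V.a₁ - V.a₂ * t) h.ht)
    (I.mul_mem_left (-2 * V.a₃ - 2 * V.a₄ * t - 3 * V.a₆ * w) h.hw))
  rwa [show 1 + ((-V.a₁ - V.a₂ * t) * t + (-2 * V.a₃ - 2 * V.a₄ * t - 3 * V.a₆ * w) * w) =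
    HH V t w by unfold HH; ring] at this

lemma uUU {V : WeierstrassCurve R} {I : Ideal R} (hI : ∀ x ∈ I, IsUnit (1 + x)) {l : R}
    (h : l ∈ I) : IsUnit (UU V l) := by
  have := hI _ (I.mul_mem_left (V.a₂ + V.a₄ * l + V.a₆ * l ^ 2) h)
  rwa [show 1 + (V.a₂ + V.a₄ * l + V.a₆ * l ^ 2) * l = UU V l by unfold UU; ring] at this

end GRPx

open GRPx in
theorem grp (ha : S_ADD) (hc : S_CW) (ho : S_OM) : S_GRP := by
  intro R F _ _ _ W I D f hI hD
  let S : Set ((bc W F).toAffine.Point × R) := {x | ∃ t w, FP (bc W R) I t w ∧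
    x.1 = pw (bc W F) (f t) (f w) ∧ D t = x.2 * HH (bc W R) t w}
  have h0 : (0 : (bc W F).toAffine.Point × R) ∈ S := by
    refine ⟨0, 0, ⟨I.zero_mem, I.zero_mem, by simp [Eq0]⟩, by simp [pw], ?_⟩
    have := hD.add 0 0
    rw [add_zero] at this
    simpa using this
  have h3 : ∀ x ∈ S, ∀ y ∈ S, -(x + y) ∈ S := by
    rintro ⟨P₁, o₁⟩ ⟨t₁, w₁, p₁, e₁, d₁⟩ ⟨P₂, o₂⟩ ⟨t₂, w₂, p₂, e₂, d₂⟩
    obtain ⟨l, hl, n, t₃, w₃, p₃, cw⟩ := ha R _ I t₁ w₁ t₂ w₂ hI p₁ p₂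
    have u₁ := uHH hI p₁
    have u₂ := uHH hI p₂
    have u₃ := uHH hI p₃
    have u := uUU (V := bc W R) hI hl
    obtain ⟨v, hv⟩ := u₃.exists_left_inv
    have d₃ : D t₃ = D t₃ * v * HH (bc W R) t₃ w₃ := by rw [mul_assoc, hv, mul_one]
    have k₁ := ho R W D l n t₁ w₁ t₂ w₂ t₃ w₃ o₁ o₂ _ hD u u₁ u₂ u₃ cw d₁ d₂ d₃
    have k₂ := hc.sum F _ _ _ _ _ _ _ _ _ (mapUU W f l ▸ (u.map f).ne_zero)
      (mapHH W f _ _ ▸ (u₁.map f).ne_zero) (mapHH W f _ _ ▸ (u₂.map f).ne_zero)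
      (mapHH W f _ _ ▸ (u₃.map f).ne_zero) (mapCw W f cw)
    refine ⟨t₃, w₃, p₃, ?_, ?_⟩
    · change -(P₁ + P₂) = _
      rw [show P₁ = _ from e₁, show P₂ = _ from e₂]
      exact neg_eq_of_add_eq_zero_right k₂
    · change _ = -(o₁ + o₂) * _
      rw [neg_eq_of_add_eq_zero_right k₁]
      exact d₃
  have hn : ∀ x ∈ S, -x ∈ S := fun x hx => by simpa using h3 x hx 0 h0
  exact ⟨{ carrier := S
           zero_mem' := h0
           add_mem' := fun {x y} hx hy => by simpa using hn _ (h3 x hx y hy)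
           neg_mem' := fun {x} hx => hn x hx }, fun P o => Iff.rfl⟩

end Pool.Agent.MP_b2c033_nt.UH
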