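import Pool.Agent.MP_b2c033_nt.UH.Spec

/-! Assembly of the Frobenius relation at all primes. -/

namespace Pool.Agent.MP_b2c033_nt.UH

open WeierstrassCurve

namespace H4ax

lemma good (hvc : S_FVC) (h5 : S_F5) (ha : S_HA) (h2 : S_F2) (h3a : S_F3a) (h3b : S_F3b)
    (h23 : S_F23) (p : ℕ) [hp : Fact p.Prime] (V : WeierstrassCurve (ZMod p)) (hV : V.Δ ≠ 0) :
    FR p V (p - cnt V) 1 ∧ ((p : ℤ) - cnt V) ^ 2 < 4 * p := by
  obtain ⟨k2, k3⟩ := h23 hvc h2 h3a h3b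
  by_cases e2 : p = 2
  · subst e2
    exact k2 V hV
  by_cases e3 : p = 3
  · subst e3
    refine ⟨(k3 V hV).1, ?_⟩
    have := (k3 V hV).2
    push_cast
    omega
  have p5 : 5 ≤ p := hp.out.five_le_of_ne_two_of_ne_three e2 e3
  have n2 : (2 : ZMod p) ≠ 0 := fun q => by
    have := (ZMod.natCast_eq_zero_iff 2 p).1 (by exact_mod_cast q)
    have := Nat.le_of_dvd two_pos this
    omega
  have n3 : (3 : ZMod p) ≠ 0 := fun q => by
    have := (ZMod.natCast_eq_zero_iff 3 p).1 (by exact_mod_cast q)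
    have := Nat.le_of_dvd three_pos this
    omega
  let i2 := invertibleOfNonzero n2
  let i3 := invertibleOfNonzero n3
  obtain ⟨C, hC⟩ := V.exists_variableChange_isShortNF
  have e : C • V = ⟨0, 0, 0, (C • V).a₄, (C • V).a₆⟩ := by
    ext <;> simp
  have hD : (C • V).Δ ≠ 0 := by
    rw [variableChange_Δ]
    exact mul_ne_zero (pow_ne_zero _ (Units.ne_zero _)) hV
  have f1 := h5 p (C • V).a₄ (C • V).a₆ p5 (e ▸ hD)
  have f2 := ha p (C • V).a₄ (C • V).a₆ p5 (e ▸ hD)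
  rw [← e, (hvc p V C).1] at f1 f2
  exact ⟨(hvc p V C).2 _ _ f1, f2⟩

lemma bad (hvc : S_FVC) (hn : S_FN) (hc : S_FC) (hs : S_FS)
    (p : ℕ) [hp : Fact p.Prime] (V : WeierstrassCurve (ZMod p)) (hV : V.Δ = 0) :
    FR p V (p - cnt V) 0 ∧ (V.c₄ = 0 → (p : ℤ) - cnt V = 0) ∧
      (V.c₄ ≠ 0 → (p : ℤ) - cnt V = 1 ∨ (p : ℤ) - cnt V = -1) := by
  obtain ⟨C, a, b, e⟩ := hn p V hV
  obtain ⟨c1, c2, c3⟩ := hc p a b
  obtain ⟨s1, s2, s3⟩ := hs p a b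
  obtain ⟨v1, v2⟩ := hvc p V C
  have h4 : (a ^ 2 + 4 * b) ^ 2 = ((C.u⁻¹ : (ZMod p)ˣ) : ZMod p) ^ 4 * V.c₄ := by
    rw [← variableChange_c₄, e]
    simp [c₄, b₂, b₄]
  have hu : ((C.u⁻¹ : (ZMod p)ˣ) : ZMod p) ^ 4 ≠ 0 := pow_ne_zero _ (Units.ne_zero _)
  have hz : a ^ 2 + 4 * b = 0 ↔ V.c₄ = 0 := by
    rw [← pow_eq_zero_iff two_ne_zero, h4, mul_eq_zero, or_iff_right hu]
  rw [← e, v1] at c1
  rw [← e] at s1 s2 s3
  by_cases z : a ^ 2 + 4 * b = 0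
  · have k : (p : ℤ) - cnt V = 0 := by rw [c1, c2 z]; simp
    exact ⟨by rw [k]; exact v2 _ _ (s1 z), fun _ => k, fun q => absurd (hz.1 z) q⟩
  · rcases c3 z with w | w
    · have k : (p : ℤ) - cnt V = -1 := by rw [c1, w]; simp
      have ne : ¬ ∃ m : ZMod p, m ^ 2 + a * m - b = 0 := fun ⟨m, hm⟩ => by
        have : Nonempty {m : ZMod p // m ^ 2 + a * m - b = 0} := ⟨⟨m, hm⟩⟩
        exact (Nat.card_pos (α := {m : ZMod p // m ^ 2 + a * m - b = 0})).ne' w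
      exact ⟨k ▸ v2 _ _ (s3 z ne), fun q => absurd (hz.2 q) z, fun _ => Or.inr k⟩
    · have k : (p : ℤ) - cnt V = 1 := by rw [c1, w]; simp
      have ne : ∃ m : ZMod p, m ^ 2 + a * m - b = 0 := by
        obtain ⟨⟨m, hm⟩⟩ := (Nat.card_pos_iff.1 (w ▸ two_pos)).1
        exact ⟨m, hm⟩
      exact ⟨k ▸ v2 _ _ (s2 z ne), fun q => absurd (hz.2 q) z, fun _ => Or.inl k⟩

lemma dz (W : WeierstrassCurve ℤ) (p : ℕ) :
    (W.map (Int.castRingHom (ZMod p))).Δ = 0 ↔ (p : ℤ) ∣ W.Δ := by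
  rw [map_Δ, eq_intCast, ZMod.intCast_zmod_eq_zero_iff_dvd]

lemma cz (W : WeierstrassCurve ℤ) (p : ℕ) :
    (W.map (Int.castRingHom (ZMod p))).c₄ = 0 ↔ (p : ℤ) ∣ W.c₄ := by
  rw [map_c₄, eq_intCast, ZMod.intCast_zmod_eq_zero_iff_dvd]

end H4ax

open H4ax in
theorem h4a : S_H4a := by
  intro hvc h5 ha h2 h3a h3b h23 hn hc hs
  have hasse : ∀ (W : WeierstrassCurve ℤ) (p : ℕ), p.Prime → ¬ (p : ℤ) ∣ W.Δ →
      apz W p ^ 2 < 4 * p := fun W p hp hd =>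
    have := Fact.mk hp
    (good hvc h5 ha h2 h3a h3b h23 p _ (mt (dz W p).1 hd)).2
  have cusp : ∀ (W : WeierstrassCurve ℤ) (p : ℕ), p.Prime → (p : ℤ) ∣ W.Δ → (p : ℤ) ∣ W.c₄ →
      apz W p = 0 := fun W p hp hd h4 =>
    have := Fact.mk hp
    (bad hvc hn hc hs p _ ((dz W p).2 hd)).2.1 ((cz W p).2 h4)
  have node : ∀ (W : WeierstrassCurve ℤ) (p : ℕ), p.Prime → (p : ℤ) ∣ W.Δ → ¬ (p : ℤ) ∣ W.c₄ →
      apz W p = 1 ∨ apz W p = -1 := fun W p hp hd h4 =>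
    have := Fact.mk hp
    (bad hvc hn hc hs p _ ((dz W p).2 hd)).2.2 (mt (cz W p).1 h4)
  refine ⟨fun W p _ => ?_, hasse, cusp, node, fun W p hp => ?_⟩
  · by_cases hd : (p : ℤ) ∣ W.Δ
    · rw [epz, if_pos hd]
      exact (bad hvc hn hc hs p _ ((dz W p).2 hd)).1
    · rw [epz, if_neg hd]
      exact (good hvc h5 ha h2 h3a h3b h23 p _ (mt (dz W p).1 hd)).1
  · have p2 : (2 : ℤ) ≤ p := by exact_mod_cast hp.two_le
    by_cases hd : (p : ℤ) ∣ W.Δ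
    · by_cases h4 : (p : ℤ) ∣ W.c₄
      · rw [cusp W p hp hd h4, abs_zero]
        omega
      · rcases node W p hp hd h4 with k | k <;> rw [k] <;> simp <;> omega
    · have k := hasse W p hp hd
      rw [← sq_abs] at k
      by_contra q
      have q1 : (p : ℤ) + 1 ≤ |apz W p| := by omega
      nlinarith [sq_nonneg ((p : ℤ) - 1)]

end Pool.Agent.MP_b2c033_nt.UH
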