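import Pool.Agent.MP_b2c033_nt.UH.Spec

/-! The Honda congruence from the Frobenius relation. -/

namespace Pool.Agent.MP_b2c033_nt.UH

open WeierstrassCurve PowerSeries

noncomputable section

namespace H5ax

section hom

variable {R S : Type} [CommRing R] [CommRing S] (φ : R →+* S) (W : WeierstrassCurve ℤ) {t w : R}

lemma eq0_map (h : Eq0 (bc W R) t w) : Eq0 (bc W S) (φ t) (φ w) := by
  have := congrArg φ h
  simpa [Eq0] using this

lemma hh_map (t w : R) : φ (HH (bc W R) t w) = HH (bc W S) (φ t) (φ w) := by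
  simp [HH, map_ofNat]

end hom

/-- the Euler derivation -/
def eu (f : ℤ⟦X⟧) : ℤ⟦X⟧ := X * derivative ℤ f

lemma eu_der : Der eu := ⟨fun a b => by simp [eu, mul_add], fun a b => by
  simp only [eu, Derivation.leibniz, smul_eq_mul]
  ring⟩

lemma coeff_eu (f : ℤ⟦X⟧) (n : ℕ) : coeff n (eu f) = coeff n f * n := by
  cases n with
  | zero => simp [eu]
  | succ n => rw [eu, coeff_succ_X_mul, coeff_derivative, Nat.cast_succ]

lemma eu_expand {p : ℕ} (hp : p ≠ 0) (f : ℤ⟦X⟧) :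
    eu (expand p hp f) = p * expand p hp (eu f) := by
  ext n
  rw [coeff_eu, ← nsmul_eq_mul, map_nsmul, coeff_expand, coeff_expand, coeff_eu]
  split_ifs with h
  · obtain ⟨m, rfl⟩ := h
    rw [Nat.mul_div_cancel_left _ (Nat.pos_of_ne_zero hp), nsmul_eq_mul]
    push_cast
    ring
  · simp

lemma map_frob {p : ℕ} [Fact p.Prime] (hp : p ≠ 0) (k : Type) [Field k] [CharP k p] (a : ℤ⟦X⟧) :
    PowerSeries.map (Int.castRingHom k) (expand p hp a) =
      PowerSeries.map (Int.castRingHom k) a ^ p := by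
  have e : PowerSeries.map (frobenius k p) (expand p hp (PowerSeries.map (Int.castRingHom k) a)) =
      PowerSeries.map (Int.castRingHom k) a ^ p := MvPowerSeries.map_frobenius_expand p hp
  rw [← e, ← map_expand]
  ext n
  simp only [coeff_map, eq_intCast, map_intCast]

lemma cc_map (k : Type) [Field k] {a : ℤ⟦X⟧} (h : constantCoeff a = 0) :
    constantCoeff (PowerSeries.map (Int.castRingHom k) a) = 0 := by
  rw [← coeff_zero_eq_constantCoeff_apply, coeff_map, coeff_zero_eq_constantCoeff_apply, h,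
    map_zero]

lemma one_add (x : ℤ⟦X⟧) (hx : x ∈ RingHom.ker (constantCoeff (R := ℤ))) : IsUnit (1 + x) := by
  rw [isUnit_iff_constantCoeff, map_add, RingHom.mem_ker.1 hx]
  simp

lemma hh_unit (W : WeierstrassCurve ℤ) {t w : ℤ⟦X⟧} (ht : constantCoeff t = 0)
    (hw : constantCoeff w = 0) : IsUnit (HH (bc W ℤ⟦X⟧) t w) := by
  rw [isUnit_iff_constantCoeff, hh_map, ht, hw]
  simp [HH]

lemma dv_expand {p : ℕ} (hp : p ≠ 0) (h : ℤ⟦X⟧) (n : ℕ) :
    coeff n (expand p hp h) = dv (fun m => coeff m h) p n := coeff_expand p hp h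

lemma pw_pow {p : ℕ} [Fact p.Prime] {K : Type} [Field K] [CharP K p] (V : WeierstrassCurve K)
    {T U : K} (hU : U ≠ 0) : pw V (T ^ p) (U ^ p) = pa V ((T / U) ^ p) ((-1 / U) ^ p) := by
  rw [pw, if_neg (pow_ne_zero _ hU), div_pow, div_pow, neg_one_pow_char]

end H5ax

open H5ax in
theorem h5a : S_H5a := by
  classical
  intro cw grp h4 tr lg W p t w h hp ht hw he hd n
  have := Fact.mk hp
  let k := AlgebraicClosure (ZMod p)
  let K := FractionRing k⟦X⟧
  let i : k⟦X⟧ →+* K := algebraMap k⟦X⟧ K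
  have inj : Function.Injective i := IsFractionRing.injective _ _
  have : CharP K p := charP_of_injective_ringHom (f := i.comp C) (i.comp C).injective p
  let c : ℤ⟦X⟧ →+* k⟦X⟧ := PowerSeries.map (Int.castRingHom k)
  let f : ℤ⟦X⟧ →+* K := i.comp c
  let σ : ℤ⟦X⟧ →+* ℤ⟦X⟧ := (expand p hp.ne_zero : ℤ⟦X⟧ →ₐ[ℤ] ℤ⟦X⟧)
  have fσ : ∀ a, f (σ a) = f a ^ p := fun a =>
    (congrArg i (map_frob hp.ne_zero k a)).trans (map_pow i _ _)
  obtain ⟨G, hG⟩ := grp _ K W (RingHom.ker (constantCoeff (R := ℤ))) eu f one_add eu_der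
  have step : ∀ t w o, FP (bc W ℤ⟦X⟧) (RingHom.ker (constantCoeff (R := ℤ))) t w →
      eu t = o * HH (bc W ℤ⟦X⟧) t w →
      FP (bc W ℤ⟦X⟧) (RingHom.ker (constantCoeff (R := ℤ))) (σ t) (σ w) ∧
        eu (σ t) = p * σ o * HH (bc W ℤ⟦X⟧) (σ t) (σ w) := fun t w o a b =>
    ⟨⟨(constantCoeff_expand p hp.ne_zero t).trans a.ht,
      (constantCoeff_expand p hp.ne_zero w).trans a.hw, eq0_map σ W a.eqn⟩, by
        rw [← hh_map σ W, mul_assoc, ← map_mul, ← b]
        exact eu_expand hp.ne_zero t⟩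
  have a0 : FP (bc W ℤ⟦X⟧) (RingHom.ker (constantCoeff (R := ℤ))) t w := ⟨ht, hw, he⟩
  obtain ⟨a1, b1⟩ := step t w h a0 hd
  obtain ⟨a2, b2⟩ := step _ _ _ a1 b1
  have m0 := (hG _ _).2 ⟨_, _, a0, rfl, hd⟩
  have m1 := (hG _ _).2 ⟨_, _, a1, rfl, b1⟩
  have m2 := (hG _ _).2 ⟨_, _, a2, rfl, b2⟩
  have rel : epz W p • pw (bc W K) (f (σ (σ t))) (f (σ (σ w))) -
      apz W p • pw (bc W K) (f (σ t)) (f (σ w)) + (p : ℤ) • pw (bc W K) (f t) (f w) = 0 := by
    simp only [fσ]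
    by_cases hU : f w = 0
    · simp [pw, hU, hp.ne_zero]
    have e : (W.map (Int.castRingHom (ZMod p))).map (ZMod.castHom (dvd_refl p) K) = bc W K := by
      rw [map_map]
      exact congrArg W.map (RingHom.ext_int _ _)
    have ns := cw.ns K (bc W K) (f t) (f w) (eq0_map f W he)
      (hh_map f W t w ▸ ((hh_unit W ht hw).map f).ne_zero) hU
    have := h4.rel W p K (i.comp C) (f t / f w) (-1 / f w) (tr k K (bc W k⟦X⟧) i (c t) (c w) inj
      (cc_map k ht) (cc_map k hw) (eq0_map c W he) fun q => hU (by simp [f, q]))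
    rw [e] at this
    rw [pw_pow _ (pow_ne_zero p hU), pw_pow _ hU, div_pow, pw, if_neg hU]
    simpa only [div_pow, neg_one_pow_char] using this ns
  have m3 := G.add_mem (G.sub_mem (G.zsmul_mem m2 (epz W p)) (G.zsmul_mem m1 (apz W p)))
    (G.zsmul_mem m0 p)
  simp only [Prod.smul_mk, Prod.mk_sub_mk, Prod.mk_add_mk, rel] at m3
  obtain ⟨t₃, w₃, a3, z3, b3⟩ := (hG _ _).1 m3
  have z : f t₃ = 0 := (cw.inj K (bc W K) (f t₃) (f w₃) 0 0 (eq0_map f W a3.eqn)
    (hh_map f W t₃ w₃ ▸ ((hh_unit W a3.ht a3.hw).map f).ne_zero) (by simp [Eq0]) (by simp [HH])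
    (by rw [← z3, pw, if_pos rfl])).1
  have dvd : (p : ℤ⟦X⟧) ∣ t₃ := by
    have z' : c t₃ = 0 := inj (z.trans (map_zero i).symm)
    have : ∀ m, (p : ℤ) ∣ coeff m t₃ := fun m => (CharP.intCast_eq_zero_iff k p _).1 (by
      simpa [c] using congrArg (coeff m) z')
    choose q hq using this
    refine ⟨mk q, PowerSeries.ext fun m => ?_⟩
    rw [← nsmul_eq_mul, map_nsmul, coeff_mk, hq, nsmul_eq_mul]
  obtain ⟨r, s, hs, hr⟩ := lg W p t₃ w₃ _ hp a3.ht a3.hw a3.eqn dvd b3 n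
  refine ⟨r, s, hs, mul_left_cancel₀ (Int.natCast_ne_zero.2 hp.ne_zero) ?_⟩
  have e2 : σ (σ h) = expand (p ^ 2) (pow_ne_zero 2 hp.ne_zero) h := by
    simp only [sq]
    exact (expand_mul p hp.ne_zero p hp.ne_zero h).symm
  have e1 : σ h = expand p hp.ne_zero h := rfl
  rw [map_mul, map_natCast, e2, e1] at hr
  simp only [← nsmul_eq_mul, map_add, map_sub, map_zsmul, map_nsmul, dv_expand] at hr
  simp only [nsmul_eq_mul, zsmul_eq_mul, Int.cast_id, Int.cast_natCast] at hr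
  linear_combination hr

end

end Pool.Agent.MP_b2c033_nt.UH
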