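import Pool.Agent.MP_b2c033_nt.UH.Spec
import Pool.Agent.MP_c481b3_nt.H81.Frob

/-! The strict bound of Hasse over a prime field. -/

namespace Pool.Agent.MP_b2c033_nt.UH

open Finset

namespace HAx

open Pool.Agent.MP_c481b3_nt.H81

variable (p : ℕ) [Fact p.Prime]

theorem fixed {k : Type} [Field k] [Algebra (ZMod p) k] {x : k} (h : x ^ p ^ 1 = x) :
    ∃ a : ZMod p, algebraMap (ZMod p) k a = x := by
  have : CharP k p := charP_of_injective_algebraMap (algebraMap (ZMod p) k).injective p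
  have h1 := (Subfield.mem_bot_iff_pow_eq_self k p).2 (pow_one p ▸ h)
  exact (bot_le : ⊥ ≤ (algebraMap (ZMod p) k).fieldRange) h1

theorem key (A B : ZMod p) (h2 : (2 : ZMod p) ≠ 0) (h3 : (3 : ZMod p) ≠ 0)
    (hD : 4 * A ^ 3 + 27 * B ^ 2 ≠ 0) (t : ℤ) (ht : ¬(p : ℤ) ∣ t) :
    1 ≤ t ^ 2 - ((p : ℤ) - cnt (⟨0, 0, 0, A, B⟩ : WeierstrassCurve (ZMod p))) * t + p := by
  classical
  let k := AlgebraicClosure (ZMod p)
  let i := algebraMap (ZMod p) k
  have hi : Function.Injective i := i.injective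
  have hG : Good (i A) (i B) := Good.map ⟨h2, hD⟩ i
  have fx : ∀ a : ZMod p, i a ^ p ^ 1 = i a := fun a => by rw [← map_pow, pow_one, ZMod.pow_card]
  have h3' : (3 : k) ≠ 0 := by rw [← map_ofNat i 3]; exact (map_ne_zero i).2 h3
  let T := univ.filter fun v : ZMod p × ZMod p => v.2 ^ 2 = v.1 ^ 3 + A * v.1 + B
  have hT : cnt (⟨0, 0, 0, A, B⟩ : WeierstrassCurve (ZMod p)) = T.card := by
    refine Nat.subtype_card _ fun v => ?_
    rw [WeierstrassCurve.Affine.equation_iff, mem_filter]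
    simp
  have eq : ∀ v ∈ T, i v.2 ^ 2 = i v.1 ^ 3 + i A * i v.1 + i B := fun v hv => by
    simpa using congrArg i (mem_filter.1 hv).2
  have hN : Nat.card {P : Pt (i A) (i B) // xc P ^ p ^ 1 = xc P ∧ yc P ^ p ^ 1 = yc P} =
      T.card + 1 := by
    have inj : Set.InjOn (fun v : ZMod p × ZMod p => pt (i A) (i B) (i v.1) (i v.2)) T :=
      fun v hv w hw e => Prod.ext
        (hi (by simpa [xc_pt hG (eq v hv), xc_pt hG (eq w hw)] using congrArg xc e))
        (hi (by simpa [yc_pt hG (eq v hv), yc_pt hG (eq w hw)] using congrArg yc e))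
    rw [← card_image_of_injOn inj, ← card_insert_of_notMem (a := 0) (by
      simp only [mem_image, not_exists, not_and]
      exact fun v hv => pt_ne hG (eq v hv))]
    refine Nat.subtype_card _ fun P => ?_
    simp only [mem_insert, mem_image]
    constructor
    · rintro (rfl | ⟨v, hv, rfl⟩)
      · simp [(Fact.out : p.Prime).ne_zero]
      · rw [xc_pt hG (eq v hv), yc_pt hG (eq v hv)]
        exact ⟨fx _, fx _⟩
    · rintro ⟨hx, hy⟩
      by_cases hP : P = 0
      · exact Or.inl hP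
      obtain ⟨a, ha⟩ := fixed p hx
      obtain ⟨b, hb⟩ := fixed p hy
      refine Or.inr ⟨(a, b), mem_filter.2 ⟨mem_univ _, hi ?_⟩, ?_⟩
      · simpa [i, ha, hb] using eqn hP
      · simp only [i, ha, hb]
        exact pt_self hP
  have ht' : (t : k) ≠ 0 := fun e => ht ((CharP.intCast_eq_zero_iff k p t).1 e)
  obtain ⟨C, hC, h, -⟩ := frob_kernel hG h3' p 1 one_ne_zero (fx A) (fx B) ht'
  rw [hN] at h
  push_cast at h
  have c1 : 0 < C.card := card_pos.2 ⟨0, hC.zero⟩
  have c2 : (1 : ℤ) ≤ C.card := by exact_mod_cast c1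
  rw [hT]
  rw [h] at c2
  linarith

theorem arith (q a : ℤ) (hq : 2 ≤ q) (h : ∀ t : ℤ, ¬q ∣ t → 1 ≤ t ^ 2 - a * t + q) :
    a ^ 2 < 4 * q := by
  obtain ⟨m, hm⟩ : ∃ m : ℤ, a = 2 * m ∨ a = 2 * m + 1 := ⟨a / 2, by omega⟩
  by_cases d : q ∣ m
  · have d1 : ¬q ∣ m + 1 := fun e => by
      have := Int.le_of_dvd one_pos ((dvd_add_right d).1 e)
      omega
    have h1 := h _ d1
    rcases hm with rfl | rfl
    · obtain ⟨c, rfl⟩ := d
      by_cases c0 : c = 0
      · subst c0
        simp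
        omega
      · have c1 : 1 ≤ c ^ 2 := by
          have := sq_pos_of_ne_zero c0
          omega
        nlinarith [mul_le_mul_of_nonneg_left c1 (sq_nonneg q)]
    · nlinarith
  · have h1 := h _ d
    rcases hm with rfl | rfl <;> nlinarith

end HAx

theorem ha : S_HA := by
  intro p _ A B h5 hD
  have nd : ∀ n : ℕ, 0 < n → n < 5 → ((n : ℕ) : ZMod p) ≠ 0 := fun n n0 n5 e => by
    have := Nat.le_of_dvd n0 ((ZMod.natCast_eq_zero_iff n p).1 e)
    omega
  have h2 : (2 : ZMod p) ≠ 0 := by exact_mod_cast nd 2 (by norm_num) (by norm_num)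
  have h3 : (3 : ZMod p) ≠ 0 := by exact_mod_cast nd 3 (by norm_num) (by norm_num)
  refine HAx.arith _ _ (by omega) (HAx.key p A B h2 h3 fun e => hD ?_)
  simp only [WeierstrassCurve.Δ, WeierstrassCurve.b₂, WeierstrassCurve.b₄, WeierstrassCurve.b₆,
    WeierstrassCurve.b₈]
  linear_combination (-16) * e

end Pool.Agent.MP_b2c033_nt.UH
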