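import Pool.Agent.MP_b2c033_nt.UH.Spec

/-! The formal logarithm on `p ℤ⟦X⟧`. -/

namespace Pool.Agent.MP_b2c033_nt.UH

open Polynomial WeierstrassCurve
open Pool.Agent.MP_b2c033_nt.H87
open scoped PowerSeries

noncomputable section

namespace LOGx

theorem wpoly (W : WeierstrassCurve ℤ) (t w : ℤ⟦X⟧) (ht : (PowerSeries.X : ℤ⟦X⟧) ∣ t)
    (hw : (PowerSeries.X : ℤ⟦X⟧) ∣ w) (he : Eq0 (bc W ℤ⟦X⟧) t w) (N : ℕ) :
    ∃ P : ℤ[X], (PowerSeries.X : ℤ⟦X⟧) ^ (N + 1) ∣ w - aeval t P := by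
  induction N with
  | zero => exact ⟨0, by simpa using hw⟩
  | succ N ih =>
    obtain ⟨P, hP⟩ := ih
    have hv : (PowerSeries.X : ℤ⟦X⟧) ∣ aeval t P := by
      have h1 : (PowerSeries.X : ℤ⟦X⟧) ∣ w - aeval t P :=
        (dvd_pow_self _ (Nat.succ_ne_zero N)).trans hP
      have h2 : aeval t P = w - (w - aeval t P) := by ring
      rw [h2]
      exact dvd_sub hw h1
    refine ⟨X ^ 3 + C W.a₁ * X * P + C W.a₂ * X ^ 2 * P + C W.a₃ * P ^ 2 + C W.a₄ * X * P ^ 2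
      + C W.a₆ * P ^ 3, ?_⟩
    simp only [map_add, map_mul, map_pow, aeval_X, eq_intCast, map_intCast]
    generalize aeval t P = v at hP hv ⊢
    have he' : w = t ^ 3 + (W.a₁ : ℤ⟦X⟧) * t * w + (W.a₂ : ℤ⟦X⟧) * t ^ 2 * w
        + (W.a₃ : ℤ⟦X⟧) * w ^ 2 + (W.a₄ : ℤ⟦X⟧) * t * w ^ 2 + (W.a₆ : ℤ⟦X⟧) * w ^ 3 := by
      simpa [Eq0, bc] using he
    obtain ⟨t', rfl⟩ := ht
    obtain ⟨w', rfl⟩ := hw
    obtain ⟨v', rfl⟩ := hv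
    obtain ⟨d, hd⟩ := hP
    refine ⟨d * ((W.a₁ : ℤ⟦X⟧) * t' + (W.a₂ : ℤ⟦X⟧) * PowerSeries.X * t' ^ 2
      + (W.a₃ : ℤ⟦X⟧) * (w' + v') + (W.a₄ : ℤ⟦X⟧) * PowerSeries.X * t' * (w' + v')
      + (W.a₆ : ℤ⟦X⟧) * PowerSeries.X * (w' ^ 2 + w' * v' + v' ^ 2)), ?_⟩
    linear_combination he' + PowerSeries.X * ((W.a₁ : ℤ⟦X⟧) * t'
      + (W.a₂ : ℤ⟦X⟧) * PowerSeries.X * t' ^ 2
      + (W.a₃ : ℤ⟦X⟧) * (w' + v') + (W.a₄ : ℤ⟦X⟧) * PowerSeries.X * t' * (w' + v')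
      + (W.a₆ : ℤ⟦X⟧) * PowerSeries.X * (w' ^ 2 + w' * v' + v' ^ 2)) * hd

theorem hpoly (W : WeierstrassCurve ℤ) (t w h g : ℤ⟦X⟧) (ht : (PowerSeries.X : ℤ⟦X⟧) ∣ t)
    (hw : (PowerSeries.X : ℤ⟦X⟧) ∣ w) (he : Eq0 (bc W ℤ⟦X⟧) t w)
    (hh : g = h * HH (bc W ℤ⟦X⟧) t w) (N : ℕ) :
    ∃ P : ℤ[X], (PowerSeries.X : ℤ⟦X⟧) ^ N ∣ h - g * aeval t P := by
  induction N with
  | zero => exact ⟨0, by simp⟩
  | succ N ih =>
    obtain ⟨P, hP⟩ := ih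
    obtain ⟨Q, hQ⟩ := wpoly W t w ht hw he N
    refine ⟨1 + (C W.a₁ * X + C W.a₂ * X ^ 2 + 2 * C W.a₃ * Q + 2 * C W.a₄ * X * Q
      + 3 * C W.a₆ * Q ^ 2) * P, ?_⟩
    simp only [map_add, map_mul, map_pow, aeval_X, eq_intCast, map_intCast, map_one,
      map_ofNat]
    generalize aeval t P = u at hP ⊢
    generalize aeval t Q = v at hQ ⊢
    have hh' : g = h * (1 - (W.a₁ : ℤ⟦X⟧) * t - (W.a₂ : ℤ⟦X⟧) * t ^ 2 - 2 * (W.a₃ : ℤ⟦X⟧) * w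
        - 2 * (W.a₄ : ℤ⟦X⟧) * t * w - 3 * (W.a₆ : ℤ⟦X⟧) * w ^ 2) := by
      simpa [HH, bc] using hh
    obtain ⟨t', rfl⟩ := ht
    obtain ⟨w', rfl⟩ := hw
    obtain ⟨d, hd⟩ := hP
    obtain ⟨e, he2⟩ := hQ
    refine ⟨d * ((W.a₁ : ℤ⟦X⟧) * t' + (W.a₂ : ℤ⟦X⟧) * PowerSeries.X * t' ^ 2
      + 2 * (W.a₃ : ℤ⟦X⟧) * w' + 2 * (W.a₄ : ℤ⟦X⟧) * PowerSeries.X * t' * w'
      + 3 * (W.a₆ : ℤ⟦X⟧) * PowerSeries.X * w' ^ 2)
      + e * (2 * (W.a₃ : ℤ⟦X⟧) + 2 * (W.a₄ : ℤ⟦X⟧) * PowerSeries.X * t'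
        + 3 * (W.a₆ : ℤ⟦X⟧) * (PowerSeries.X * w' + v)) * g * u, ?_⟩
    linear_combination (-1) * hh' + PowerSeries.X * ((W.a₁ : ℤ⟦X⟧) * t'
      + (W.a₂ : ℤ⟦X⟧) * PowerSeries.X * t' ^ 2
      + 2 * (W.a₃ : ℤ⟦X⟧) * w' + 2 * (W.a₄ : ℤ⟦X⟧) * PowerSeries.X * t' * w'
      + 3 * (W.a₆ : ℤ⟦X⟧) * PowerSeries.X * w' ^ 2) * hd
      + (2 * (W.a₃ : ℤ⟦X⟧) + 2 * (W.a₄ : ℤ⟦X⟧) * PowerSeries.X * t'
        + 3 * (W.a₆ : ℤ⟦X⟧) * (PowerSeries.X * w' + v)) * g * u * he2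

theorem coeff_X_der (f : ℤ⟦X⟧) (n : ℕ) :
    PowerSeries.coeff n (PowerSeries.X * PowerSeries.derivative ℤ f)
      = n * PowerSeries.coeff n f := by
  cases n with
  | zero => simp
  | succ n =>
    rw [PowerSeries.coeff_succ_X_mul, PowerSeries.coeff_derivative]
    push_cast
    ring

theorem good_pow (p : ℕ) (hp : p.Prime) (s : ℤ⟦X⟧) (n k : ℕ) :
    ∃ r u : ℤ, ¬ (p : ℤ) ∣ u ∧ PowerSeries.coeff n (PowerSeries.X *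
      PowerSeries.derivative ℤ ((p : ℤ⟦X⟧) * s) * ((p : ℤ⟦X⟧) * s) ^ k) * u = r * (p * n) := by
  obtain ⟨v, u, hu, hk⟩ := Nat.exists_eq_pow_mul_and_not_dvd (Nat.succ_ne_zero k) p hp.ne_one
  have hu0 : 0 < u := by
    rcases Nat.eq_zero_or_pos u with h | h
    · exact absurd (h ▸ dvd_zero p) hu
    · exact h
  have hvk : v ≤ k := by
    have h1 : v < p ^ v := Nat.lt_pow_self hp.one_lt
    have h2 : p ^ v ≤ p ^ v * u := Nat.le_mul_of_pos_right _ hu0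
    omega
  obtain ⟨j, rfl⟩ := Nat.exists_eq_add_of_le hvk
  refine ⟨(p : ℤ) ^ j * PowerSeries.coeff n (s ^ (v + j + 1)), u, ?_, ?_⟩
  · exact fun h => hu (Int.natCast_dvd_natCast.mp h)
  · have h1 := coeff_X_der (((p : ℤ⟦X⟧) * s) ^ (v + j + 1)) n
    have h2 : PowerSeries.X * PowerSeries.derivative ℤ (((p : ℤ⟦X⟧) * s) ^ (v + j + 1))
        = PowerSeries.C ((v + j + 1 : ℕ) : ℤ) * (PowerSeries.X *
          PowerSeries.derivative ℤ ((p : ℤ⟦X⟧) * s) * ((p : ℤ⟦X⟧) * s) ^ (v + j)) := by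
      rw [Derivation.leibniz_pow]
      simp only [Nat.add_sub_cancel, smul_eq_mul, nsmul_eq_mul, map_natCast]
      ring
    have h3 : ((p : ℤ⟦X⟧) * s) ^ (v + j + 1)
        = PowerSeries.C ((p : ℤ) ^ (v + j + 1)) * s ^ (v + j + 1) := by
      rw [mul_pow, map_pow, map_natCast]
    rw [h2, PowerSeries.coeff_C_mul, h3, PowerSeries.coeff_C_mul] at h1
    have h4 : ((v + j + 1 : ℕ) : ℤ) = (p : ℤ) ^ v * u := by
      have := congrArg (fun x : ℕ => (x : ℤ)) hk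
      simpa using this
    rw [h4] at h1
    have hp0 : (p : ℤ) ^ v ≠ 0 := pow_ne_zero _ (by exact_mod_cast hp.ne_zero)
    apply mul_left_cancel₀ hp0
    linear_combination h1

theorem good_poly (p : ℕ) (hp : p.Prime) (s : ℤ⟦X⟧) (n : ℕ) (P : ℤ[X]) :
    ∃ r u : ℤ, ¬ (p : ℤ) ∣ u ∧ PowerSeries.coeff n (PowerSeries.X *
      PowerSeries.derivative ℤ ((p : ℤ⟦X⟧) * s) * aeval ((p : ℤ⟦X⟧) * s) P) * u
        = r * (p * n) := by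
  have hpz : Prime (p : ℤ) := Nat.prime_iff_prime_int.mp hp
  induction P using Polynomial.induction_on' with
  | add P Q hP hQ =>
    obtain ⟨r, u, hu, h⟩ := hP
    obtain ⟨r', u', hu', h'⟩ := hQ
    refine ⟨r * u' + r' * u, u * u', ?_, ?_⟩
    · intro hd
      rcases hpz.dvd_or_dvd hd with h1 | h1
      · exact hu h1
      · exact hu' h1
    · rw [map_add, mul_add, map_add]
      linear_combination u' * h + u * h'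
  | monomial k a =>
    obtain ⟨r, u, hu, h⟩ := good_pow p hp s n k
    refine ⟨a * r, u, hu, ?_⟩
    have h1 : PowerSeries.X * PowerSeries.derivative ℤ ((p : ℤ⟦X⟧) * s)
        * aeval ((p : ℤ⟦X⟧) * s) (monomial k a) = PowerSeries.C a * (PowerSeries.X *
          PowerSeries.derivative ℤ ((p : ℤ⟦X⟧) * s) * ((p : ℤ⟦X⟧) * s) ^ k) := by
      rw [aeval_monomial]
      simp only [eq_intCast]
      ring
    rw [h1, PowerSeries.coeff_C_mul]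
    linear_combination a * h

end LOGx

theorem log : S_LOG := by
  intro W p t w h hp ht hw he hpt hh n
  obtain ⟨P, hP⟩ := LOGx.hpoly W t w h _ (PowerSeries.X_dvd_iff.mpr ht)
    (PowerSeries.X_dvd_iff.mpr hw) he hh (n + 1)
  obtain ⟨s, rfl⟩ := hpt
  obtain ⟨r, u, hu, h1⟩ := LOGx.good_poly p hp s n P
  refine ⟨r, u, hu, ?_⟩
  have h2 := PowerSeries.X_pow_dvd_iff.mp hP n (Nat.lt_succ_self n)
  rw [map_sub, sub_eq_zero] at h2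
  rw [h2]
  exact h1

end

end Pool.Agent.MP_b2c033_nt.UH
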