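import Pool.Agent.MP_b2c033_nt.UH.Spec

/-! Row MIN: the smooth model comes from the minimal model by an integral change. -/

namespace Pool.Agent.MP_b2c033_nt.UH

open Filter Polynomial WeierstrassCurve
open Pool.Agent.MP_b2c033_nt.H87

namespace MINx

theorem quartic (x : ℚ) (c₀ c₁ c₂ c₃ : ℤ)
    (h : x ^ 4 + c₃ * x ^ 3 + c₂ * x ^ 2 + c₁ * x + c₀ = 0) : ∃ z : ℤ, (z : ℚ) = x := by
  have hi : IsIntegral ℤ x := by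
    refine ⟨X ^ 4 + C c₃ * X ^ 3 + C c₂ * X ^ 2 + C c₁ * X + C c₀, by monicity!, ?_⟩
    simp only [eval₂_add, eval₂_mul, eval₂_pow, eval₂_X, eval₂_C]
    simpa using h
  obtain ⟨z, hz⟩ := (IsIntegrallyClosed.isIntegral_iff (R := ℤ) (K := ℚ)).1 hi
  exact ⟨z, by simpa using hz⟩

theorem lam_int {p : ℕ} (hp : p.Prime) {n : ℤ} (h2 : 1 ≤ 2 * (p : ℚ) ^ n) :
    ∃ z : ℤ, (z : ℚ) = 2 * (p : ℚ) ^ n := by
  have hp2 : (2 : ℚ) ≤ p := by exact_mod_cast hp.two_le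
  rcases le_or_gt 0 n with hn | hn
  · lift n to ℕ using hn
    exact ⟨2 * p ^ n, by push_cast; rw [zpow_natCast]⟩
  · have h3 : (p : ℚ) ^ n ≤ (p : ℚ) ^ (-1 : ℤ) :=
      zpow_le_zpow_right₀ (by linarith) (by omega)
    rw [zpow_neg_one] at h3
    have h4 : (p : ℚ)⁻¹ ≤ 2⁻¹ := inv_anti₀ two_pos hp2
    exact ⟨1, by push_cast; linarith⟩

/-- the change of variables over the rationals -/
theorem chg (V V' : WeierstrassCurve ℚ) (L r s v : ℚ) (hL : L ≠ 0)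
    (e1 : V'.a₁ = L * V.a₁ + 2 * s) (e3 : V'.a₃ = L ^ 3 * V.a₃ + r * L * V.a₁ + 2 * v)
    (h2 : V'.b₂ = L ^ 2 * V.b₂ + 12 * r)
    (h4 : V'.b₄ = L ^ 4 * V.b₄ + L ^ 2 * V.b₂ * r + 6 * r ^ 2)
    (h6 : V'.b₆ = L ^ 6 * V.b₆ + 2 * r * L ^ 4 * V.b₄ + r ^ 2 * L ^ 2 * V.b₂ + 4 * r ^ 3) :
    V'.a₂ = L ^ 2 * V.a₂ - s * L * V.a₁ + 3 * r - s ^ 2 ∧
    V'.a₆ = L ^ 6 * V.a₆ + r * L ^ 4 * V.a₄ + r ^ 2 * L ^ 2 * V.a₂ + r ^ 3 - v * L ^ 3 * V.a₃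
      - v ^ 2 - r * v * L * V.a₁ ∧
    ∃ C : VariableChange ℚ, C • V = V' ∧ V'.Δ = L ^ 12 * V.Δ := by
  simp only [b₂, b₄, b₆] at h2 h4 h6
  rw [e1] at h2
  rw [e1, e3] at h4
  rw [e3] at h6
  have e2 : V'.a₂ = L ^ 2 * V.a₂ - s * L * V.a₁ + 3 * r - s ^ 2 := by
    linear_combination (1 / 4) * h2
  have e4 : V'.a₄ = L ^ 4 * V.a₄ - s * L ^ 3 * V.a₃ + 2 * r * L ^ 2 * V.a₂
      - (v + r * s) * L * V.a₁ + 3 * r ^ 2 - 2 * s * v := by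
    linear_combination (1 / 2) * h4
  have e6 : V'.a₆ = L ^ 6 * V.a₆ + r * L ^ 4 * V.a₄ + r ^ 2 * L ^ 2 * V.a₂ + r ^ 3
      - v * L ^ 3 * V.a₃ - v ^ 2 - r * v * L * V.a₁ := by
    linear_combination (1 / 4) * h6
  have hu : (((Units.mk0 L hL)⁻¹)⁻¹ : ℚˣ) = L := by simp
  have hC : (⟨(Units.mk0 L hL)⁻¹, r / L ^ 2, s / L, v / L ^ 3⟩ : VariableChange ℚ) • V = V' := by
    ext
    · rw [variableChange_a₁, e1, hu]; field_simp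
    · rw [variableChange_a₂, e2, hu]; field_simp
    · rw [variableChange_a₃, e3, hu]; field_simp
    · rw [variableChange_a₄, e4, hu]; field_simp
    · rw [variableChange_a₆, e6, hu]; field_simp
  refine ⟨e2, e6, _, hC, ?_⟩
  rw [← hC, variableChange_Δ, hu]

theorem core (W W' : WeierstrassCurve ℤ) (p : ℕ) (n : ℤ) (r : ℚ) (hp : p.Prime) (hΔ : W.Δ ≠ 0)
    (hW : MinW W) (h2 : (W'.b₂ : ℚ) = (2 * (p : ℚ) ^ n) ^ 2 * W.b₂ + 12 * r)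
    (h4 : (W'.b₄ : ℚ) = (2 * (p : ℚ) ^ n) ^ 4 * W.b₄ + (2 * (p : ℚ) ^ n) ^ 2 * W.b₂ * r + 6 * r ^ 2)
    (h6 : (W'.b₆ : ℚ) = (2 * (p : ℚ) ^ n) ^ 6 * W.b₆ + 2 * r * (2 * (p : ℚ) ^ n) ^ 4 * W.b₄
      + r ^ 2 * (2 * (p : ℚ) ^ n) ^ 2 * W.b₂ + 4 * r ^ 3) :
    ∃ m r' s v : ℤ, (m : ℚ) = 2 * (p : ℚ) ^ n ∧ (r' : ℚ) = r ∧ W'.a₁ = m * W.a₁ + 2 * s ∧
      W'.a₂ = m ^ 2 * W.a₂ - s * m * W.a₁ + 3 * r' - s ^ 2 ∧
      W'.a₃ = m ^ 3 * W.a₃ + r' * m * W.a₁ + 2 * v := by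
  have hp0 : (0 : ℚ) < p := by exact_mod_cast hp.pos
  have hpos : (0 : ℚ) < 2 * (p : ℚ) ^ n := by positivity
  obtain ⟨s, hs⟩ : ∃ s : ℚ, (W'.a₁ : ℚ) = 2 * (p : ℚ) ^ n * W.a₁ + 2 * s :=
    ⟨(W'.a₁ - 2 * (p : ℚ) ^ n * W.a₁) / 2, by ring⟩
  obtain ⟨v, hv⟩ : ∃ v : ℚ, (W'.a₃ : ℚ) =
      (2 * (p : ℚ) ^ n) ^ 3 * W.a₃ + r * (2 * (p : ℚ) ^ n) * W.a₁ + 2 * v :=
    ⟨(W'.a₃ - (2 * (p : ℚ) ^ n) ^ 3 * W.a₃ - r * (2 * (p : ℚ) ^ n) * W.a₁) / 2, by ring⟩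
  obtain ⟨e2, e6, C, hC, hD⟩ := chg (W.map (Int.castRingHom ℚ)) (W'.map (Int.castRingHom ℚ))
    (2 * (p : ℚ) ^ n) r s v hpos.ne' (by simpa using hs) (by simpa using hv)
    (by simpa using h2) (by simpa using h4) (by simpa using h6)
  simp only [map_a₁, map_a₂, map_a₃, map_a₄, map_a₆, map_Δ, eq_intCast] at e2 e6 hD
  have hle : |(W.Δ : ℚ)| ≤ |(W'.Δ : ℚ)| := by exact_mod_cast hW W' C hC
  have hD0 : (0 : ℚ) < |(W.Δ : ℚ)| := abs_pos.2 (by exact_mod_cast hΔ)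
  have h1 : 1 ≤ 2 * (p : ℚ) ^ n := by
    rw [hD, abs_mul, abs_of_pos (pow_pos hpos 12)] at hle
    by_contra hlt
    have := pow_lt_one₀ hpos.le (not_le.1 hlt) (n := 12) (by norm_num)
    nlinarith
  obtain ⟨m, hm⟩ := lam_int hp h1
  rw [← hm] at h2 h4 h6 hs hv e2 e6
  have b1 : (4 : ℚ) * W.b₈ = W.b₂ * W.b₆ - W.b₄ ^ 2 := by exact_mod_cast W.b_relation
  have b2 : (4 : ℚ) * W'.b₈ = W'.b₂ * W'.b₆ - W'.b₄ ^ 2 := by exact_mod_cast W'.b_relation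
  rw [h2, h4, h6] at b2
  obtain ⟨r4, hr4⟩ := quartic (4 * r) 0 (16 * (m ^ 6 * W.b₆ - W'.b₆)) (8 * (m ^ 4 * W.b₄))
    (m ^ 2 * W.b₂) (by push_cast; linear_combination (-64 * r) * h6)
  obtain ⟨r3, hr3⟩ := quartic (3 * r) (27 * (m ^ 8 * W.b₈ - W'.b₈)) (27 * (m ^ 6 * W.b₆))
    (9 * (m ^ 4 * W.b₄)) (m ^ 2 * W.b₂)
    (by push_cast; linear_combination (27 / 4 * (m : ℚ) ^ 8) * b1 - 27 / 4 * b2)
  obtain ⟨r', hr⟩ : ∃ z : ℤ, (z : ℚ) = r := ⟨r4 - r3, by push_cast; linarith⟩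
  subst hr
  obtain ⟨s', hs'⟩ := quartic s 0 0 (W'.a₂ - m ^ 2 * W.a₂ - 3 * r') (m * W.a₁)
    (by push_cast; linear_combination s ^ 2 * e2)
  obtain ⟨v', hv'⟩ := quartic v 0 0
    (W'.a₆ - m ^ 6 * W.a₆ - r' * m ^ 4 * W.a₄ - r' ^ 2 * m ^ 2 * W.a₂ - r' ^ 3)
    (m ^ 3 * W.a₃ + r' * m * W.a₁) (by push_cast; linear_combination v ^ 2 * e6)
  subst hs' hv'
  exact ⟨m, r', s', v', hm, rfl, by exact_mod_cast hs, by exact_mod_cast e2,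
    by exact_mod_cast hv⟩

end MINx

theorem min : S_MIN := by
  intro Λ _ _ O W p n c A B₀ B₁ C₀ C₁ C₂ C₃ x y ξ η hp hΔ hW hs
  have hp0 : (0 : ℚ) < p := by exact_mod_cast hp.pos
  have k2 := hs.h₂
  have k4 := hs.h₄
  have k6 := hs.h₆
  push_cast at k2 k4 k6
  obtain ⟨m, r, s, v, hm, hr, e1, e2, e3⟩ := MINx.core W
    ⟨B₁, A * C₂, B₀ * A * C₃, A ^ 2 * C₃ * C₁, A ^ 3 * C₃ ^ 2 * C₀⟩ p n (((p : ℚ) ^ n) ^ 2 * c)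
    hp hΔ hW (by rw [b₂]; push_cast; linear_combination -k2)
    (by rw [b₄]; push_cast; linear_combination (-1 / 8) * k4)
    (by rw [b₆]; push_cast; linear_combination (-1 / 16) * k6)
  simp only at e1 e2 e3
  have hm0 : m ≠ 0 := by
    have : (m : ℚ) ≠ 0 := by rw [hm]; positivity
    exact_mod_cast this
  generalize (p : ℚ) ^ n = u at hs hm hr
  have hm' : (m : Λ) = 2 * (u : Λ) := by exact_mod_cast congrArg (Rat.cast : ℚ → Λ) hm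
  have hr' : (r : Λ) = (u : Λ) ^ 2 * c := by exact_mod_cast congrArg (Rat.cast : ℚ → Λ) hr
  have hx : (m : Λ) ^ 2 * x = A * C₃ * ξ + r := by
    rw [hm', hr']; linear_combination -hs.hx
  refine ⟨m, r, s, v, ⟨hm0, e1, e2, e3⟩, hx, ?_⟩
  have e1' : (B₁ : Λ) = m * W.a₁ + 2 * s := by exact_mod_cast congrArg (Int.cast : ℤ → Λ) e1
  have e3' : (B₀ : Λ) * A * C₃ = m ^ 3 * W.a₃ + r * m * W.a₁ + 2 * v := by
    exact_mod_cast congrArg (Int.cast : ℤ → Λ) e3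
  have hy := hs.hy
  have h8 : (2 : Λ) * (u : Λ) ^ 3 * 4 = (m : Λ) ^ 3 := by rw [hm']; ring
  apply mul_left_cancel₀ (two_ne_zero : (2 : Λ) ≠ 0)
  linear_combination -hy - (2 * y + W.a₁ * x + W.a₃) * h8 - m * W.a₁ * hx
    + (A * C₃ * ξ) * e1' + e3'

end Pool.Agent.MP_b2c033_nt.UH
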