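import Pool.Agent.MP_b2c033_nt.UH.Spec
import Pool.Agent.MP_b2c033_nt.H87.P2

/-! The differential equation of a formal point: uniqueness and coefficients. -/

namespace Pool.Agent.MP_b2c033_nt.UH

open scoped PowerSeries
open Pool.Agent.MP_b2c033_nt.H87.P2x

namespace ODEx

theorem der_w {Λ : Type} [Field Λ] (W : WeierstrassCurve ℤ) {g t w : Λ⟦X⟧}
    (ht : PowerSeries.constantCoeff t = 0) (hw : PowerSeries.constantCoeff w = 0)
    (he : Eq0 (bc W Λ⟦X⟧) t w)
    (hd : PowerSeries.derivative Λ t = g * HH (bc W Λ⟦X⟧) t w) :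
    PowerSeries.derivative Λ w = g * KK (bc W Λ⟦X⟧) t w := by
  have hH : HH (bc W Λ⟦X⟧) t w ≠ 0 := fun h => by
    have := congrArg PowerSeries.constantCoeff h
    simp [HH, ht, hw] at this
  apply mul_right_cancel₀ hH
  have h := congrArg (PowerSeries.derivative Λ) he
  simp only [HH, KK, WeierstrassCurve.map_a₁, WeierstrassCurve.map_a₂, WeierstrassCurve.map_a₃,
    WeierstrassCurve.map_a₄, WeierstrassCurve.map_a₆, eq_intCast, map_add, Derivation.leibniz,
    Derivation.leibniz_pow, Derivation.map_intCast, smul_eq_mul, nsmul_eq_mul] at h hd ⊢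
  push_cast at h
  linear_combination h + (3 * t ^ 2 + W.a₁ * w + 2 * W.a₂ * t * w + W.a₄ * w ^ 2) * hd

theorem cong {R : Type} [CommRing R] (V : WeierstrassCurve R) {m t w t' w' : R} (g : R)
    (ht : m ∣ t - t') (hw : m ∣ w - w') :
    m ∣ g * HH V t w - g * HH V t' w' ∧ m ∣ g * KK V t w - g * KK V t' w' := by
  simp only [← Ideal.mem_span_singleton, ← Ideal.Quotient.eq] at ht hw ⊢
  simp only [HH, KK, map_add, map_sub, map_mul, map_pow, ht, hw, and_self]

section
variable {Λ : Type} [Field Λ] {B : Subring Λ} {n : ℕ} {f g : Λ⟦X⟧}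

theorem lo_sub (hf : Lo B n f) (hg : Lo B n g) : Lo B n (f - g) := fun k hk => by
  rw [map_sub]
  exact B.sub_mem (hf k hk) (hg k hk)

theorem lo_der [CharZero Λ] (hQ : ∀ c : ℚ, (c : Λ) ∈ B) (hf : Lo B n f)
    (hd : Lo B n (PowerSeries.derivative Λ f)) : Lo B (n + 1) f := fun k hk => by
  rcases Nat.lt_or_eq_of_le hk with h | rfl
  · exact hf k (by omega)
  · have hn : ((n : Λ) + 1) ≠ 0 := by exact_mod_cast Nat.succ_ne_zero n
    have h := hd n le_rfl
    rw [PowerSeries.coeff_derivative] at h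
    have h' := B.mul_mem h (hQ (1 / ((n : ℚ) + 1)))
    push_cast at h'
    rwa [mul_assoc, mul_one_div_cancel hn, mul_one] at h'

theorem lo_zero (h : PowerSeries.constantCoeff f = 0) : Lo B 0 f := fun k hk => by
  rw [Nat.le_zero.1 hk, PowerSeries.coeff_zero_eq_constantCoeff_apply, h]
  exact B.zero_mem

end

end ODEx

open ODEx

theorem uni : S_UNI := by
  intro W g t w t' w' ht hw ht' hw' he he' hd hd'
  have all : ∀ n : ℕ, PowerSeries.X ^ n ∣ t - t' ∧ PowerSeries.X ^ n ∣ w - w' := fun n => by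
    induction n with
    | zero => simp
    | succ n ih =>
      obtain ⟨k1, k2⟩ := cong (bc W ℚ⟦X⟧) g ih.1 ih.2
      rw [← hd, ← hd', ← map_sub] at k1
      rw [← der_w W ht hw he hd, ← der_w W ht' hw' he' hd', ← map_sub] at k2
      exact ⟨dvd_of_der (by simp [ht, ht']) k1, dvd_of_der (by simp [hw, hw']) k2⟩
  constructor <;> refine sub_eq_zero.1 (PowerSeries.ext fun n => ?_)
  · exact PowerSeries.X_pow_dvd_iff.1 (all (n + 1)).1 n n.lt_succ_self
  · exact PowerSeries.X_pow_dvd_iff.1 (all (n + 1)).2 n n.lt_succ_self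

theorem bd : S_BD := by
  intro Λ _ _ B W g t w hQ hg ht hw he hd
  have all : ∀ n, Lo B n t ∧ Lo B n w := fun n => by
    induction n with
    | zero => exact ⟨lo_zero ht, lo_zero hw⟩
    | succ n ih =>
      have hG : Lo B n g := fun k _ => hg k
      have c1 : Lo B n (1 : Λ⟦X⟧) := by simpa using (Lo.int (B := B) (n := n) 1)
      have c2 : Lo B n (2 : Λ⟦X⟧) := by simpa using (Lo.int (B := B) (n := n) 2)
      have c3 : Lo B n (3 : Λ⟦X⟧) := by simpa using (Lo.int (B := B) (n := n) 3)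
      refine ⟨lo_der hQ ih.1 ?_, lo_der hQ ih.2 ?_⟩
      · rw [hd]
        exact hG.mul (lo_sub (lo_sub (lo_sub (lo_sub (lo_sub c1 ((Lo.int W.a₁).mul ih.1))
          ((Lo.int W.a₂).mul (ih.1.pow 2))) ((c2.mul (Lo.int W.a₃)).mul ih.2))
          (((c2.mul (Lo.int W.a₄)).mul ih.1).mul ih.2)) ((c3.mul (Lo.int W.a₆)).mul (ih.2.pow 2)))
      · rw [der_w W ht hw he hd]
        exact hG.mul ((((c3.mul (ih.1.pow 2)).add ((Lo.int W.a₁).mul ih.2)).add
          (((c2.mul (Lo.int W.a₂)).mul ih.1).mul ih.2)).add ((Lo.int W.a₄).mul (ih.2.pow 2)))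
  exact fun n => ⟨(all n).1 n le_rfl, (all n).2 n le_rfl⟩

end Pool.Agent.MP_b2c033_nt.UH
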