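import Pool.Agent.MP_b2c033_nt.UH.Spec

/-! The invariant differential is additive on collinear points. -/

namespace Pool.Agent.MP_b2c033_nt.UH

namespace OMx

variable {R : Type} [CommRing R] {D : R → R}

theorem zero (h : Der D) : D 0 = 0 := by
  have := h.add 0 0
  rw [add_zero] at this
  linear_combination -this

theorem one (h : Der D) : D 1 = 0 := by
  have := h.mul 1 1
  rw [mul_one, one_mul, mul_one] at this
  linear_combination -this

theorem neg (h : Der D) (a : R) : D (-a) = -D a := by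
  have := h.add a (-a)
  rw [add_neg_cancel, zero h] at this
  linear_combination -this

theorem sub (h : Der D) (a b : R) : D (a - b) = D a - D b := by
  rw [sub_eq_add_neg, h.add, neg h, sub_eq_add_neg]

theorem int (h : Der D) (z : ℤ) : D z = 0 := by
  induction z using Int.induction_on with
  | zero => rw [Int.cast_zero, zero h]
  | succ i ih => rw [Int.cast_add, Int.cast_one, h.add, ih, one h, add_zero]
  | pred i ih => rw [Int.cast_sub, Int.cast_one, sub h, ih, one h, sub_zero]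

theorem two (h : Der D) : D 2 = 0 := by simpa using int h 2

theorem three (h : Der D) : D 3 = 0 := by simpa using int h 3

theorem sq (h : Der D) (a : R) : D (a ^ 2) = 2 * a * D a := by
  rw [pow_two, h.mul]
  ring

theorem cube (h : Der D) (a : R) : D (a ^ 3) = 3 * a ^ 2 * D a := by
  rw [pow_succ, h.mul, sq h]
  ring

end OMx

open OMx in
theorem om : S_OM := by
  intro R _ W D l n t₁ w₁ t₂ w₂ t₃ w₃ o₁ o₂ o₃ h u u1 u2 u3 ⟨h1, h2, h3, e1, e2, e3⟩ d1 d2 d3
  subst h1 h2 h3
  have a1 : D (bc W R).a₁ = 0 := int h W.a₁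
  have a2 : D (bc W R).a₂ = 0 := int h W.a₂
  have a3 : D (bc W R).a₃ = 0 := int h W.a₃
  have a4 : D (bc W R).a₄ = 0 := int h W.a₄
  have a6 : D (bc W R).a₆ = 0 := int h W.a₆
  generalize bc W R = V at *
  have f1 := congrArg D e1
  have f2 := congrArg D e2
  have f3 := congrArg D e3
  simp only [UU, h.add, h.mul, neg h, sub h, sq h, cube h, one h, two h, three h, a1, a2, a3, a4,
    a6, d1, d2, d3, HH] at f1 f2 f3
  have q1 : t₁ * D l + D n - UU V l * o₁ * (t₁ - t₂) * (t₁ - t₃) = 0 := by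
    refine u1.mul_right_eq_zero.1 ?_
    simp only [UU, HH]
    linear_combination t₁ * f2 - f3 - t₁ ^ 2 * f1
  have q2 : D l - UU V l * (o₁ * (t₁ - t₃) + o₂ * (t₂ - t₃)) = 0 := by
    refine u2.mul_right_eq_zero.1 ?_
    simp only [UU, HH] at q1 ⊢
    linear_combination f2 - (t₁ + t₂) * f1 +
      (V.a₁ + 2 * V.a₃ * l + 2 * V.a₄ * n + 6 * V.a₆ * l * n +
        (V.a₂ + 2 * V.a₄ * l + 3 * V.a₆ * l ^ 2) * (t₁ + t₂)) * q1
  refine u.mul_right_eq_zero.1 (u3.mul_right_eq_zero.1 ?_)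
  simp only [UU, HH] at q1 q2 ⊢
  linear_combination f1 - (V.a₁ + 2 * V.a₃ * l + 2 * V.a₄ * n + 6 * V.a₆ * l * n +
    (V.a₂ + 2 * V.a₄ * l + 3 * V.a₆ * l ^ 2) * (t₂ + t₃)) * q2 -
      (V.a₂ + 2 * V.a₄ * l + 3 * V.a₆ * l ^ 2) * q1

end Pool.Agent.MP_b2c033_nt.UH
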