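import Pool.Agent.MP_b2c033_nt.UH.Spec

/-! Row TR: the abscissa of a nonzero formal point is transcendental over the constants. -/

namespace Pool.Agent.MP_b2c033_nt.UH

open Polynomial
open scoped PowerSeries

namespace TRx

theorem key (k K : Type) [Field k] [Field K] (i : k⟦X⟧ →+* K) (hi : Function.Injective i)
    (U s : k⟦X⟧) (hU : PowerSeries.constantCoeff U = 1) (hs : PowerSeries.constantCoeff s = 0)
    (hs0 : s ≠ 0) (f : k[X]) (hf : f ≠ 0) :
    f.eval₂ (i.comp PowerSeries.C) (i U / i s) ≠ 0 := by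
  intro h
  have his : i s ≠ 0 := fun e => hs0 (hi (by rw [e, map_zero]))
  set d := f.natDegree with hd
  have h1 : i (∑ j ∈ Finset.range (d + 1), PowerSeries.C (f.coeff j) * U ^ j * s ^ (d - j)) =
      f.eval₂ (i.comp PowerSeries.C) (i U / i s) * i s ^ d := by
    rw [Polynomial.eval₂_eq_sum_range, Finset.sum_mul, map_sum]
    refine Finset.sum_congr rfl fun j hj => ?_
    have hj' : j ≤ d := Nat.lt_succ_iff.1 (Finset.mem_range.1 hj)
    obtain ⟨m, hm⟩ := Nat.exists_eq_add_of_le hj'
    have e : d - j = m := by omega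
    rw [e, hm, map_mul, map_mul, map_pow, map_pow, RingHom.comp_apply, div_pow, pow_add]
    field_simp
  rw [h, zero_mul] at h1
  have h2 : ∑ j ∈ Finset.range (d + 1), PowerSeries.C (f.coeff j) * U ^ j * s ^ (d - j) = 0 :=
    hi (by rw [h1, map_zero])
  have h3 := congrArg PowerSeries.constantCoeff h2
  rw [map_sum, Finset.sum_range_succ, Finset.sum_eq_zero, map_zero] at h3
  · simp only [map_mul, map_pow, hU, PowerSeries.constantCoeff_C, one_pow, mul_one,
      Nat.sub_self, pow_zero, zero_add] at h3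
    exact hf (Polynomial.leadingCoeff_eq_zero.1 h3)
  · intro j hj
    have hj' : d - j ≠ 0 := by have := Finset.mem_range.1 hj; omega
    rw [map_mul, map_pow, hs, zero_pow hj', mul_zero]

end TRx

theorem tr : S_TR := by
  intro k K _ _ V i t w hi ht hw he hw0 f hf
  set U : k⟦X⟧ := 1 - V.a₁ * t - V.a₂ * t ^ 2 - V.a₃ * w - V.a₄ * t * w - V.a₆ * w ^ 2 with hUd
  have hU : PowerSeries.constantCoeff U = 1 := by simp [hUd, ht, hw]
  have hwU : w * U = t ^ 3 := by
    unfold Eq0 at he
    rw [hUd]
    linear_combination he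
  have hU0 : U ≠ 0 := fun e => by rw [e, map_zero] at hU; exact zero_ne_one hU
  have ht0 : t ≠ 0 := fun e => by
    rw [e] at hwU
    exact mul_ne_zero hw0 hU0 (by rw [hwU]; simp)
  have hit : i t ≠ 0 := fun e => ht0 (hi (by rw [e, map_zero]))
  have hiw : i w ≠ 0 := fun e => hw0 (hi (by rw [e, map_zero]))
  have hx : i t / i w = i U / i (t ^ 2) := by
    have := congrArg i hwU
    rw [map_mul, map_pow] at this
    rw [map_pow]
    field_simp
    linear_combination -this
  rw [hx]
  exact TRx.key k K i hi U (t ^ 2) hU (by simp [ht]) (pow_ne_zero 2 ht0) f hf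

end Pool.Agent.MP_b2c033_nt.UH
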