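import Pool.Agent.MP_b2c033_nt.UH.COL
import Pool.Agent.MP_b2c033_nt.UH.ADD
import Pool.Agent.MP_b2c033_nt.UH.CW
import Pool.Agent.MP_b2c033_nt.UH.OM
import Pool.Agent.MP_b2c033_nt.UH.GRP
import Pool.Agent.MP_b2c033_nt.UH.FVC
import Pool.Agent.MP_b2c033_nt.UH.F5
import Pool.Agent.MP_b2c033_nt.UH.HA
import Pool.Agent.MP_b2c033_nt.UH.F2
import Pool.Agent.MP_b2c033_nt.UH.F3a
import Pool.Agent.MP_b2c033_nt.UH.F3b
import Pool.Agent.MP_b2c033_nt.UH.F23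
import Pool.Agent.MP_b2c033_nt.UH.FN
import Pool.Agent.MP_b2c033_nt.UH.FC
import Pool.Agent.MP_b2c033_nt.UH.FS
import Pool.Agent.MP_b2c033_nt.UH.H4a
import Pool.Agent.MP_b2c033_nt.UH.TR
import Pool.Agent.MP_b2c033_nt.UH.LOG
import Pool.Agent.MP_b2c033_nt.UH.H5a
import Pool.Agent.MP_b2c033_nt.UH.ODE
import Pool.Agent.MP_b2c033_nt.UH.MIN
import Pool.Agent.MP_b2c033_nt.UH.DIF
import Pool.Agent.MP_b2c033_nt.UH.Fin

/-! The algebraic parts of block H. -/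

namespace Pool.Agent.MP_b2c033_nt.UH

theorem grpAll : S_GRP := grp add (cw col) om

theorem h4All : S_H4 := h4a (fvc col) f5 ha (f2 col) (f3a col) (f3b col) f23 fn fc (fs col)

theorem h5All : S_H5 := h5a (cw col) grpAll h4All tr log

theorem h2All : S_H2 := h2 (cw col) grpAll uni bd min dif tr

end Pool.Agent.MP_b2c033_nt.UH
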