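import Pool.Agent.MP_b2c033_nt.UH.Spec

/-! Expansions at all cusps. -/

namespace Pool.Agent.MP_b2c033_nt.UH

open Filter
open UpperHalfPlane hiding I
open scoped Real Manifold MatrixGroups Topology

noncomputable section

namespace CUSPx

lemma conj_mem (N : ℕ) (γ : SL(2, ℤ)) :
    γ * ModularGroup.T ^ (N : ℤ) * γ⁻¹ ∈ CongruenceSubgroup.Gamma1 N := by
  have h := (CongruenceSubgroup.Gamma_normal N).conj_mem _
    (CongruenceSubgroup.ModularGroup_T_pow_mem_Gamma (N : ℤ) N dvd_rfl) γ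
  rw [CongruenceSubgroup.Gamma_mem] at h
  exact (CongruenceSubgroup.Gamma1_mem _ _).2 ⟨h.1, h.2.2.2, h.2.2.1⟩

lemma per {Λ : PeriodPair} {f : ℍ → ℂ} {h : ℝ} (hc : Continuous f)
    (hl : ∀ z, f (h +ᵥ z) - f z ∈ Λ.lattice) (hb : IsBoundedAtImInfty f) (z : ℍ) :
    f (h +ᵥ z) = f z := by
  have hv : Continuous fun z : ℍ => h +ᵥ z := by
    rw [isEmbedding_coe.continuous_iff]
    exact continuous_const.add continuous_coe
  have hd : Continuous fun z : ℍ => (⟨f (h +ᵥ z) - f z, hl z⟩ : Λ.lattice) :=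
    ((hc.comp hv).sub hc).subtype_mk _
  have hk : ∀ w : ℍ, f (h +ᵥ w) - f w = f (h +ᵥ z) - f z := fun w =>
    congrArg Subtype.val (PreconnectedSpace.constant inferInstance hd (x := w) (y := z))
  obtain ⟨M, A, hM⟩ := isBoundedAtImInfty_iff.1 hb
  obtain ⟨w, hw⟩ : ∃ w : ℍ, A ≤ w.im :=
    ⟨⟨(max A 1 : ℝ) * Complex.I, by simp⟩, by simp [UpperHalfPlane.im]⟩
  have hn : ∀ n : ℕ, f ((n * h) +ᵥ w) = f w + n * (f (h +ᵥ z) - f z) := fun n => by
    induction n with
    | zero => simp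
    | succ n ih =>
      have := hk ((n * h) +ᵥ w)
      rw [← add_vadd, ih] at this
      rw [show ((n + 1 : ℕ) : ℝ) * h = h + n * h by push_cast; ring]
      push_cast
      linear_combination this
  by_contra k
  have l0 : 0 < ‖f (h +ᵥ z) - f z‖ := norm_pos_iff.2 (sub_ne_zero.2 k)
  obtain ⟨n, hn'⟩ := exists_nat_gt (2 * M / ‖f (h +ᵥ z) - f z‖)
  rw [div_lt_iff₀ l0] at hn'
  have h1 := hM ((n * h) +ᵥ w) (by rwa [vadd_im])
  have h2 := norm_sub_le (f ((n * h) +ᵥ w)) (f w)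
  rw [hn n, add_sub_cancel_left, norm_mul, Complex.norm_natCast, ← hn n] at h2
  linarith [hM w hw]

end CUSPx

open CUSPx in
theorem cusp : S_CUSP := by
  rintro Λ N φ hN hP ⟨z₁, z₂, hz⟩ γ
  have h0 : (0 : ℝ) < N := Nat.cast_pos.2 hN
  have hol : MDifferentiable 𝓘(ℂ) 𝓘(ℂ) fun z : ℍ => φ (γ • z) :=
    hP.hol.comp (mdifferentiable_smul (g := (γ : GL (Fin 2) ℝ)) (by simp))
  have hl : ∀ z : ℍ, φ (γ • ((N : ℝ) +ᵥ z)) - φ (γ • z) ∈ Λ.lattice := fun z => by
    have := hP.per _ (conj_mem N γ) (γ • z)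
    rwa [mul_smul, inv_smul_smul, mul_smul, modular_T_zpow_smul, Int.cast_natCast] at this
  have hp : Function.Periodic ((fun z : ℍ => φ (γ • z)) ∘ ofComplex) (N : ℝ) := fun w => by
    by_cases hw : 0 < w.im
    · have : 0 < (w + (N : ℝ)).im := by simp [hw]
      have e : (⟨w + (N : ℝ), this⟩ : ℍ) = (N : ℝ) +ᵥ (⟨w, hw⟩ : ℍ) := by
        ext
        simp [add_comm]
      simp only [Function.comp_apply, ofComplex_apply_of_im_pos this, ofComplex_apply_of_im_pos hw,
        e]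
      exact per (f := fun z : ℍ => φ (γ • z)) hol.continuous hl (hP.bdd γ) _
    · have hw : w.im ≤ 0 := not_lt.1 hw
      have : (w + (N : ℝ)).im ≤ 0 := by simpa using hw
      simp only [Function.comp_apply, ofComplex_apply_of_im_nonpos this,
        ofComplex_apply_of_im_nonpos hw]
  have an := analyticAt_cuspFunction_zero h0 hp hol (hP.bdd γ)
  have ev := fun z => eq_cuspFunction z h0.ne' hp
  refine ⟨_, an, (an.eventually_eq_or_eventually_ne analyticAt_const).resolve_left fun k => ?_,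
    fun z => ?_⟩
  · have a1 := (differentiableOn_cuspFunction_ball h0 hp hol (hP.bdd γ)).analyticOnNhd
      Metric.isOpen_ball
    have a2 := a1.eqOn_of_preconnected_of_eventuallyEq analyticOnNhd_const
      (convex_ball (0 : ℂ) 1).isPreconnected (Metric.mem_ball_self one_pos) k
    have a3 : ∀ z : ℍ, φ (γ • z) = cuspFunction N (fun z : ℍ => φ (γ • z)) 0 := fun z =>
      (ev z).symm.trans (a2 (mem_ball_zero_iff.2 (Function.Periodic.norm_qParam_lt_one h0 z.2)))
    exact hz (by rw [← smul_inv_smul γ z₁, ← smul_inv_smul γ z₂, a3, a3])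
  · simpa only [Function.Periodic.qParam, Complex.ofReal_natCast] using (ev z).symm

end

end Pool.Agent.MP_b2c033_nt.UH
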