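import Pool.Agent.MP_b2c033_nt.UH.Spec

/-! Row FINZ: finitely many orbits of points with value in the lattice. -/

namespace Pool.Agent.MP_b2c033_nt.UH

open Filter Set
open UpperHalfPlane hiding I
open scoped Real Manifold MatrixGroups Topology

namespace FINZx

lemma lat (Λ : PeriodPair) {α : Type} {l : Filter α} {f : α → ℂ} {c : ℂ} (h : Tendsto f l (𝓝 c))
    (n : ∀ᶠ a in l, f a ≠ c) : ∀ᶠ a in l, f a ∉ Λ.lattice := by
  filter_upwards [h.eventually (Λ.compl_lattice_sdiff_singleton_mem_nhds c), n] with a p q r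
  exact p ⟨r, q⟩

lemma cpt (Λ : PeriodPair) {φ : ℍ → ℂ} (h : MDifferentiable 𝓘(ℂ) 𝓘(ℂ) φ) (n : ∃ z z', φ z ≠ φ z')
    {K : Set ℍ} (hK : IsCompact K) : {z ∈ K | φ z ∈ Λ.lattice}.Finite := by
  have k : ∀ z, ∀ᶠ w in 𝓝[≠] z, φ w ∉ Λ.lattice := fun z => by
    refine lat Λ ((h.continuous.tendsto z).mono_left nhdsWithin_le_nhds)
      (not_frequently.1 fun q => ?_)
    have e := eq_zero_of_frequently (f := fun w => φ w - φ z) (h.sub mdifferentiable_const)
      (q.mono fun w e => sub_eq_zero.2 e)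
    obtain ⟨a, b, hab⟩ := n
    exact hab ((sub_eq_zero.1 (congrFun e a)).trans (sub_eq_zero.1 (congrFun e b)).symm)
  obtain ⟨t, -, ht⟩ := hK.elim_nhds_subcover (fun z => {w | w ∈ ({z}ᶜ : Set ℍ) → φ w ∉ Λ.lattice})
    fun z _ => eventually_nhdsWithin_iff.1 (k z)
  refine t.finite_toSet.subset fun z hz => ?_
  obtain ⟨w, hw, e⟩ := mem_iUnion₂.1 (ht hz.1)
  obtain rfl : z = w := by_contra fun q => e q hz.2
  exact hw

end FINZx

open FINZx in
theorem finz : S_FINZ := by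
  intro Λ N φ N0 hP n hC
  have : NeZero N := ⟨N0.ne'⟩
  have k : ∀ g : SL(2, ℤ), {z : ℍ | z ∈ ModularGroup.fd ∧ φ (g • z) ∈ Λ.lattice}.Finite := by
    intro g
    obtain ⟨ψ, p1, p2, p3⟩ := hC g
    have t := (Function.Periodic.qParam_tendsto (h := N) (by exact_mod_cast N0)).comp
      tendsto_coe_atImInfty
    obtain ⟨Y, hY⟩ := (atImInfty_mem _).1
      (t.eventually (lat Λ (p1.continuousAt.tendsto.mono_left nhdsWithin_le_nhds) p2))
    refine ((cpt Λ hP.hol n ((ModularGroup.isCompact_truncatedFundamentalDomain Y).image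
      (continuous_const_smul (g : GL (Fin 2) ℝ)))).preimage (MulAction.injective g).injOn).subset
        fun z hz => ⟨mem_image_of_mem _ ⟨hz.1, le_of_not_ge fun q => hY z q ?_⟩, hz.2⟩
    exact p3 z ▸ hz.2
  have f := finite_iUnion fun q : SL(2, ℤ) ⧸ CongruenceSubgroup.Gamma1 N =>
    (k q.out⁻¹).image fun z => q.out⁻¹ • z
  refine ⟨f.toFinset, fun z hz => ?_⟩
  obtain ⟨g, hg⟩ := ModularGroup.exists_smul_mem_fd z
  obtain ⟨h, e⟩ := QuotientGroup.mk_out_eq_mul (CongruenceSubgroup.Gamma1 N) g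
  have e' : (QuotientGroup.mk g : SL(2, ℤ) ⧸ CongruenceSubgroup.Gamma1 N).out⁻¹ • g • z =
      (h : SL(2, ℤ))⁻¹ • z := by rw [e, mul_inv_rev, mul_smul, inv_smul_smul]
  refine ⟨h, h.2, (h : SL(2, ℤ))⁻¹ • z, f.mem_toFinset.2 (mem_iUnion.2 ⟨_, g • z, ⟨hg, ?_⟩, e'⟩),
    (smul_inv_smul _ _).symm⟩
  rw [e']
  simpa using add_mem (hP.per _ (inv_mem h.2) z) hz

end Pool.Agent.MP_b2c033_nt.UH
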