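import Pool.Agent.MP_b2c033_nt.UH.Spec

/-! Row GROW: growth at the cusps. -/

namespace Pool.Agent.MP_b2c033_nt.UH

open Filter Asymptotics Polynomial
open UpperHalfPlane hiding I
open Pool.Agent.MP_b2c033_nt.H87
open scoped Real Manifold MatrixGroups Topology

namespace GROWx

theorem disc_smul (γ : SL(2, ℤ)) (z : ℍ) : ModularForm.discriminant (γ • z) =
    ((γ 1 0 : ℂ) * z + (γ 1 1 : ℂ)) ^ 12 * ModularForm.discriminant z := by
  have h := SlashInvariantForm.slash_action_eqn' (Γ := 𝒮ℒ) CuspForm.discriminant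
    (γ := Matrix.SpecialLinearGroup.mapGL ℝ γ) (MonoidHom.mem_range.2 ⟨γ, rfl⟩) z
  refine Eq.trans h ?_
  simp

theorem e4_smul (γ : SL(2, ℤ)) (z : ℍ) : ModularForm.E₄ (γ • z) =
    ((γ 1 0 : ℂ) * z + (γ 1 1 : ℂ)) ^ 4 * ModularForm.E₄ z := by
  have h := SlashInvariantForm.slash_action_eqn' (Γ := 𝒮ℒ) ModularForm.E₄
    (γ := Matrix.SpecialLinearGroup.mapGL ℝ γ) (MonoidHom.mem_range.2 ⟨γ, rfl⟩) z
  refine Eq.trans h ?_
  simp

theorem den_ne (γ : SL(2, ℤ)) (z : ℍ) : ((γ 1 0 : ℂ) * z + (γ 1 1 : ℂ)) ≠ 0 := by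
  have := denom_ne_zero γ z
  simpa [denom] using this

theorem jj_smul (γ : SL(2, ℤ)) (z : ℍ) : jj (γ • z) = jj z := by
  have h1 := den_ne γ z
  have h2 := ModularForm.discriminant_ne_zero z
  simp only [jj, disc_smul, e4_smul]
  field_simp

/-- exponential growth -/
def Gr (f : ℍ → ℂ) : Prop := ∃ κ : ℝ, f =O[atImInfty] fun z => Real.exp (κ * z.im)

theorem Gr.mul {f g : ℍ → ℂ} (hf : Gr f) (hg : Gr g) : Gr fun z => f z * g z := by
  obtain ⟨a, ha⟩ := hf
  obtain ⟨b, hb⟩ := hg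
  exact ⟨a + b, (ha.mul hb).congr_right fun z => by rw [← Real.exp_add, add_mul]⟩

theorem mono {a b : ℝ} (h : a ≤ b) :
    (fun z : ℍ => Real.exp (a * z.im)) =O[atImInfty] fun z => Real.exp (b * z.im) :=
  IsBigO.of_bound' (Eventually.of_forall fun z => by
    rw [Real.norm_of_nonneg (Real.exp_pos _).le, Real.norm_of_nonneg (Real.exp_pos _).le]
    exact Real.exp_le_exp.2 (mul_le_mul_of_nonneg_right h z.im_pos.le))

theorem Gr.add {f g : ℍ → ℂ} (hf : Gr f) (hg : Gr g) : Gr fun z => f z + g z := by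
  obtain ⟨a, ha⟩ := hf
  obtain ⟨b, hb⟩ := hg
  exact ⟨max a b, (ha.trans (mono (le_max_left a b))).add (hb.trans (mono (le_max_right a b)))⟩

theorem Gr.bdd {f : ℍ → ℂ} (hf : f =O[atImInfty] fun _ => (1 : ℝ)) : Gr f :=
  ⟨0, hf.congr_right fun z => by rw [zero_mul, Real.exp_zero]⟩

theorem gr_jj : Gr jj := by
  have h1 : Gr fun z => ModularForm.E₄ z :=
    Gr.bdd (ModularFormClass.bdd_at_infty ModularForm.E₄)
  have h2 : Gr fun z => (ModularForm.discriminant z)⁻¹ :=
    ⟨2 * π, (ModularForm.exp_isBigO_discriminant.inv_rev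
      (Eventually.of_forall fun z h => absurd h (Real.exp_pos _).ne')).congr_right fun z => by
        rw [← Real.exp_neg]; simp⟩
  have e : jj = fun z => ModularForm.E₄ z * ModularForm.E₄ z * ModularForm.E₄ z *
      (ModularForm.discriminant z)⁻¹ := funext fun z => by rw [jj, div_eq_mul_inv]; ring
  rw [e]
  exact ((h1.mul h1).mul h1).mul h2

theorem gr_pol (P : ℂ[X]) : Gr fun z => P.eval (jj z) := by
  induction P using Polynomial.induction_on with
  | C c => simpa using Gr.bdd (isBigO_const_const c one_ne_zero _)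
  | add p q hp hq => simpa using hp.add hq
  | monomial n a h => simpa [pow_succ, mul_assoc] using h.mul gr_jj

theorem gr_mer {F : ℂ → ℂ} (hF : MeromorphicAt F 0) {N : ℝ} (hN : 0 < N) :
    Gr fun z => F (Function.Periodic.qParam N z) := by
  obtain ⟨n, hn⟩ := hF
  have h1 : Gr fun z : ℍ => (Function.Periodic.qParam N z - 0) ^ n •
      F (Function.Periodic.qParam N z) :=
    Gr.bdd ((hn.continuousAt.tendsto.comp (qParam_tendsto_atImInfty hN)).isBigO_one ℝ)
  have h2 : Gr fun z : ℍ => (Function.Periodic.qParam N z ^ n)⁻¹ :=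
    ⟨n * (2 * π / N), IsBigO.of_bound' (Eventually.of_forall fun z => le_of_eq (by
      rw [norm_inv, norm_pow, Function.Periodic.norm_qParam, ← Real.exp_nat_mul, ← Real.exp_neg,
        Real.norm_of_nonneg (Real.exp_pos _).le, coe_im]
      refine congrArg Real.exp ?_
      ring))⟩
  obtain ⟨κ, h⟩ := h2.mul h1
  refine ⟨κ, h.congr_left fun z => ?_⟩
  rw [sub_zero, smul_eq_mul,
    inv_mul_cancel_left₀ (pow_ne_zero _ (Function.Periodic.qParam_ne_zero _))]

end GROWx

open GROWx in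
theorem grow : S_GROW := by
  intro Λ E N φ P hN hE hC γ
  obtain ⟨ψ, h1, -, h2⟩ := hC γ
  obtain ⟨κ, h⟩ := (gr_pol P).mul
    (gr_mer ((hE.mer (ψ 0)).comp_analyticAt h1) (N := N) (Nat.cast_pos.2 hN))
  refine ⟨κ, h.congr_left fun z => ?_⟩
  rw [jj_smul, h2]
  simp [Function.Periodic.qParam]

end Pool.Agent.MP_b2c033_nt.UH
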