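import Pool.Agent.MP_b2c033_nt.UH.H2

/-! Assembly of H1. -/

namespace Pool.Agent.MP_b2c033_nt.UH

open Filter PowerSeries WeierstrassCurve
open UpperHalfPlane hiding I
open Pool.Agent.MP_b2c033_nt.H87
open scoped Topology

namespace H1bx

theorem lint (h : S_LOC) (a : ℤ) : Loc (a : ℂ⟦X⟧) fun _ => (a : ℂ) := by
  simpa using h.const a

theorem lsub (h : S_LOC) {a b : ℂ⟦X⟧} {φ ψ : ℂ → ℂ} (h1 : Loc a φ) (h2 : Loc b ψ) :
    Loc (a - b) fun q => φ q - ψ q := by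
  simpa [sub_eq_add_neg] using h.add _ _ _ _ h1 (h.mul _ _ _ _ (lint h (-1)) h2)

theorem lpow (h : S_LOC) {a : ℂ⟦X⟧} {φ : ℂ → ℂ} (h1 : Loc a φ) (n : ℕ) :
    Loc (a ^ n) fun q => φ q ^ n := by
  induction n with
  | zero => simpa using lint h 1
  | succ n ih => simpa [pow_succ] using h.mul _ _ _ _ ih h1

theorem cx_inj : Function.Injective cx :=
  PowerSeries.map_injective _ (algebraMap ℚ ℂ).injective

theorem lift {a : ℂ⟦X⟧} (h : ∀ n, coeff n a ∈ (algebraMap ℚ ℂ).range) : ∃ b, cx b = a := by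
  choose b hb using h
  exact ⟨mk b, by ext n; rw [cx, coeff_map, coeff_mk, hb]⟩

theorem ellP (Λ : PeriodPair) : Ell Λ Λ.weierstrassP :=
  ⟨Λ.meromorphic_weierstrassP, Λ.analyticOnNhd_weierstrassP,
    fun l hl => Λ.weierstrassP_coe ⟨l, hl⟩, fun z l hl => Λ.weierstrassP_add_coe z ⟨l, hl⟩⟩

theorem ellP' (Λ : PeriodPair) : Ell Λ Λ.derivWeierstrassP :=
  ⟨Λ.meromorphic_derivWeierstrassP, Λ.analyticOnNhd_derivWeierstrassP,
    fun l hl => Λ.derivWeierstrassP_coe ⟨l, hl⟩,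
    fun z l hl => Λ.derivWeierstrassP_add_coe z ⟨l, hl⟩⟩

theorem fr {A B : L} (hA : FrZ A) (hB : FrZ B) (r : ℚ) (a b : ℤ) :
    FrZ (A - r) ∧ FrZ ((B - a * (A - r) - b) / 2) := by
  have mx : A ∈ IntermediateField.adjoin ℚ {A, B} := IntermediateField.subset_adjoin _ _ (by simp)
  have my : B ∈ IntermediateField.adjoin ℚ {A, B} := IntermediateField.subset_adjoin _ _ (by simp)
  have mr : (r : L) ∈ IntermediateField.adjoin ℚ {A, B} := by
    rw [← algMapL]; exact IntermediateField.algebraMap_mem _ _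
  exact ⟨(t3 t1 A B _ (sub_mem mx mr)).2 hA hB, (t3 t1 A B _ (div_mem (sub_mem (sub_mem my
    (mul_mem (intCast_mem _ _) (sub_mem mx mr))) (intCast_mem _ _)) (ofNat_mem _ 2))).2 hA hB⟩

end H1bx

open H1bx in
theorem h1b : S_H1a := by
  intro hl hb hm hcu hf hp hg hw W Λ N φ c g2 g3 hN hP c0 cz hs
  set ψ : ℂ → ℂ := fun q => ∑' n : ℕ, coeff n (cx c) * q ^ n with hψ
  have hs' : ∀ z : ℍ, HasSum (fun n : ℕ => coeff n (cx c) * nome z ^ n) (φ z) := fun z => by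
    simpa only [cx, coeff_map, eq_ratCast] using hs z
  have e0 : ∀ z : ℍ, φ z = ψ (nome z) := fun z => (hs' z).tsum_eq.symm
  have cv : Conv (cx c) ψ := fun q hq => by
    by_cases h0 : q = 0
    · subst h0
      exact (hasSum_single 0 (fun n hn => by simp [hn])).summable.hasSum
    · obtain ⟨z, rfl⟩ := T2x.exists_nome h0 (by simpa using hq)
      exact (hs' z).summable.hasSum
  have lψ := hl.conv _ _ cv
  have aψ := hl.ana _ _ lψ
  have ψ0 : ψ 0 = 0 := by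
    rw [hl.zero _ _ lψ, ← coeff_zero_eq_constantCoeff_apply, cx, coeff_map,
      coeff_zero_eq_constantCoeff_apply, cz, map_zero]
  have ψne : ∀ᶠ q in 𝓝[≠] (0 : ℂ), ψ q ≠ 0 := by
    refine aψ.eventually_eq_zero_or_eventually_ne_zero.resolve_left fun h => c0 (cx_inj ?_)
    rw [hl.uniq _ _ _ _ lψ (lint hl 0) (by simpa using h.filter_mono nhdsWithin_le_nhds)]
    simp [cx]
  have tψ : Tendsto ψ (𝓝 0) (𝓝 0) := by simpa [ψ0] using aψ.continuousAt.tendsto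
  have tψ' : Tendsto ψ (𝓝[≠] 0) (𝓝[≠] 0) :=
    tendsto_nhdsWithin_iff.2 ⟨tψ.mono_left nhdsWithin_le_nhds, ψne⟩
  have nc : ∃ z z', φ z ≠ φ z' := by
    by_contra h
    push Not at h
    obtain ⟨z, hz⟩ := ((hl.nome _).1 ψne).exists
    have h1 : ∀ᶠ q in 𝓝[≠] (0 : ℂ), ψ q ≠ ψ (nome z) :=
      (tψ.mono_left nhdsWithin_le_nhds).eventually_ne hz.symm
    obtain ⟨z', hz'⟩ := ((hl.nome _).1 h1).exists
    exact hz' (by rw [← e0, ← e0, h z z'])
  obtain ⟨T, U, aT, aU, T0, U0, hE, hX⟩ := hw W Λ g2 g3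
  have aT' : AnalyticAt ℂ (fun q => T (ψ q)) 0 := AnalyticAt.comp (by rwa [ψ0]) aψ
  have aU' : AnalyticAt ℂ (fun q => U (ψ q)) 0 := AnalyticAt.comp (by rwa [ψ0]) aψ
  obtain ⟨t₀, lt⟩ := hl.ex _ aT'
  obtain ⟨w₀, lw⟩ := hl.ex _ aU'
  have z1 : constantCoeff t₀ = 0 := by rw [← hl.zero _ _ lt, ψ0, T0]
  have z2 : constantCoeff w₀ = 0 := by rw [← hl.zero _ _ lw, ψ0, U0]
  have hE' := (tψ.eventually hE).filter_mono (nhdsWithin_le_nhds (s := {0}ᶜ))
  have hX' := tψ'.eventually hX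
  have M := @hl.mul
  have A := @hl.add
  have eq0 : Eq0 (bc W ℂ⟦X⟧) t₀ w₀ := by
    simp only [Eq0, map_a₁, map_a₂, map_a₃, map_a₄, map_a₆, eq_intCast] at hE' ⊢
    exact hl.uniq _ _ _ _ lw (A _ _ _ _ (A _ _ _ _ (A _ _ _ _ (A _ _ _ _ (A _ _ _ _ (lpow hl lt 3)
      (M _ _ _ _ (M _ _ _ _ (lint hl _) lt) lw)) (M _ _ _ _ (M _ _ _ _ (lint hl _) (lpow hl lt 2)) lw))
      (M _ _ _ _ (lint hl _) (lpow hl lw 2)))
      (M _ _ _ _ (M _ _ _ _ (lint hl _) lt) (lpow hl lw 2))) (M _ _ _ _ (lint hl _) (lpow hl lw 3)))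
      (hE'.mono fun q hq => hq.1)
  have lH : Loc (HH (bc W ℂ⟦X⟧) t₀ w₀) fun q => HH (bc W ℂ) (T (ψ q)) (U (ψ q)) := by
    have := lsub hl (lsub hl (lsub hl (lsub hl (lsub hl (lint hl 1) (M _ _ _ _ (lint hl W.a₁) lt))
      (M _ _ _ _ (lint hl W.a₂) (lpow hl lt 2))) (M _ _ _ _ (lint hl (2 * W.a₃)) lw))
      (M _ _ _ _ (M _ _ _ _ (lint hl (2 * W.a₄)) lt) lw))
      (M _ _ _ _ (lint hl (3 * W.a₆)) (lpow hl lw 2))
    simpa only [HH, map_a₁, map_a₂, map_a₃, map_a₄, map_a₆, eq_intCast, Int.cast_mul,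
      Int.cast_ofNat, Int.cast_one] using this
  have ode : derivative ℂ t₀ = derivative ℂ (cx c) * HH (bc W ℂ⟦X⟧) t₀ w₀ := by
    refine hl.uniq _ _ _ _ (hl.der _ _ lt) (M _ _ _ _ (hl.der _ _ lψ) lH) ?_
    filter_upwards [hE', (tψ.eventually aT.eventually_analyticAt).filter_mono nhdsWithin_le_nhds,
      aψ.eventually_analyticAt.filter_mono nhdsWithin_le_nhds] with q h1 h2 h3
    rw [← h1.2, mul_comm]
    exact deriv_comp q h2.differentiableAt h3.differentiableAt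
  have dcx : ∀ a, derivative ℂ (cx a) = cx (derivative ℚ a) := fun a => P7x.der_map _ a
  have hB := hb ℂ (algebraMap ℚ ℂ).range W _ t₀ w₀ (fun r => ⟨r, by simp⟩)
    (fun n => by rw [dcx, cx, coeff_map]; exact ⟨_, rfl⟩) z1 z2 eq0 ode
  obtain ⟨t, rfl⟩ := lift fun n => (hB n).1
  obtain ⟨w, rfl⟩ := lift fun n => (hB n).2
  have zz : ∀ {a : ℚ⟦X⟧}, constantCoeff (cx a) = 0 → constantCoeff a = 0 := fun h => by
    rw [← coeff_zero_eq_constantCoeff_apply, cx, coeff_map, coeff_zero_eq_constantCoeff_apply] at h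
    simpa using h
  have wne : w ≠ 0 := by
    rintro rfl
    have a0 := hl.ana _ _ lw
    have h1 : ∀ᶠ q in 𝓝 (0 : ℂ), U (ψ q) = 0 := lw.mono fun q hq => by
      simpa [cx] using hq.tsum_eq.symm
    obtain ⟨q, h2, h3⟩ := ((h1.filter_mono nhdsWithin_le_nhds).and hX').exists
    have := h3.2
    rw [h2, zero_mul] at this
    norm_num at this
  have wL : iq w ≠ 0 := fun h => wne (P7x.iq_inj (by rw [h, map_zero]))
  have cu := hcu Λ N φ hN hP nc
  obtain ⟨Z, hZ⟩ := hf Λ N φ hN hP nc cu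
  have key : ∀ (E : ℂ → ℂ) (F : L), Ell Λ E → RepL (fun z => E (φ z)) F → FrZ F := by
    intro E F hE hR
    obtain ⟨P, P0, hol⟩ := hp Λ E N φ Z hE hP nc hZ
    refine hm N _ F P hN P0 (fun γ hγ z => ?_) ⟨hol, hg Λ E N φ P hN hE cu⟩ hR
    rw [← hE.per (φ z) _ (hP.per γ hγ z), add_sub_cancel]
  set r : ℚ := W.b₂ / 12 with hr
  have lr : Loc (cx (C r)) fun _ => (W.b₂ : ℂ) / 12 := by
    simpa [cx, hr] using hl.const ((W.b₂ : ℂ) / 12)
  have f1 := key _ (iq t / iq w + r) (ellP Λ) ⟨t + C r * w, w, fun q => T (ψ q) + W.b₂ / 12 * U (ψ q),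
    _, by simpa only [cx, map_add, map_mul] using A _ _ _ _ lt (M _ _ _ _ lr lw), lw, wne,
    by rw [map_add, map_mul, P7x.iq_C]; field_simp,
    ((hl.nome _).1 hX').mono fun z hz => by beta_reduce; rw [e0]; linear_combination hz.1⟩
  have f2 := key _ ((-2 + W.a₁ * iq t + W.a₃ * iq w) / iq w) (ellP' Λ)
    ⟨(-2 : ℤ) + W.a₁ * t + W.a₃ * w, w, fun q => (-2 : ℤ) + W.a₁ * T (ψ q) + W.a₃ * U (ψ q),
    _, by
      simpa only [cx, map_add, map_mul, map_intCast] using A _ _ _ _ (A _ _ _ _ (lint hl (-2))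
        (M _ _ _ _ (lint hl W.a₁) lt)) (M _ _ _ _ (lint hl W.a₃) lw), lw, wne,
    by simp only [map_add, map_mul, map_intCast]; push_cast; field_simp,
    ((hl.nome _).1 hX').mono fun z hz => by
      beta_reduce; rw [e0]; push_cast; linear_combination hz.2 + W.a₁ * hz.1⟩
  obtain ⟨f3, f4⟩ := fr f1 f2 r W.a₁ W.a₃
  have := charZeroL
  refine ⟨t, w, zz z1, zz z2, wne, cx_inj ?_, cx_inj ?_, ?_, ?_⟩
  · simpa only [Eq0, cx, map_a₁, map_a₂, map_a₃, map_a₄, map_a₆, eq_intCast, map_add, map_mul,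
      map_pow, map_intCast] using eq0
  · rw [← dcx, ode, dcx, cx, cx, cx, cx, map_mul, H2x.hh_map]
  · rwa [add_sub_cancel_right] at f3
  · rwa [show ((-2 + W.a₁ * iq t + W.a₃ * iq w) / iq w - W.a₁ * (iq t / iq w + r - r) - W.a₃) / 2
      = -1 / iq w by field_simp; ring] at f4

end Pool.Agent.MP_b2c033_nt.UH
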