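import Pool.Agent.MP_b2c033_nt.UH.Spec
import Pool.Agent.MP_b2c033_nt.H87.T2

/-! Power series that converge near the origin. -/

namespace Pool.Agent.MP_b2c033_nt.UH

open Filter Metric
open UpperHalfPlane hiding I
open Pool.Agent.MP_b2c033_nt.H87
open scoped Real Topology PowerSeries

noncomputable section

namespace LOCx

variable {a b : ℂ⟦X⟧} {φ ψ : ℂ → ℂ}

theorem fps (h : Loc a φ) :
    HasFPowerSeriesAt φ (FormalMultilinearSeries.ofScalars ℂ fun n => PowerSeries.coeff n a) 0 := by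
  rw [hasFPowerSeriesAt_iff]
  filter_upwards [h] with q hq
  simpa only [FormalMultilinearSeries.coeff_ofScalars, smul_eq_mul, zero_add, mul_comm] using hq

theorem ana (h : Loc a φ) : AnalyticAt ℂ φ 0 := (fps h).analyticAt

theorem ex (h : AnalyticAt ℂ φ 0) : ∃ a, Loc a φ := by
  obtain ⟨p, hp⟩ := h
  rw [hasFPowerSeriesAt_iff] at hp
  refine ⟨PowerSeries.mk fun n => p.coeff n, ?_⟩
  filter_upwards [hp] with q hq
  simpa only [PowerSeries.coeff_mk, smul_eq_mul, zero_add, mul_comm] using hq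

theorem der0 {R : ℝ}
    (h : ∀ q ∈ ball (0 : ℂ) R, HasSum (fun n : ℕ => PowerSeries.coeff n a * q ^ n) (φ q))
    {q : ℂ} (hq : q ∈ ball (0 : ℂ) R) :
    HasSum (fun n : ℕ => deriv (fun w : ℂ => PowerSeries.coeff n a * w ^ n) q) (deriv φ q) := by
  obtain ⟨r, h1, h2⟩ := exists_between (mem_ball_zero_iff.1 hq)
  have h0 : 0 ≤ r := (norm_nonneg q).trans h1.le
  have hr : (r : ℂ) ∈ ball (0 : ℂ) R := by
    rw [mem_ball_zero_iff, Complex.norm_real, Real.norm_of_nonneg h0]
    exact h2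
  have hu := summable_norm_iff.2 (h _ hr).summable
  have hf : ∀ n : ℕ, DifferentiableOn ℂ (fun w : ℂ => PowerSeries.coeff n a * w ^ n) (ball 0 r) :=
    fun n => by fun_prop
  have hle : ∀ (n : ℕ) (w : ℂ), w ∈ ball (0 : ℂ) r →
      ‖PowerSeries.coeff n a * w ^ n‖ ≤ ‖PowerSeries.coeff n a * (r : ℂ) ^ n‖ := fun n w hw => by
    rw [norm_mul, norm_mul, norm_pow, norm_pow, Complex.norm_real, Real.norm_of_nonneg h0]
    gcongr
    exact (mem_ball_zero_iff.1 hw).le
  have hq' : q ∈ ball (0 : ℂ) r := mem_ball_zero_iff.2 h1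
  have e : φ =ᶠ[𝓝 q] fun w => ∑' n : ℕ, PowerSeries.coeff n a * w ^ n := by
    filter_upwards [isOpen_ball.mem_nhds hq] with w hw using (h w hw).tsum_eq.symm
  rw [e.deriv_eq]
  exact Complex.hasSum_deriv_of_summable_norm hu hf isOpen_ball hle hq'

theorem der (h : Loc a φ) : Loc (PowerSeries.derivative ℂ a) (deriv φ) := by
  obtain ⟨R, hR, h⟩ := Metric.eventually_nhds_iff_ball.1 h
  filter_upwards [ball_mem_nhds (0 : ℂ) hR] with q hq
  have e := (hasSum_nat_add_iff' 1).2 (der0 h hq)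
  have e0 : ∑ i ∈ Finset.range 1, deriv (fun w : ℂ => PowerSeries.coeff i a * w ^ i) q = 0 := by
    simp
  rw [e0, sub_zero] at e
  refine (congrArg (fun f => HasSum f (deriv φ q)) (funext fun n => ?_)).mp e
  rw [PowerSeries.coeff_derivative, deriv_const_mul _ (by fun_prop), deriv_pow_field]
  simp only [Nat.add_sub_cancel, Nat.cast_add, Nat.cast_one]
  ring

theorem zero (h : Loc a φ) : φ 0 = PowerSeries.constantCoeff a := by
  have e := h.self_of_nhds.unique (hasSum_single 0 fun n hn => by simp [hn])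
  simpa using e

theorem add (h : Loc a φ) (h' : Loc b ψ) : Loc (a + b) fun q => φ q + ψ q := by
  filter_upwards [h, h'] with q hq hq'
  simpa only [map_add, add_mul] using hq.add hq'

theorem mul (h : Loc a φ) (h' : Loc b ψ) : Loc (a * b) fun q => φ q * ψ q := by
  filter_upwards [h, h'] with q hq hq'
  have h1 := summable_norm_iff.2 hq.summable
  have h2 := summable_norm_iff.2 hq'.summable
  have e := (summable_norm_sum_mul_antidiagonal_of_summable_norm h1 h2).of_norm.hasSum
  rw [← tsum_mul_tsum_eq_tsum_sum_antidiagonal_of_summable_norm h1 h2, hq.tsum_eq,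
    hq'.tsum_eq] at e
  refine (congrArg (fun f => HasSum f (φ q * ψ q)) (funext fun n => ?_)).mp e
  rw [PowerSeries.coeff_mul, Finset.sum_mul]
  refine Finset.sum_congr rfl fun p hp => ?_
  rw [← Finset.HasAntidiagonal.mem_antidiagonal.1 hp, pow_add]
  ring

theorem const (c : ℂ) : Loc (PowerSeries.C c) fun _ => c := Eventually.of_forall fun q => by
  have e := hasSum_single (f := fun n : ℕ => PowerSeries.coeff n (PowerSeries.C c) * q ^ n) 0
    fun n hn => by simp [PowerSeries.coeff_C, hn]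
  simpa using e

theorem var : Loc PowerSeries.X fun q => q := Eventually.of_forall fun q => by
  have e := hasSum_single
    (f := fun n : ℕ => PowerSeries.coeff n (PowerSeries.X : ℂ⟦X⟧) * q ^ n) 1
    fun n hn => by simp [PowerSeries.coeff_X, hn]
  simpa using e

theorem uniq (h : Loc a φ) (h' : Loc b ψ) (e : ∀ᶠ q in 𝓝[≠] (0 : ℂ), φ q = ψ q) : a = b := by
  have e0 : φ 0 = ψ 0 := tendsto_nhds_unique
    (((ana h).continuousAt.tendsto.mono_left nhdsWithin_le_nhds).congr' e)
    ((ana h').continuousAt.tendsto.mono_left nhdsWithin_le_nhds)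
  have e1 : ∀ᶠ q in 𝓝 (0 : ℂ), φ q = ψ q := by
    rw [eventually_nhdsWithin_iff] at e
    filter_upwards [e] with q hq
    rcases eq_or_ne q 0 with rfl | h0
    · exact e0
    · exact hq h0
  have e2 := (fps h).eq_formalMultilinearSeries_of_eventually (fps h') e1
  refine PowerSeries.ext fun n => ?_
  simpa only [FormalMultilinearSeries.coeff_ofScalars] using
    congrArg (fun p : FormalMultilinearSeries ℂ ℂ ℂ => p.coeff n) e2

theorem conv (h : Conv a φ) : Loc a φ := by
  filter_upwards [ball_mem_nhds (0 : ℂ) one_pos] with q hq using h q hq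

theorem norm_eq (z : ℍ) : ‖nome z‖ = Real.exp (-(2 * π * z.im)) := by
  unfold nome
  rw [Complex.norm_exp]
  have h : (2 * (π : ℂ) * Complex.I * (z : ℂ)).re = -(2 * π * z.im) := by
    simp
  rw [h]

theorem nome_iff (P : ℂ → Prop) :
    (∀ᶠ q in 𝓝[≠] (0 : ℂ), P q) ↔ ∀ᶠ z in atImInfty, P (nome z) := by
  have hpi : 0 < 2 * π := by positivity
  constructor
  · intro h
    rw [eventually_nhdsWithin_iff] at h
    obtain ⟨R, hR, h⟩ := Metric.eventually_nhds_iff_ball.1 h
    refine (atImInfty_mem _).2 ⟨(1 - Real.log R) / (2 * π), fun z hz => ?_⟩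
    refine h _ (mem_ball_zero_iff.2 ?_) (T2x.nome_ne z)
    rw [norm_eq, ← Real.lt_log_iff_exp_lt hR]
    rw [div_le_iff₀ hpi] at hz
    linarith
  · intro h
    obtain ⟨A, hA⟩ := (atImInfty_mem _).1 h
    rw [eventually_nhdsWithin_iff]
    have hR : 0 < min 1 (Real.exp (-(2 * π * A))) := lt_min one_pos (Real.exp_pos _)
    filter_upwards [ball_mem_nhds (0 : ℂ) hR] with q hq h0
    rw [mem_ball_zero_iff, lt_min_iff] at hq
    obtain ⟨z, rfl⟩ := T2x.exists_nome h0 hq.1
    refine hA z ?_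
    have h2 := hq.2
    rw [norm_eq, Real.exp_lt_exp, neg_lt_neg_iff] at h2
    exact (lt_of_mul_lt_mul_left h2 hpi.le).le

end LOCx

theorem loc : S_LOC :=
  ⟨fun _ _ => LOCx.ana, fun _ => LOCx.ex, fun _ _ => LOCx.der, fun _ _ => LOCx.zero,
    fun _ _ _ _ => LOCx.add, fun _ _ _ _ => LOCx.mul, LOCx.const, LOCx.var,
    fun _ _ _ _ => LOCx.uniq, fun _ _ => LOCx.conv, LOCx.nome_iff⟩

end

end Pool.Agent.MP_b2c033_nt.UH
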