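import Pool.Agent.MP_b2c033_nt.UH.Spec
import Pool.Agent.MP_b2c033_nt.H87.M4b
import Pool.Agent.MP_b2c033_nt.H87.T1

/-! Descent of a relation from complex to rational coefficients, near the cusp. -/

namespace Pool.Agent.MP_b2c033_nt.UH

open Filter PowerSeries
open UpperHalfPlane hiding I
open Pool.Agent.MP_b2c033_nt.H87

namespace M4Lx

theorem cmul (h : S_LOC) {a b : ℚ⟦X⟧} {α β : ℂ → ℂ} (h1 : Loc (cx a) α) (h2 : Loc (cx b) β) :
    Loc (cx (a * b)) fun q => α q * β q := by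
  simpa [cx] using h.mul _ _ _ _ h1 h2

theorem cone (h : S_LOC) : Loc (cx 1) fun _ => 1 := by simpa [cx] using h.const 1

theorem of_rep (h : S_LOC) {φ : ℍ → ℂ} {k : L} (h1 : Rep φ k) : RepL φ k := by
  obtain ⟨a, e, α, ε, ha, he, hk, hz⟩ := h1
  refine ⟨a, e, α, ε, h.conv _ _ ha, h.conv _ _ he, fun h0 => ?_, hk,
    .of_forall fun z => (hz z).2⟩
  have h1 := he (nome UpperHalfPlane.I) (by simpa using T2x.norm_nome _)
  rw [h0] at h1
  simp only [cx, map_zero, zero_mul] at h1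
  exact (hz _).1 (h1.unique hasSum_zero)

theorem rep_mul (h : S_LOC) {φ ψ : ℍ → ℂ} {k l : L} (h1 : RepL φ k) (h2 : RepL ψ l) :
    RepL (fun z => φ z * ψ z) (k * l) := by
  obtain ⟨a, e, α, ε, ha, he, e0, hk, hz⟩ := h1
  obtain ⟨a', e', α', ε', ha', he', e0', hk', hz'⟩ := h2
  refine ⟨a * a', e * e', _, _, cmul h ha ha', cmul h he he', mul_ne_zero e0 e0', ?_, ?_⟩
  · rw [map_mul, map_mul, ← hk, ← hk']; ring
  · filter_upwards [hz, hz'] with z k1 k2
    rw [← k1, ← k2]; ring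

theorem common (h : S_LOC) {ι : Type} [DecidableEq ι] (s : Finset ι) (φ : ι → ℍ → ℂ) (k : ι → L)
    (hR : ∀ i ∈ s, RepL (φ i) (k i)) : ∃ (e : ℚ⟦X⟧) (ε : ℂ → ℂ), Loc (cx e) ε ∧ e ≠ 0 ∧
      ∀ i ∈ s, ∃ (a : ℚ⟦X⟧) (α : ℂ → ℂ), Loc (cx a) α ∧
        k i * iq e = iq a ∧ ∀ᶠ z in atImInfty, φ i z * ε (nome z) = α (nome z) := by
  induction s using Finset.induction_on with
  | empty => exact ⟨1, _, cone h, one_ne_zero, by simp⟩
  | insert i s _ ih =>
    obtain ⟨e, ε, he, hε, H⟩ := ih fun i hi => hR i (Finset.mem_insert_of_mem hi)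
    obtain ⟨a', e', α', ε', ha', he', e0, hk', hz'⟩ := hR i (Finset.mem_insert_self _ _)
    refine ⟨e * e', _, cmul h he he', mul_ne_zero hε e0, fun j hj => ?_⟩
    rcases Finset.mem_insert.1 hj with rfl | hj
    · refine ⟨a' * e, _, cmul h ha' he, ?_, hz'.mono fun z hz => ?_⟩
      · rw [map_mul, map_mul, ← hk']; ring
      · rw [← hz]; ring
    · obtain ⟨a, α, ha, hk, hz⟩ := H j hj
      refine ⟨a * e', _, cmul h ha he', ?_, hz.mono fun z hz => ?_⟩
      · rw [map_mul, map_mul, ← hk]; ring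
      · rw [← hz]; ring

theorem csum (h : S_LOC) {ι : Type} [DecidableEq ι] (s : Finset ι) (c : ι → ℂ) (a : ι → ℂ⟦X⟧)
    (α : ι → ℂ → ℂ) (H : ∀ i ∈ s, Loc (a i) (α i)) :
    Loc (∑ i ∈ s, C (c i) * a i) fun q => ∑ i ∈ s, c i * α i q := by
  induction s using Finset.induction_on with
  | empty => simpa using h.const 0
  | insert i s hi ih =>
    simp only [Finset.sum_insert hi]
    exact h.add _ _ _ _ (h.mul _ _ _ _ (h.const _) (H i (Finset.mem_insert_self _ _)))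
      (ih fun i hi => H i (Finset.mem_insert_of_mem hi))

theorem key (h : S_LOC) {ι : Type} [DecidableEq ι] (s : Finset ι) (φ : ι → ℍ → ℂ) (k : ι → L)
    (c : ι → ℂ) (hR : ∀ i ∈ s, RepL (φ i) (k i)) (H0 : ∀ z, ∑ i ∈ s, c i * φ i z = 0)
    (π : ℂ →ₗ[ℚ] ℚ) : ∑ i ∈ s, ((π (c i) : ℚ) : L) * k i = 0 := by
  obtain ⟨e, ε, -, hε, H⟩ := common h s φ k hR
  choose! a α ha hk hz using H
  have he0 : iq e ≠ 0 := (map_ne_zero_iff _ T2x.iq_inj).2 hε
  have e1 : ∑ i ∈ s, C (c i) * cx (a i) = C 0 := by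
    refine h.uniq _ _ _ _ (csum h s c (fun i => cx (a i)) α ha) (h.const 0) ((h.nome _).2 ?_)
    filter_upwards [(Finset.eventually_all s).2 hz] with z hz
    rw [← zero_mul (ε (nome z)), ← H0 z, Finset.sum_mul]
    exact Finset.sum_congr rfl fun i hi => by rw [← hz i hi]; ring
  have e3 : (∑ i ∈ s, ((π (c i) : ℚ) : L) * k i) * iq e = iq (∑ i ∈ s, C (π (c i)) * a i) := by
    rw [Finset.sum_mul, map_sum]
    exact Finset.sum_congr rfl fun i hi => by rw [map_mul, T2x.iq_C, ← hk i hi, algMapL]; ring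
  have e4 : ∀ n, π (coeff n (∑ i ∈ s, C (c i) * cx (a i))) =
      coeff n (∑ i ∈ s, C (π (c i)) * a i) := fun n => by
    rw [map_sum, map_sum, map_sum]
    refine Finset.sum_congr rfl fun i _ => ?_
    rw [coeff_C_mul, coeff_C_mul, cx, coeff_map, mul_comm, ← Algebra.smul_def, map_smul,
      smul_eq_mul, mul_comm]
  rw [← mul_eq_zero_iff_right he0, e3, map_eq_zero_iff _ T2x.iq_inj]
  ext n
  rw [← e4, e1]
  simp

end M4Lx

open M4Lx

theorem m4l (h : S_LOC) : S_M4L := by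
  intro u j t F J T n A B hu hj ht hJ hT hAB ⟨z₀, hz₀⟩
  obtain ⟨D, hD⟩ : ∃ D, ∀ i < n, (A i).natDegree < D ∧ (B i).natDegree < D := by
    refine ⟨∑ i ∈ Finset.range n, ((A i).natDegree + (B i).natDegree) + 1, fun i hi => ?_⟩
    have := Finset.single_le_sum (f := fun i => (A i).natDegree + (B i).natDegree)
      (fun _ _ => Nat.zero_le _) (Finset.mem_range.2 hi)
    omega
  set s := Finset.range n ×ˢ Finset.range D with hs
  have hm : ∀ p : ℕ × ℕ, Rep (fun z => j z ^ p.2 * t z ^ p.1) (J ^ p.2 * T ^ p.1) := fun p =>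
    M4bx.rep_mul t1 (M4bx.rep_pow t1 hj _) (M4bx.rep_pow t1 ht _)
  have k1 := M4bx.key t1 s (fun p z => j z ^ p.2 * t z ^ p.1) (fun p => J ^ p.2 * T ^ p.1)
    (fun p => (B p.1).coeff p.2) fun p _ => hm p
  have k2 := key h (s.disjSum s)
    (Sum.elim (fun p z => u z * (j z ^ p.2 * t z ^ p.1)) fun p z => j z ^ p.2 * t z ^ p.1)
    (Sum.elim (fun p => F * (J ^ p.2 * T ^ p.1)) fun p => J ^ p.2 * T ^ p.1)
    (Sum.elim (fun p => (B p.1).coeff p.2) fun p => -(A p.1).coeff p.2)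
    (by rintro (p | p) _; exacts [rep_mul h hu (of_rep h (hm p)), of_rep h (hm p)]) fun z => by
      have := hAB z
      rw [M4bx.expand n D A (fun i hi => (hD i hi).1), M4bx.expand n D B (fun i hi => (hD i hi).2),
        Finset.mul_sum] at this
      simp only [Finset.sum_disjSum, Sum.elim_inl, Sum.elim_inr, neg_mul, Finset.sum_neg_distrib]
      rw [← this, add_neg_eq_zero]
      exact Finset.sum_congr rfl fun p _ => by ring
  have k3 : ¬ ∀ π : ℂ →ₗ[ℚ] ℚ,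
      ∑ p ∈ s, ((π ((B p.1).coeff p.2) : ℚ) : L) * (J ^ p.2 * T ^ p.1) = 0 := fun H =>
    hz₀ (by rw [M4bx.expand n D B (fun i hi => (hD i hi).2)]; exact k1.2 H z₀)
  push Not at k3
  obtain ⟨π, hπ⟩ := k3
  have k4 := k2 π
  simp only [Finset.sum_disjSum, Sum.elim_inl, Sum.elim_inr] at k4
  have hmem : ∀ c : ℕ × ℕ → ℚ, ∑ p ∈ s, ((c p : ℚ) : L) * (J ^ p.2 * T ^ p.1) ∈
      IntermediateField.adjoin ℚ {J, T} := fun c =>
    sum_mem fun p _ => mul_mem (by rw [← algMapL]; exact IntermediateField.algebraMap_mem _ _)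
      (mul_mem (pow_mem (IntermediateField.subset_adjoin _ _ (by simp)) _)
        (pow_mem (IntermediateField.subset_adjoin _ _ (by simp)) _))
  refine (t3 t1 J T F ?_).2 hJ hT
  have e : F = -(∑ p ∈ s, ((π (-(A p.1).coeff p.2) : ℚ) : L) * (J ^ p.2 * T ^ p.1)) /
      ∑ p ∈ s, ((π ((B p.1).coeff p.2) : ℚ) : L) * (J ^ p.2 * T ^ p.1) := by
    rw [eq_div_iff hπ, eq_neg_iff_add_eq_zero, ← k4, Finset.mul_sum]
    congr 1
    exact Finset.sum_congr rfl fun p _ => by ring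
  rw [e]
  exact div_mem (neg_mem (hmem _)) (hmem _)

end Pool.Agent.MP_b2c033_nt.UH
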