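import Pool.Agent.MP_b2c033_nt.UH.Spec
import Pool.Agent.MP_b2c033_nt.H87.M1
import Pool.Agent.MP_b2c033_nt.H87.M2
import Pool.Agent.MP_b2c033_nt.H87.M3a
import Pool.Agent.MP_b2c033_nt.H87.M3b
import Pool.Agent.MP_b2c033_nt.H87.M3c
import Pool.Agent.MP_b2c033_nt.H87.M5
import Pool.Agent.MP_b2c033_nt.H87.M6b
import Pool.Agent.MP_b2c033_nt.H87.T1

/-! A modular function with a rational expansion near the cusp has its expansion in the fraction
field of the integral series. -/

namespace Pool.Agent.MP_b2c033_nt.UH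

open Filter Asymptotics Polynomial
open UpperHalfPlane hiding I
open Pool.Agent.MP_b2c033_nt.H87
open scoped Real Manifold MatrixGroups Topology ModularForm

namespace MODx

theorem e4_smul (γ : SL(2, ℤ)) (z : ℍ) : ModularForm.E₄ (γ • z) =
    ((γ 1 0 : ℂ) * z + (γ 1 1 : ℂ)) ^ 4 * ModularForm.E₄ z := by
  have h := SlashInvariantForm.slash_action_eqn' (Γ := 𝒮ℒ) ModularForm.E₄
    (γ := Matrix.SpecialLinearGroup.mapGL ℝ γ) (MonoidHom.mem_range.2 ⟨γ, rfl⟩) z
  refine Eq.trans h ?_
  simp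

theorem jj_smul (γ : SL(2, ℤ)) (z : ℍ) : jj (γ • z) = jj z := by
  have h1 := M6bx.den_ne γ z
  have h2 := ModularForm.discriminant_ne_zero z
  simp only [jj, e4_smul, M6bx.disc_smul]
  field_simp

theorem jj_hol : MDifferentiable 𝓘(ℂ) 𝓘(ℂ) jj :=
  ((ModularFormClass.holo ModularForm.E₄).pow 3).div
    (ModularFormClass.holo CuspForm.discriminant) ModularForm.discriminant_ne_zero

theorem pj_hol (P : ℂ[X]) : MDifferentiable 𝓘(ℂ) 𝓘(ℂ) fun z => P.eval (jj z) :=
  (mdifferentiable_iff_differentiable.2 P.differentiable).comp jj_hol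

theorem jj_ne (c : ℂ) : ¬ ∀ z, jj z = c := by
  intro hc
  let g : ModularForm 𝒮ℒ 12 := ModularForm.mcast (by norm_num) (ModularForm.E₄.pow 3)
  have hg : ∀ z, g z = ModularForm.E₄ z ^ 3 := fun z => by
    simp only [g, ModularForm.coe_mcast, ModularForm.coe_pow, Pi.pow_apply]
  have hg0 : (qExpansion 1 g).coeff 0 = 1 := by
    simp only [g, ModularForm.coe_mcast,
      ModularForm.qExpansion_pow one_pos one_mem_strictPeriods_SL]
    rw [PowerSeries.coeff_zero_eq_constantCoeff, map_pow,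
      ← PowerSeries.coeff_zero_eq_constantCoeff_apply,
      EisensteinSeries.E_qExpansion_coeff_zero _ ⟨2, rfl⟩, one_pow]
  have hcusp : ModularForm.IsCuspForm g := by
    refine ⟨c • CuspForm.discriminant, ?_⟩
    ext z
    have h3 : jj z * ModularForm.discriminant z = ModularForm.E₄ z ^ 3 :=
      div_mul_cancel₀ _ (ModularForm.discriminant_ne_zero z)
    rw [hg, ← h3, hc]
    rfl
  rw [ModularForm.isCuspForm_iff_coeffZero_eq_zero, hg0] at hcusp
  exact one_ne_zero hcusp

theorem pj_ne (n : ℕ) : ∀ P : ℂ[X], P.natDegree = n → P ≠ 0 →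
    (fun z => P.eval (jj z)) ≠ (0 : ℍ → ℂ) := by
  induction n using Nat.strong_induction_on with
  | _ n ih =>
    intro P hn hP h0
    have hr : P.IsRoot (jj UpperHalfPlane.I) := congrFun h0 UpperHalfPlane.I
    obtain ⟨Q, rfl⟩ := dvd_iff_isRoot.2 hr
    have hQ : Q ≠ 0 := right_ne_zero_of_mul hP
    have hd : Q.natDegree < n := by
      rw [← hn, natDegree_mul (X_sub_C_ne_zero _) hQ, natDegree_X_sub_C]
      omega
    have h1 : (fun z => (X - C (jj UpperHalfPlane.I)).eval (jj z)) *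
        (fun z => Q.eval (jj z)) = (0 : ℍ → ℂ) := by
      rw [← h0]
      funext z
      simp only [Pi.mul_apply, eval_mul]
    rcases (UpperHalfPlane.mul_eq_zero_iff (pj_hol _) (pj_hol Q)).1 h1 with h | h
    · refine jj_ne (jj UpperHalfPlane.I) fun z => ?_
      have := congrFun h z
      simpa [sub_eq_zero] using this
    · exact ih _ hd Q rfl hQ h

end MODx

open MODx M6bx

theorem mod (h : S_M4L) : S_MOD := by
  intro M u F P hM hP hinvu hmeru hF
  have h5 : 5 ≤ 5 * M := by omega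
  have : NeZero (5 * M) := ⟨by omega⟩
  have a := m3a
  have b := m3b
  have t := m3t
  have d := m3d m3t m3c
  obtain ⟨κ, s, hκ, hs⟩ := a (5 * M) h5
  obtain ⟨⟨J, hJ, hJz⟩, hT⟩ := m5b t1 m5
  obtain ⟨T, hT1, hT2⟩ := hT s _ hs
  set tt : ℍ → ℂ := fun z => κ * Eis (5 * M) 1 0 z / ModularForm.discriminant z with htt
  have htr : ∀ (γ : SL(2, ℤ)) (z : ℍ), tt (γ • z) =
      κ * Eis (5 * M) (γ 1 1 : ZMod (5 * M)) (-(γ 1 0 : ZMod (5 * M))) z /
        ModularForm.discriminant z := fun γ z => by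
    have h1 := den_ne γ z
    have h2 := ModularForm.discriminant_ne_zero z
    simp only [htt, t (5 * M) 1 0 γ z, disc_smul, mul_one, mul_zero, sub_zero, zero_sub]
    field_simp
  have hmer : Mer tt := by
    refine ⟨?_, fun γ => ⟨2 * π, ?_⟩⟩
    · exact (mdifferentiable_const.mul (b (5 * M) 1 0).1).div
        (ModularFormClass.holo CuspForm.discriminant) ModularForm.discriminant_ne_zero
    · simp only [htr]
      have h1 := (b (5 * M) (γ 1 1 : ZMod (5 * M)) (-(γ 1 0 : ZMod (5 * M)))).2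
      have h2 := ModularForm.exp_isBigO_discriminant.inv_rev
        (Eventually.of_forall fun z h => absurd h (Real.exp_pos _).ne')
      have h3 := (h1.const_mul_left κ).mul h2
      refine h3.congr (fun z => by rw [div_eq_mul_inv]) fun z => ?_
      rw [← Real.exp_neg]; simp
  have hinv : ∀ γ ∈ CongruenceSubgroup.Gamma1 (5 * M), ∀ z, tt (γ • z) = tt z := fun γ hγ z => by
    rw [CongruenceSubgroup.Gamma1_mem] at hγ
    rw [htr, hγ.2.1, hγ.2.2, neg_zero]
  have hstab : ∀ γ : SL(2, ℤ), (∀ z, tt (γ • z) = tt z) → ∀ z, u (γ • z) = u z := by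
    intro γ hγ z
    have h1 : ∀ z, Eis (5 * M) (γ 1 1 : ZMod (5 * M)) (-(γ 1 0 : ZMod (5 * M))) z =
        Eis (5 * M) 1 0 z := fun z => by
      have h2 := hγ z
      rw [htr, htt] at h2
      exact mul_left_cancel₀ hκ ((div_left_inj' (ModularForm.discriminant_ne_zero z)).1 h2)
    rcases d (5 * M) γ h5 h1 with h | h
    · exact hinvu γ (gamma_le M h) z
    · have := hinvu (-γ) (gamma_le M h) z
      rwa [ModularGroup.SL_neg_smul] at this
  obtain ⟨n, A, B, hAB, z₀, hB⟩ := m2 m1 tt (fun z => P.eval (jj z) * u z)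
    (CongruenceSubgroup.Gamma1 (5 * M)) inferInstance hmer hmeru hinv
    (fun γ hγ z => by rw [jj_smul, hstab γ hγ z])
  have hsum : ∀ z, ∑ i ∈ Finset.range n, (P * B i).eval (jj z) * tt z ^ i =
      P.eval (jj z) * ∑ i ∈ Finset.range n, (B i).eval (jj z) * tt z ^ i := fun z => by
    rw [Finset.mul_sum]
    exact Finset.sum_congr rfl fun i _ => by rw [eval_mul, mul_assoc]
  refine h u jj tt F J T n A (fun i => P * B i) hF hJ hT1 hJz hT2 (fun z => ?_) ?_
  · rw [hsum, ← hAB z]
    ring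
  · by_contra h0
    push Not at h0
    have hh : MDifferentiable 𝓘(ℂ) 𝓘(ℂ)
        fun z => ∑ i ∈ Finset.range n, (B i).eval (jj z) * tt z ^ i := by
      have h1 : ∀ m : ℕ, MDifferentiable 𝓘(ℂ) 𝓘(ℂ)
          fun z => ∑ i ∈ Finset.range m, (B i).eval (jj z) * tt z ^ i := fun m => by
        induction m with
        | zero => simpa using mdifferentiable_const
        | succ m ih =>
          simp only [Finset.sum_range_succ]
          exact ih.add ((pj_hol (B m)).mul (hmer.1.pow m))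
      exact h1 n
    have h1 : (fun z => P.eval (jj z)) *
        (fun z => ∑ i ∈ Finset.range n, (B i).eval (jj z) * tt z ^ i) = (0 : ℍ → ℂ) := by
      funext z
      rw [Pi.mul_apply, ← hsum, h0 z]
      rfl
    rcases (UpperHalfPlane.mul_eq_zero_iff (pj_hol P) hh).1 h1 with h2 | h2
    · exact pj_ne _ P rfl hP h2
    · exact hB (congrFun h2 z₀)

end Pool.Agent.MP_b2c033_nt.UH
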