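import Pool.Agent.MP_b2c033_nt.UH.Spec

/-! Clearing the poles in the upper half plane by a polynomial in `j`. -/

namespace Pool.Agent.MP_b2c033_nt.UH

open Filter Polynomial
open UpperHalfPlane hiding I
open Pool.Agent.MP_b2c033_nt.H87
open scoped Real Manifold MatrixGroups Topology

noncomputable section

namespace POLEx

theorem ana {f : ℍ → ℂ} (hf : MDifferentiable 𝓘(ℂ) 𝓘(ℂ) f) (z : ℍ) :
    AnalyticAt ℂ (f ∘ ofComplex) z :=
  (UpperHalfPlane.mdifferentiable_iff.1 hf).analyticAt (isOpen_upperHalfPlaneSet.mem_nhds z.im_pos)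

theorem jj_hol : MDifferentiable 𝓘(ℂ) 𝓘(ℂ) jj := fun z =>
  mdifferentiableAt_iff.2 ((((ana ModularForm.E₄.holo' z).pow 3).div
    (ana CuspForm.discriminant.holo' z) (by
      simpa using ModularForm.discriminant_ne_zero z)).differentiableAt)

theorem jj_inv (γ : SL(2, ℤ)) (z : ℍ) : jj (γ • z) = jj z := by
  have hγ : (γ : GL (Fin 2) ℝ) ∈ 𝒮ℒ := ⟨γ, rfl⟩
  have h1 := SlashInvariantForm.slash_action_eqn'' ModularForm.E₄ hγ z
  have h2 := SlashInvariantForm.slash_action_eqn'' CuspForm.discriminant hγ z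
  have h3 := denom_ne_zero (γ : GL (Fin 2) ℝ) z
  have h4 := ModularForm.discriminant_ne_zero z
  rw [CuspForm.coe_discriminant] at h2
  have e : (γ : GL (Fin 2) ℝ) • z = γ • z := rfl
  rw [e] at h1 h2
  rw [jj, jj, h1, h2]
  field_simp

theorem ev (P : ℂ[X]) (z : ℍ) : AnalyticAt ℂ (fun w => P.eval ((jj ∘ ofComplex) w)) z :=
  (P.differentiable.analyticAt _).comp (ana jj_hol z)

theorem one {E : ℂ → ℂ} {φ : ℍ → ℂ} (hE : Meromorphic E) (hφ : MDifferentiable 𝓘(ℂ) 𝓘(ℂ) φ)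
    (z : ℍ) : ∃ k : ℕ, DifferentiableAt ℂ
      (fun w => ((jj ∘ ofComplex) w - jj z) ^ k * E ((φ ∘ ofComplex) w)) z := by
  obtain ⟨k, hk⟩ := (hE _).comp_analyticAt (ana hφ z)
  have hn := isOpen_upperHalfPlaneSet.mem_nhds z.im_pos
  have h1 := ((Complex.differentiableOn_dslope hn).2 (UpperHalfPlane.mdifferentiable_iff.1 jj_hol)).differentiableAt
    hn
  refine ⟨k, ?_⟩
  have e : (fun w => ((jj ∘ ofComplex) w - jj z) ^ k * E ((φ ∘ ofComplex) w)) = fun w =>
      dslope (jj ∘ ofComplex) z w ^ k * ((w - z) ^ k • (E ∘ φ ∘ ofComplex) w) := by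
    funext w
    have := sub_smul_dslope (jj ∘ ofComplex) (z : ℂ) w
    rw [Function.comp_apply (x := (z : ℂ)), ofComplex_apply, smul_eq_mul] at this
    rw [← this, mul_pow, smul_eq_mul]
    simp only [Function.comp_apply]
    ring
  rw [e]
  exact (h1.pow k).mul hk.differentiableAt

end POLEx

open POLEx in
theorem pole : S_POLE := by
  classical
  intro Λ E N φ Z hE hφ _ hZ
  choose k hk using one hE.mer hφ.hol
  refine ⟨∏ z ∈ Z, (X - C (jj z)) ^ k z,
    Finset.prod_ne_zero_iff.2 fun z _ => pow_ne_zero _ (X_sub_C_ne_zero _), fun z => ?_⟩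
  obtain ⟨P, hP⟩ : ∃ P : ℂ[X], P = ∏ z ∈ Z, (X - C (jj z)) ^ k z := ⟨_, rfl⟩
  rw [← hP]
  by_cases h : φ z ∈ Λ.lattice
  · obtain ⟨γ, hγ, z₀, h0, rfl⟩ := hZ z h
    have h1 : MDifferentiableAt 𝓘(ℂ) 𝓘(ℂ) (fun z => P.eval (jj z) * E (φ z)) z₀ := by
      refine mdifferentiableAt_iff.2 ?_
      have := (ev (∏ z ∈ Z.erase z₀, (X - C (jj z)) ^ k z) z₀).differentiableAt.mul (hk z₀)
      refine this.congr_of_eventuallyEq (.of_forall fun w => ?_)
      rw [hP, ← Finset.prod_erase_mul _ _ h0]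
      simp only [Function.comp_apply, Pi.mul_apply, eval_mul, eval_pow, eval_sub, eval_X, eval_C,
        mul_assoc]
    have h2 : MDifferentiable 𝓘(ℂ) 𝓘(ℂ) fun z : ℍ => γ⁻¹ • z :=
      mdifferentiable_smul
        (g := (Matrix.SpecialLinearGroup.mapGL ℝ γ⁻¹ : GL (Fin 2) ℝ)) (by simp)
    have h3 := h1.comp_of_eq (γ • z₀) (h2 (γ • z₀)) (inv_smul_smul γ z₀)
    have e : ((fun z => P.eval (jj z) * E (φ z)) ∘ fun z : ℍ => γ⁻¹ • z) =
        fun z => P.eval (jj z) * E (φ z) := by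
      funext w
      have := hE.per (φ w) _ (hφ.per γ⁻¹ (inv_mem hγ) w)
      rw [add_sub_cancel] at this
      simp only [Function.comp_apply, jj_inv, this]
    rwa [e] at h3
  · refine mdifferentiableAt_iff.2 ((ev P z).mul
      (AnalyticAt.comp (g := E) (hE.ana _ ?_) (ana hφ.hol z))).differentiableAt
    simpa using h

end

end Pool.Agent.MP_b2c033_nt.UH
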