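import Pool.Agent.MP_b2c033_nt.UH.Spec

/-! The Weierstrass parametrization in the chart at infinity. -/

namespace Pool.Agent.MP_b2c033_nt.UH

open Filter WeierstrassCurve
open scoped Topology

namespace WPx

theorem alg (V : WeierstrassCurve ℂ) {x y : ℂ → ℂ} {z : ℂ}
    (hx : HasDerivAt x (2 * y z + V.a₁ * x z + V.a₃) z) (hy : DifferentiableAt ℂ y z)
    (hp : 2 * y z + V.a₁ * x z + V.a₃ ≠ 0) (h0 : y z ≠ 0)
    (he : ∀ᶠ w in 𝓝 z, y w * y w + V.a₁ * (x w * y w) + V.a₃ * y w =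
      x w * x w * x w + V.a₂ * (x w * x w) + V.a₄ * x w + V.a₆) :
    Eq0 V (-x z / y z) (-1 / y z) ∧
      deriv (fun w => -x w / y w) z = HH V (-x z / y z) (-1 / y z) := by
  have hy := hy.hasDerivAt
  have e0 := he.self_of_nhds
  have d1 := ((hy.fun_mul hy).fun_add ((hx.fun_mul hy).const_mul V.a₁)).fun_add
    (hy.const_mul V.a₃)
  have d2 := (((((hx.fun_mul hx).fun_mul hx).fun_add ((hx.fun_mul hx).const_mul V.a₂)).fun_add
    (hx.const_mul V.a₄)).add_const V.a₆).congr_of_eventuallyEq he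
  have e1 : deriv y z = 3 * x z ^ 2 + 2 * V.a₂ * x z + V.a₄ - V.a₁ * y z :=
    mul_left_cancel₀ hp (by linear_combination d1.unique d2)
  refine ⟨?_, ?_⟩
  · unfold Eq0
    field_simp
    linear_combination -e0
  · rw [(hx.fun_neg.fun_div hy h0).deriv, e1, HH]
    field_simp
    linear_combination -3 * e0

theorem main (V : WeierstrassCurve ℂ) (Λ : PeriodPair) (h2 : Λ.g₂ = V.c₄ / 12)
    (h3 : Λ.g₃ = V.c₆ / 216) : ∃ T U : ℂ → ℂ, AnalyticAt ℂ T 0 ∧ AnalyticAt ℂ U 0 ∧ T 0 = 0 ∧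
    U 0 = 0 ∧ (∀ᶠ z in 𝓝 (0 : ℂ), Eq0 V (T z) (U z) ∧ deriv T z = HH V (T z) (U z)) ∧
    ∀ᶠ z in 𝓝[≠] (0 : ℂ), U z * (Λ.weierstrassP z - V.b₂ / 12) = T z ∧
      U z * (Λ.derivWeierstrassP z - V.a₁ * (Λ.weierstrassP z - V.b₂ / 12) - V.a₃) = -2 := by
  obtain ⟨x, hx⟩ : ∃ x : ℂ → ℂ, x = fun z => Λ.weierstrassP z - V.b₂ / 12 := ⟨_, rfl⟩
  obtain ⟨y, hy⟩ : ∃ y : ℂ → ℂ, y = fun z => (Λ.derivWeierstrassP z - V.a₁ * x z - V.a₃) / 2 :=
    ⟨_, rfl⟩
  obtain ⟨a, ha⟩ : ∃ a : ℂ → ℂ, a = fun z => 1 + z ^ 2 * (Λ.weierstrassPExcept 0 z - V.b₂ / 12) :=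
    ⟨_, rfl⟩
  obtain ⟨c, hc⟩ : ∃ c : ℂ → ℂ, c = fun z => -2 + z ^ 3 * Λ.derivWeierstrassPExcept 0 z := ⟨_, rfl⟩
  obtain ⟨b, hb⟩ : ∃ b : ℂ → ℂ, b = fun z => (c z - V.a₁ * z * a z - V.a₃ * z ^ 3) / 2 := ⟨_, rfl⟩
  have aa : AnalyticAt ℂ a 0 := by rw [ha]; fun_prop
  have ac : AnalyticAt ℂ c 0 := by rw [hc]; fun_prop
  have ab : AnalyticAt ℂ b 0 := by rw [hb]; fun_prop
  have c0 : c 0 ≠ 0 := by simp [hc]
  have b0 : b 0 ≠ 0 := by simpa [hb] using c0
  have ea : ∀ z, z ≠ 0 → a z = z ^ 2 * x z := fun z hz => by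
    have := Λ.weierstrassPExcept_def 0 z
    simp only [ZeroMemClass.coe_zero, sub_zero] at this
    simp only [ha, hx, this]
    field_simp
    ring
  have ec : ∀ z, z ≠ 0 → c z = z ^ 3 * Λ.derivWeierstrassP z := fun z hz => by
    have := Λ.derivWeierstrassPExcept_def 0 z
    simp only [ZeroMemClass.coe_zero, sub_zero] at this
    simp only [hc, this]
    field_simp
    ring
  have eb : ∀ z, z ≠ 0 → b z = z ^ 3 * y z := fun z hz => by
    simp only [hb, hy, ea z hz, ec z hz]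
    ring
  have ep : ∀ z, 2 * y z + V.a₁ * x z + V.a₃ = Λ.derivWeierstrassP z := fun z => by
    simp only [hy]
    ring
  have aT : AnalyticAt ℂ (fun z => -z * a z / b z) 0 := AnalyticAt.fun_div (by fun_prop) ab b0
  have aU : AnalyticAt ℂ (fun z => -z ^ 3 / b z) 0 := AnalyticAt.fun_div (by fun_prop) ab b0
  have eT : ∀ z, z ≠ 0 → -z * a z / b z = -x z / y z := fun z hz => by
    rw [ea z hz, eb z hz, ← mul_div_mul_left (-x z) _ (pow_ne_zero 3 hz)]
    ring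
  have eU : ∀ z, z ≠ 0 → -z ^ 3 / b z = -1 / y z := fun z hz => by
    rw [eb z hz, ← mul_div_mul_left (-1) _ (pow_ne_zero 3 hz)]
    ring
  have n : ∀ᶠ z in 𝓝[≠] (0 : ℂ), z ≠ 0 ∧ z ∉ Λ.lattice ∧ y z ≠ 0 ∧ Λ.derivWeierstrassP z ≠ 0 := by
    filter_upwards [self_mem_nhdsWithin, mem_nhdsWithin_of_mem_nhds
      (Λ.compl_lattice_sdiff_singleton_mem_nhds 0), mem_nhdsWithin_of_mem_nhds
      (ab.continuousAt.eventually_ne b0), mem_nhdsWithin_of_mem_nhds
      (ac.continuousAt.eventually_ne c0)] with z h1 h2 h3 h4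
    exact ⟨h1, fun r => h2 ⟨r, h1⟩, fun r => h3 (by rw [eb z h1, r, mul_zero]),
      fun r => h4 (by rw [ec z h1, r, mul_zero])⟩
  have key : ∀ᶠ z in 𝓝[≠] (0 : ℂ), Eq0 V (-z * a z / b z) (-z ^ 3 / b z) ∧
      deriv (fun z => -z * a z / b z) z = HH V (-z * a z / b z) (-z ^ 3 / b z) :=
    n.mono fun z ⟨h1, h2, h3, h4⟩ => by
      have d := (Λ.analyticOnNhd_weierstrassP z h2).differentiableAt.hasDerivAt
      have d' := (Λ.analyticOnNhd_derivWeierstrassP z h2).differentiableAt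
      rw [Λ.deriv_weierstrassP] at d
      have dx : HasDerivAt x (Λ.derivWeierstrassP z) z := hx ▸ d.sub_const _
      have := alg V (x := x) (y := y) (by rwa [ep]) (by
        have := dx.differentiableAt
        rw [hy]
        fun_prop) (by rwa [ep]) h3 (by
        filter_upwards [Λ.isClosed_lattice.isOpen_compl.mem_nhds h2] with w hw
        have := Λ.derivWeierstrassP_sq w hw
        simp only [hy, hx]
        simp only [c₄, c₆, b₂, b₄, b₆, ‹Λ.g₂ = _›, ‹Λ.g₃ = _›] at this ⊢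
        linear_combination this / 4)
      rwa [eT z h1, eU z h1, EventuallyEq.deriv_eq
        ((eventually_ne_nhds h1).mono eT)]
  refine ⟨_, _, aT, aU, by simp, by simp, Eventually.and ?_ ?_, n.mono fun z ⟨h1, _, h3, _⟩ => ?_⟩
  · exact (aU.frequently_eq_iff_eventually_eq (by fun_prop)).1 (key.mono fun _ h => h.1).frequently
  · exact (aT.deriv.frequently_eq_iff_eventually_eq (by unfold HH; fun_prop)).1
      (key.mono fun _ h => h.2).frequently
  · have e1 : Λ.weierstrassP z - V.b₂ / 12 = x z := by rw [hx]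
    rw [eT z h1, eU z h1, e1, ← ep]
    constructor <;> field_simp
    ring

end WPx

theorem wp : S_WP := fun W Λ h2 h3 => by
  simpa using WPx.main (bc W ℂ) Λ (by simpa using h2) (by simpa using h3)

end Pool.Agent.MP_b2c033_nt.UH
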