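import Pool.Agent.MP_b2c033_nt.U.Spec
import Pool.Agent.MP_b2c033_nt.UH.All4
import Pool.Agent.MP_b2c033_nt.UH.LOC
import Pool.Agent.MP_b2c033_nt.UH.M4L
import Pool.Agent.MP_b2c033_nt.UH.MOD
import Pool.Agent.MP_b2c033_nt.UH.CUSP
import Pool.Agent.MP_b2c033_nt.UH.FINZ
import Pool.Agent.MP_b2c033_nt.UH.POLE
import Pool.Agent.MP_b2c033_nt.UH.GROW
import Pool.Agent.MP_b2c033_nt.UH.WP
import Pool.Agent.MP_b2c033_nt.UH.H1b
import Pool.Agent.MP_b2c033_nt.UG.HON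
import Pool.Agent.MP_b2c033_nt.UG.AllG

/-! The outputs of the blocks H and A4. -/

namespace Pool.Agent.MP_b2c033_nt

theorem UH.h1All : UH.S_H1 :=
  UH.h1b UH.loc UH.bd (UH.mod (UH.m4l UH.loc)) UH.cusp UH.finz UH.pole UH.grow UH.wp

theorem UH.hAll : UH.S_H := UH.hfin UH.h1All UH.h2All UH.h5All

theorem U.s_Hon : U.S_Hon := fun V _ _ C ι φ _ hR W L hW hL =>
  UG.hon UG.exp UH.hAll V C ι φ W L hR hW hL

theorem U.s_Ap : U.S_Ap := fun W _ => UG.apf UH.h4All W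

theorem U.s_Gal0 : U.S_Gal0 := UG.gal0

theorem U.s_Gal1 : U.S_Gal1 := UG.gal1

end Pool.Agent.MP_b2c033_nt
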