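import Pool.Agent.MP_b2c033_nt.UH.Spec

/-! Reduction to the representatives over the fields with two and three elements. -/

namespace Pool.Agent.MP_b2c033_nt.UH

open WeierstrassCurve

namespace F23x

/-- the coefficients after a change of variables with `u = 1` -/
def vc {R : Type} [CommRing R] (a b c d e r s t : R) : List R :=
  [a + 2 * s, b - s * a + 3 * r - s ^ 2, c + r * a + 2 * t,
    d - s * c + 2 * r * b - (t + r * s) * a + 3 * r ^ 2 - 2 * s * t,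
    e + r * d + r ^ 2 * b + r ^ 3 - t * c - t ^ 2 - r * t * a]

theorem cnt_eq {p : ℕ} [Fact p.Prime] (a b c d e : ZMod p) : cnt ⟨a, b, c, d, e⟩ =
    (Finset.univ.filter fun v : ZMod p × ZMod p =>
      v.2 ^ 2 + a * v.1 * v.2 + c * v.2 = v.1 ^ 3 + b * v.1 ^ 2 + d * v.1 + e).card := by
  classical
  rw [cnt, Nat.card_eq_fintype_card, Fintype.card_subtype]
  exact congrArg _ (Finset.filter_congr fun v _ => Affine.equation_iff _ _)

theorem key {p : ℕ} [Fact p.Prime] (hV : S_FVC) {a b c d e r s t a' b' c' d' e' : ZMod p} {n : ℤ}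
    (h : vc a b c d e r s t = [a', b', c', d', e']) (hF : FR p ⟨a', b', c', d', e'⟩ n 1)
    (hc : (p : ℤ) - cnt ⟨a', b', c', d', e'⟩ = n) :
    FR p ⟨a, b, c, d, e⟩ (p - cnt ⟨a, b, c, d, e⟩) 1 ∧ (p : ℤ) - cnt ⟨a, b, c, d, e⟩ = n := by
  simp only [vc, List.cons.injEq, and_true] at h
  obtain ⟨h1, h2, h3, h4, h5⟩ := h
  have e0 : (⟨1, r, s, t⟩ : VariableChange (ZMod p)) • (⟨a, b, c, d, e⟩ : WeierstrassCurve _) =
      ⟨a', b', c', d', e'⟩ := by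
    ext <;> simp [variableChange_a₁, variableChange_a₂, variableChange_a₃, variableChange_a₄,
      variableChange_a₆, h1, h2, h3, h4, h5]
  obtain ⟨k1, k2⟩ := hV p ⟨a, b, c, d, e⟩ ⟨1, r, s, t⟩
  rw [e0] at k1 k2
  rw [← k1, hc]
  exact ⟨k2 n 1 hF, rfl⟩

theorem two : ∀ a b c d e : ZMod 2, (⟨a, b, c, d, e⟩ : WeierstrassCurve (ZMod 2)).Δ ≠ 0 →
    ∃ r s t, vc a b c d e r s t ∈ [[0, 0, 1, 0, 0], [0, 0, 1, 1, 0], [0, 0, 1, 1, 1],
      [1, 0, 0, 0, 1], [1, 1, 0, 0, 1]] := by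
  decide +kernel

theorem three : ∀ a b c d e : ZMod 3, (⟨a, b, c, d, e⟩ : WeierstrassCurve (ZMod 3)).Δ ≠ 0 →
    ∃ r s t, vc a b c d e r s t ∈ [[0, 0, 0, 1, 0], [0, 0, 0, 2, 0], [0, 0, 0, 2, 1],
      [0, 0, 0, 2, 2], [0, 1, 0, 0, 1], [0, 1, 0, 0, 2], [0, 2, 0, 0, 1], [0, 2, 0, 0, 2]] := by
  decide +kernel

end F23x

open F23x in
theorem f23 : S_F23 := by
  rintro hV ⟨a1, a2, a3, a4, a5⟩ ⟨b1, b2, b3, b4⟩ ⟨c1, c2, c3, c4⟩
  constructor
  · rintro ⟨a, b, c, d, e⟩ h0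
    have fin : ∀ n : ℤ, n ^ 2 < 4 * 2 → FR 2 ⟨a, b, c, d, e⟩ ((2 : ℕ) - cnt ⟨a, b, c, d, e⟩) 1 ∧
        ((2 : ℕ) : ℤ) - cnt (p := 2) ⟨a, b, c, d, e⟩ = n →
        FR 2 ⟨a, b, c, d, e⟩ (2 - cnt ⟨a, b, c, d, e⟩) 1 ∧
          ((2 : ℤ) - cnt (p := 2) ⟨a, b, c, d, e⟩) ^ 2 < 4 * 2 :=
      fun n hn h => ⟨h.1, (show (2 : ℤ) - _ = n from h.2) ▸ hn⟩
    obtain ⟨r, s, t, h⟩ := two a b c d e h0
    simp only [List.mem_cons, List.not_mem_nil, or_false] at h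
    rcases h with h | h | h | h | h
    · exact fin _ (by norm_num) (key hV h a1 (by rw [cnt_eq]; decide +kernel))
    · exact fin _ (by norm_num) (key hV h a2 (by rw [cnt_eq]; decide +kernel))
    · exact fin _ (by norm_num) (key hV h a3 (by rw [cnt_eq]; decide +kernel))
    · exact fin _ (by norm_num) (key hV h a4 (by rw [cnt_eq]; decide +kernel))
    · exact fin _ (by norm_num) (key hV h a5 (by rw [cnt_eq]; decide +kernel))
  · rintro ⟨a, b, c, d, e⟩ h0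
    have fin : ∀ n : ℤ, n ^ 2 ≤ 9 → FR 3 ⟨a, b, c, d, e⟩ ((3 : ℕ) - cnt ⟨a, b, c, d, e⟩) 1 ∧
        ((3 : ℕ) : ℤ) - cnt (p := 3) ⟨a, b, c, d, e⟩ = n →
        FR 3 ⟨a, b, c, d, e⟩ (3 - cnt ⟨a, b, c, d, e⟩) 1 ∧
          ((3 : ℤ) - cnt (p := 3) ⟨a, b, c, d, e⟩) ^ 2 ≤ 9 :=
      fun n hn h => ⟨h.1, (show (3 : ℤ) - _ = n from h.2) ▸ hn⟩
    obtain ⟨r, s, t, h⟩ := three a b c d e h0
    simp only [List.mem_cons, List.not_mem_nil, or_false] at h
    rcases h with h | h | h | h | h | h | h | h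
    · exact fin _ (by norm_num) (key hV h b1 (by rw [cnt_eq]; decide +kernel))
    · exact fin _ (by norm_num) (key hV h b2 (by rw [cnt_eq]; decide +kernel))
    · exact fin _ (by norm_num) (key hV h b3 (by rw [cnt_eq]; decide +kernel))
    · exact fin _ (by norm_num) (key hV h b4 (by rw [cnt_eq]; decide +kernel))
    · exact fin _ (by norm_num) (key hV h c1 (by rw [cnt_eq]; decide +kernel))
    · exact fin _ (by norm_num) (key hV h c2 (by rw [cnt_eq]; decide +kernel))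
    · exact fin _ (by norm_num) (key hV h c3 (by rw [cnt_eq]; decide +kernel))
    · exact fin _ (by norm_num) (key hV h c4 (by rw [cnt_eq]; decide +kernel))

end Pool.Agent.MP_b2c033_nt.UH
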