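import Pool.Agent.MP_b2c033_nt.UH.Spec
import Pool.Agent.MP_b2c033_nt.H87.All

/-! Assembly of the integrality theorem for the formal point. -/

namespace Pool.Agent.MP_b2c033_nt.UH

open PowerSeries WeierstrassCurve
open Pool.Agent.MP_b2c033_nt.H87
open scoped LaurentSeries

namespace H2x

theorem eq0_map {R R' : Type} [CommRing R] [CommRing R'] (f : R →+* R') (W : WeierstrassCurve ℤ)
    {t w : R} (h : Eq0 (bc W R) t w) : Eq0 (bc W R') (f t) (f w) := by
  have := congrArg f h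
  simpa only [Eq0, map_a₁, map_a₂, map_a₃, map_a₄, map_a₆, eq_intCast, map_add, map_mul, map_pow,
    map_intCast] using this

theorem hh_map {R R' : Type} [CommRing R] [CommRing R'] (f : R →+* R') (W : WeierstrassCurve ℤ)
    (t w : R) : f (HH (bc W R) t w) = HH (bc W R') (f t) (f w) := by
  simp only [HH, map_a₁, map_a₂, map_a₃, map_a₄, map_a₆, eq_intCast, map_sub, map_mul, map_pow,
    map_intCast, map_one, map_ofNat]

theorem hh_unit {R : Type} [CommRing R] (V : WeierstrassCurve R) (I : Ideal R)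
    (hI : ∀ x ∈ I, IsUnit (1 + x)) {t w : R} (ht : t ∈ I) (hw : w ∈ I) : IsUnit (HH V t w) := by
  have : HH V t w = 1 + ((-V.a₁ - V.a₂ * t - 2 * V.a₄ * w) * t + (-2 * V.a₃ - 3 * V.a₆ * w) * w) := by
    rw [HH]; ring
  rw [this]
  exact hI _ (I.add_mem (I.mul_mem_left _ ht) (I.mul_mem_left _ hw))

theorem der_der (R : Type) [CommRing R] : Der fun a : R⟦X⟧ => derivative R a :=
  ⟨fun a b => map_add _ a b, fun a b => by
    rw [Derivation.leibniz, smul_eq_mul, smul_eq_mul, mul_comm b]⟩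

theorem map_inj : Function.Injective (map iq : ℚ⟦X⟧⟦X⟧ →+* L⟦X⟧) :=
  PowerSeries.map_injective iq P7x.iq_inj

/-- the shift on power series -/
noncomputable def s0 (a : ℚ⟦X⟧) : ℚ⟦X⟧⟦X⟧ := mk fun n => Hs n a

theorem s0_map (S : Shift) (a : ℚ⟦X⟧) : map iq (s0 a) = S.tau (iq a) := by
  ext1 n; rw [coeff_map, s0, coeff_mk, S.ps]

/-- the shift as a ring homomorphism -/
noncomputable def sh (S : Shift) : ℚ⟦X⟧ →+* ℚ⟦X⟧⟦X⟧ where
  toFun := s0
  map_one' := map_inj (by rw [s0_map S, map_one, map_one, map_one])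
  map_mul' a b := map_inj (by rw [map_mul, s0_map S, s0_map S, s0_map S, map_mul, map_mul])
  map_zero' := map_inj (by rw [s0_map S, map_zero, map_zero, map_zero])
  map_add' a b := map_inj (by rw [map_add, s0_map S, s0_map S, s0_map S, map_add, map_add])

theorem sh_map (S : Shift) (a : ℚ⟦X⟧) : map iq (sh S a) = S.tau (iq a) := s0_map S a

theorem sh_c (S : Shift) (a : ℚ⟦X⟧) : constantCoeff (sh S a) = a := by
  apply P7x.iq_inj
  rw [← coeff_zero_eq_constantCoeff_apply, ← coeff_map, sh_map, S.c0]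

theorem sh_der (S : Shift) (a : ℚ⟦X⟧) :
    derivative ℚ⟦X⟧ (sh S a) = sh S (derivative ℚ a) := by
  apply map_inj
  rw [← P7x.der_map, sh_map, sh_map, S.der, ← (p0b S).ps]
  rfl

theorem sh_zero (S : Shift) (g : ℚ⟦X⟧) : map (constantCoeff (R := ℚ)) (sh S g) = g := by
  ext n
  rw [coeff_map]
  change constantCoeff (coeff n (s0 g)) = _
  rw [s0, coeff_mk, ← coeff_zero_eq_constantCoeff_apply, Hs, coeff_mk]
  simp

theorem dw {W : WeierstrassCurve ℤ} {g t w : ℚ⟦X⟧} (t0 : constantCoeff t = 0)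
    (w0 : constantCoeff w = 0) (heq : Eq0 (bc W ℚ⟦X⟧) t w)
    (hode : derivative ℚ t = g * HH (bc W ℚ⟦X⟧) t w) :
    derivative ℚ w = g * KK (bc W ℚ⟦X⟧) t w := by
  have hu : HH (bc W ℚ⟦X⟧) t w ≠ 0 := fun h => by
    have := congrArg constantCoeff h
    simp [HH, t0, w0] at this
  have h1 := congrArg (derivative ℚ) heq
  simp only [map_a₁, map_a₂, map_a₃, map_a₄, map_a₆, eq_intCast, map_add, Derivation.leibniz,
    Derivation.leibniz_pow, Derivation.map_intCast, smul_eq_mul, nsmul_eq_mul] at h1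
  apply mul_left_cancel₀ hu
  simp only [HH, KK, map_a₁, map_a₂, map_a₃, map_a₄, map_a₆, eq_intCast] at hode ⊢
  push_cast at h1
  linear_combination h1 + (3 * t ^ 2 + W.a₁ * w + 2 * W.a₂ * t * w + W.a₄ * w ^ 2) * hode

theorem den_one {r : ℚ} (h : ∀ p : ℕ, p.Prime → ∃ a s : ℤ, ¬ (p : ℤ) ∣ s ∧ r * s = a) :
    (r.num : ℚ) = r := by
  refine (Rat.den_eq_one_iff _).1 (by_contra fun hd => ?_)
  obtain ⟨p, hp, hpd⟩ := Nat.exists_prime_and_dvd hd
  obtain ⟨a, s, hs, e⟩ := h p hp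
  have e1 : (r.num : ℚ) * s = a * (r.den : ℤ) := by
    rw [← e, ← Rat.mul_den_eq_num r]; push_cast; ring
  have e2 : r.num * s = a * (r.den : ℤ) := by exact_mod_cast e1
  have hP : Prime (p : ℤ) := Nat.prime_iff_prime_int.1 hp
  have h3 : (p : ℤ) ∣ r.num * s := by
    rw [e2]; exact Dvd.dvd.mul_left (by exact_mod_cast hpd) _
  rcases hP.dvd_or_dvd h3 with h5 | h5
  · have := Nat.dvd_gcd (Int.natCast_dvd.1 h5) hpd
    rw [r.reduced] at this
    exact hp.one_lt.ne' (Nat.dvd_one.1 this)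
  · exact hs h5

theorem cap {p : ℕ} [Fact p.Prime] {k : ℚ⟦X⟧} (h1 : iq k ∈ P7x.Bd) (h2 : iq k ∈ Op p) :
    ∃ a s : ℤ, ¬ (p : ℤ) ∣ s ∧ constantCoeff k * s = a := by
  obtain ⟨N, γ, hN0, hγ⟩ := h1
  obtain ⟨r, s, hs, hrs⟩ := (p4a p).cap γ N _ hN0 h2 hγ
  have e1 : k * N = map (Int.castRingHom ℚ) γ := by
    apply P7x.iq_inj
    rw [map_mul, map_intCast]
    exact hγ
  have e2 := congrArg (constantCoeff (R := ℚ)) e1
  rw [map_mul, map_intCast, ← coeff_zero_eq_constantCoeff_apply (map _ γ), coeff_map] at e2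
  refine ⟨r, s, hs, ?_⟩
  have hN' : (N : ℚ) ≠ 0 := by exact_mod_cast hN0
  have hrs' : ((coeff 0 γ : ℤ) : ℚ) * s = r * N := by exact_mod_cast hrs
  apply mul_right_cancel₀ hN'
  rw [← hrs', eq_intCast] at *
  rw [← e2]; ring

theorem frz (W : WeierstrassCurve ℤ) {x y : L} (hx : FrZ x) (hy : FrZ y) :
    FrZ (4 * x) ∧ FrZ (4 * (2 * y + W.a₁ * x + W.a₃)) := by
  have mx : x ∈ IntermediateField.adjoin ℚ {x, y} := IntermediateField.subset_adjoin _ _ (by simp)
  have my : y ∈ IntermediateField.adjoin ℚ {x, y} := IntermediateField.subset_adjoin _ _ (by simp)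
  exact ⟨(t3 t1 x y _ (mul_mem (ofNat_mem _ 4) mx)).2 hx hy,
    (t3 t1 x y _ (mul_mem (ofNat_mem _ 4) (add_mem (add_mem
      (mul_mem (ofNat_mem _ 2) my) (mul_mem (intCast_mem _ _) mx)) (intCast_mem _ _)))).2 hx hy⟩

end H2x

open H2x in
theorem h2 (hc : S_CW) (hg : S_GRP) (hu : S_UNI) (hb : S_BD) (hm : S_MIN) (hd : S_DIF)
    (ht : S_TR) : S_H2 := by
  classical
  intro W g t w hΔ hmin t0 w0 wne heq hode hx hy
  have := charZeroL
  obtain ⟨S⟩ := p0
  have b := p0b S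
  have wL : iq w ≠ 0 := fun h => wne (P7x.iq_inj (by rw [h, map_zero]))
  set x : L := iq t / iq w with hxdef
  set y : L := -1 / iq w with hydef
  have xw : x * iq w = iq t := div_mul_cancel₀ _ wL
  have yw : y * iq w = -1 := div_mul_cancel₀ _ wL
  have hHne : HH (bc W ℚ⟦X⟧) t w ≠ 0 := fun h => by
    have := congrArg constantCoeff h
    simp [HH, t0, w0] at this
  have eqL := eq0_map iq W heq
  have hL : HH (bc W L) (iq t) (iq w) ≠ 0 := by
    rw [← hh_map]; exact fun h => hHne (P7x.iq_inj (by rw [h, map_zero]))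
  have hE : y ^ 2 + W.a₁ * x * y + W.a₃ * y = x ^ 3 + W.a₂ * x ^ 2 + W.a₄ * x + W.a₆ := by
    have := (Affine.equation_iff _ _).1 (hc.ns L _ _ _ eqL hL wL).1
    simpa only [map_a₁, map_a₂, map_a₃, map_a₄, map_a₆, eq_intCast] using this
  have xnc : ∀ c : ℚ, x ≠ (c : L) := fun c h => by
    have := ht ℚ L _ iq t w P7x.iq_inj t0 w0 heq wne (Polynomial.X - Polynomial.C c)
      (Polynomial.X_sub_C_ne_zero c)
    rw [Polynomial.eval₂_sub, Polynomial.eval₂_X, Polynomial.eval₂_C, RingHom.comp_apply,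
      P7x.iq_C, ← hxdef, h, sub_self] at this
    exact this rfl
  have hDx : S.D x ≠ 0 := fun h => by
    obtain ⟨c, hc⟩ := b.ker x h
    exact xnc c (hc.trans (algMapL c))
  set η : L := 2 * y + W.a₁ * x + W.a₃ with hη
  have ηw : η * iq w = iq (-2 + W.a₁ * t + W.a₃ * w) := by
    simp only [map_add, map_mul, map_neg, map_intCast, map_ofNat]
    linear_combination 2 * yw + W.a₁ * xw
  have η0 : η ≠ 0 := fun h => by
    rw [h, zero_mul] at ηw
    have := congrArg constantCoeff (P7x.iq_inj (ηw.symm.trans (map_zero iq).symm))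
    simp [t0, w0, map_ofNat] at this
  have Dxg : S.D x = iq g * η := by
    have h1 := congrArg S.D xw
    rw [b.isDer.mul, b.ps, b.ps, hode, dw t0 w0 heq hode] at h1
    simp only [HH, KK, Eq0, map_a₁, map_a₂, map_a₃, map_a₄, map_a₆, eq_intCast, map_add, map_sub,
      map_mul, map_pow, map_neg, map_intCast, map_ofNat, map_one] at h1 eqL ηw
    apply mul_right_cancel₀ (mul_ne_zero wL wL)
    linear_combination iq w * h1 - iq g * iq w * ηw + 3 * iq g * eqL
      - iq g * (3 * iq t ^ 2 + W.a₁ * iq w + 2 * W.a₂ * iq t * iq w + W.a₄ * iq w ^ 2) * xw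
  have h4L : (4 : L) ≠ 0 := by norm_num
  have hs : (4 * η) ^ 2 = (4 * x) ^ 3 + (W.b₂ : ℤ) * (4 * x) ^ 2 + (8 * W.b₄ : ℤ) * (4 * x)
      + (16 * W.b₆ : ℤ) := by
    simp only [b₂, b₄, b₆, hη]
    push_cast
    linear_combination 64 * hE
  have fx : FrZ (4 * x) := (frz W hx hy).1
  have fy : FrZ (4 * η) := (frz W hx hy).2
  have D4 : S.D (4 * x) = 4 * S.D x := by
    have h4 := b.isDer.rat 4
    rw [b.isDer.mul, show ((4 : ℚ) : L) = 4 by norm_num] at *
    rw [h4]; ring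
  have hdisc : disc W.b₂ (8 * W.b₄) (16 * W.b₆) = 256 * W.Δ := by
    simp only [disc, Δ, b₂, b₄, b₆, b₈]; ring
  have hd0 : disc W.b₂ (8 * W.b₄) (16 * W.b₆) ≠ 0 := by
    rw [hdisc]; exact mul_ne_zero (by norm_num) hΔ
  obtain ⟨g₀, hg₀⟩ := p1 S.D _ _ _ _ _ b.isDer b.zs fx fy (mul_ne_zero h4L η0) hs
  have hg1 : iq g * (disc W.b₂ (8 * W.b₄) (16 * W.b₆) : ℤ) = io g₀ := by
    apply mul_right_cancel₀ (mul_ne_zero h4L η0)
    rw [hg₀, D4, Dxg]; ring
  have hG : ∀ n, coeff n (S.tau (iq g)) ∈ P7x.Bd := fun n => by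
    refine ⟨_, Hs n g₀, hd0, ?_⟩
    rw [← b.zh, ← hg1, map_mul, map_intCast]
    have : ((disc W.b₂ (8 * W.b₄) (16 * W.b₆) : ℤ) : L⟦X⟧)
        = C ((disc W.b₂ (8 * W.b₄) (16 * W.b₆) : ℤ) : L) := (map_intCast _ _).symm
    rw [this, coeff_mul_C]
  -- the difference point
  let F := FractionRing L⟦X⟧
  let al : L⟦X⟧ →+* F := algebraMap _ _
  have al_inj : Function.Injective al := IsFractionRing.injective _ _
  have : CharZero F := charZero_of_injective_ringHom (f := al.comp C) (al.comp C).injective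
  let I : Ideal ℚ⟦X⟧⟦X⟧ := RingHom.ker ((constantCoeff (R := ℚ)).comp (constantCoeff (R := ℚ⟦X⟧)))
  have hI : ∀ z ∈ I, IsUnit (1 + z) := fun z hz => by
    rw [isUnit_iff_constantCoeff, isUnit_iff_constantCoeff, map_add, map_add, map_one, map_one,
      show constantCoeff (constantCoeff z) = 0 from hz, add_zero]
    exact isUnit_one
  obtain ⟨G, hGm⟩ := hg ℚ⟦X⟧⟦X⟧ F W I _ (al.comp (map iq)) hI (der_der _)
  have m1 := (hGm _ (sh S g)).2 ⟨sh S t, sh S w,
    ⟨by rw [RingHom.mem_ker, RingHom.comp_apply, sh_c, t0],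
      by rw [RingHom.mem_ker, RingHom.comp_apply, sh_c, w0], eq0_map _ W heq⟩, rfl,
    by rw [sh_der, hode, map_mul, hh_map]⟩
  have m2 := (hGm _ 0).2 ⟨C t, C w,
    ⟨by rw [RingHom.mem_ker, RingHom.comp_apply, constantCoeff_C, t0],
      by rw [RingHom.mem_ker, RingHom.comp_apply, constantCoeff_C, w0],
      eq0_map _ W heq⟩, rfl, by rw [derivative_C, zero_mul]⟩
  obtain ⟨tD, wD, fD, pD, oD⟩ := (hGm _ _).1 (G.sub_mem m1 m2)
  rw [sub_zero] at oD
  have e1 : ∀ φ : L →+* F, pw (bc W F) (φ (iq t)) (φ (iq w)) = pa (bc W F) (φ x) (φ y) :=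
    fun φ => by
      rw [pw, if_neg ((map_ne_zero φ).2 wL), hxdef, hydef, map_div₀, map_div₀, map_neg, map_one]
  have e2 : ∀ φ : L →+* F, (bc W F).toAffine.Equation (φ x) (φ y) := fun φ => by
    rw [Affine.equation_iff]
    simpa only [map_a₁, map_a₂, map_a₃, map_a₄, map_a₆, eq_intCast, map_add, map_mul, map_pow,
      map_intCast] using congrArg φ hE
  simp only [RingHom.comp_apply, sh_map, map_C] at pD
  rw [show pw (bc W F) (al (S.tau (iq t))) (al (S.tau (iq w))) = _ from e1 (al.comp S.tau),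
    show pw (bc W F) (al (C (iq t))) (al (C (iq w))) = _ from e1 (al.comp C)] at pD
  have key : ∀ (p : ℕ) [Fact p.Prime], ∃ t' w' : (Op p)⟦X⟧, constantCoeff t' = 0 ∧
      constantCoeff w' = 0 ∧ map (Op p).subtype t' = map iq tD ∧
      map (Op p).subtype w' = map iq wD := by
    intro p hp'
    have hp := hp'.out
    have a := p4a p
    have hloc : IsLoc p (Op p) := ⟨a.dvr, a.nu, a.sep, fun ξ hξ P hP hk =>
      p4c p ξ hξ P hP (by
        obtain ⟨k, hk1, hk2⟩ := hk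
        refine ⟨k, hk1, Eq.trans ?_ hk2⟩
        exact congrArg (fun f : ℤ →+* L => Polynomial.eval₂ f ξ P) (Subsingleton.elim _ _))⟩
    have hτ := p4b p S.tau S.c0 b.zh
    have hbest := p5a L p (Op p) S.D _ _ _ _ _ hp hloc b.isDer (fun k hk => hτ k hk 1)
      (a.den _ fx) (a.den _ fy) (by rw [D4]; exact mul_ne_zero h4L hDx) hs
    obtain ⟨n, c, A, B₀, B₁, C₀, C₁, C₂, C₃, ξ, ζ, hS⟩ := p5b L p (Op p) _ _ _ _ _ hp hloc hs hbest
    obtain ⟨m, r, s, v, hC, q1, q2⟩ :=
      hm L (Op p) W p n c A B₀ B₁ C₀ C₁ C₂ C₃ x y ξ ζ hp hΔ hmin hS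
    have sinj : Function.Injective (map (Op p).subtype : (Op p)⟦X⟧ →+* L⟦X⟧) :=
      PowerSeries.map_injective _ Subtype.val_injective
    obtain ⟨ξ₁, hξ₁⟩ := (P6x.mem_OS _ _).2 (hτ ξ hS.hξ)
    obtain ⟨ζ₁, hζ₁⟩ := (P6x.mem_OS _ _).2 (hτ ζ hS.hη)
    have hξ₂ : map (Op p).subtype (C ⟨ξ, hS.hξ⟩) = C ξ := by simp
    have hζ₂ : map (Op p).subtype (C ⟨ζ, hS.hη⟩) = C ζ := by simp
    let J : Ideal (Op p)⟦X⟧ := RingHom.ker constantCoeff
    have hJ : ∀ z ∈ J, IsUnit (1 + z) := fun z hz => by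
      rw [isUnit_iff_constantCoeff, map_add, map_one, show constantCoeff z = 0 from hz, add_zero]
      exact isUnit_one
    have cJ : ∀ (z : (Op p)⟦X⟧) (k : L) (hk : k ∈ Op p), map (Op p).subtype z = S.tau k →
        z - C ⟨k, hk⟩ ∈ J := fun z k hk h => by
      change constantCoeff _ = 0
      rw [map_sub, constantCoeff_C, sub_eq_zero]
      apply Subtype.ext
      have := congrArg (coeff 0) h
      rw [S.c0, coeff_map, coeff_zero_eq_constantCoeff_apply] at this
      exact this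
    obtain ⟨t', ht', w', hw', E', P'⟩ := hd (Op p)⟦X⟧ F J (al.comp (map (Op p).subtype)) W m r s v
      A B₀ B₁ C₀ C₁ C₂ C₃ ξ₁ ζ₁ (C ⟨ξ, hS.hξ⟩) (C ⟨ζ, hS.hη⟩) ((al.comp S.tau) x)
      ((al.comp S.tau) y) ((al.comp C) x) ((al.comp C) y) hJ hΔ hS.hA hS.hC hC
      (cJ _ _ _ hξ₁) (cJ _ _ _ hζ₁)
      (sinj (by
        simpa only [map_add, map_mul, map_pow, map_intCast, hξ₁, hζ₁] using congrArg S.tau hS.eqn))
      (sinj (by
        simpa only [map_add, map_mul, map_pow, map_intCast, hξ₂, hζ₂] using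
          congrArg (C (R := L)) hS.eqn))
      (by
        rcases hS.unit with ⟨k, hk, h⟩ | ⟨k, hk, h⟩
        · refine Or.inl (IsUnit.of_mul_eq_one_right (C ⟨k, hk⟩) (sinj ?_))
          simpa only [map_add, map_mul, map_pow, map_intCast, map_ofNat, map_one, map_C,
            Subring.subtype_apply] using congrArg (C (R := L)) h
        · refine Or.inr (IsUnit.of_mul_eq_one_right (C ⟨k, hk⟩) (sinj ?_))
          simpa only [map_add, map_sub, map_mul, map_pow, map_intCast, map_ofNat, map_one, map_C,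
            Subring.subtype_apply] using congrArg (C (R := L)) h)
      (by
        simpa only [RingHom.comp_apply, map_add, map_mul, map_pow, map_intCast, hξ₁] using
          congrArg (al.comp S.tau) q1)
      (by
        simpa only [RingHom.comp_apply, map_add, map_mul, map_pow, map_intCast, hξ₁, hζ₁] using
          congrArg (al.comp S.tau) q2)
      (by
        simpa only [RingHom.comp_apply, map_add, map_mul, map_pow, map_intCast, hξ₂] using
          congrArg (al.comp C) q1)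
      (by
        simpa only [RingHom.comp_apply, map_add, map_mul, map_pow, map_intCast, hξ₂, hζ₂] using
          congrArg (al.comp C) q2)
      (e2 _) (e2 _) (fun h => hDx (by
        rw [Shift.D, show S.tau x = C x from al_inj h, coeff_C]; simp))
    obtain ⟨r1, r2⟩ := hc.inj F _ _ _ _ _ E'
      (by rw [← hh_map]; exact ((hh_unit _ J hJ ht' hw').map _).ne_zero)
      (eq0_map (al.comp (map iq)) W fD.eqn)
      (by rw [← hh_map]; exact ((hh_unit _ I hI fD.ht fD.hw).map _).ne_zero) (P'.trans pD)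
    exact ⟨t', w', ht', hw', al_inj r1, al_inj r2⟩
  have c0 : ∀ {z' : (Op 2)⟦X⟧} {z : ℚ⟦X⟧⟦X⟧}, constantCoeff z' = 0 →
      map (Op 2).subtype z' = map iq z → constantCoeff (map iq z) = 0 := fun h1 h2 => by
    rw [← h2, ← coeff_zero_eq_constantCoeff_apply, coeff_map, coeff_zero_eq_constantCoeff_apply,
      h1, map_zero]
  obtain ⟨t2, w2, a1, a2, a3, a4⟩ := key 2
  have hB := hb L P7x.Bd W (S.tau (iq g)) (map iq tD) (map iq wD) P7x.rat_mem hG (c0 a1 a3)
    (c0 a2 a4) (eq0_map _ W fD.eqn) (by rw [P7x.der_map, oD, map_mul, sh_map, hh_map])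
  have cc : ∀ {z : ℚ⟦X⟧⟦X⟧}, z ∈ I → constantCoeff (map (constantCoeff (R := ℚ)) z) = 0 :=
    fun h => by
      rw [← coeff_zero_eq_constantCoeff_apply, coeff_map, coeff_zero_eq_constantCoeff_apply]
      exact h
  obtain ⟨u1, u2⟩ := hu W g t w (map constantCoeff tD) (map constantCoeff wD) t0 w0 (cc fD.ht)
    (cc fD.hw) heq (eq0_map _ W fD.eqn) hode
    (by rw [P7x.der_map, oD, map_mul, sh_zero, hh_map])
  refine ⟨mk fun n => (coeff n t).num, mk fun n => (coeff n w).num, ?_, ?_⟩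
  · ext n
    rw [coeff_map, coeff_mk, eq_intCast]
    refine den_one fun p hp => ?_
    have := Fact.mk hp
    obtain ⟨t', w', -, -, a3, -⟩ := key p
    rw [u1, coeff_map]
    refine cap (by rw [← coeff_map]; exact (hB n).1) ?_
    rw [← coeff_map, ← a3, coeff_map]
    exact (coeff n t').2
  · ext n
    rw [coeff_map, coeff_mk, eq_intCast]
    refine den_one fun p hp => ?_
    have := Fact.mk hp
    obtain ⟨t', w', -, -, -, a4⟩ := key p
    rw [u2, coeff_map]
    refine cap (by rw [← coeff_map]; exact (hB n).2) ?_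
    rw [← coeff_map, ← a4, coeff_map]
    exact (coeff n w').2

end Pool.Agent.MP_b2c033_nt.UH
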