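import Pool.Agent.MP_b2c033_nt.H87.Spec

/-! Row statements for block H (Honda congruences). -/

namespace Pool.Agent.MP_b2c033_nt.UH

open Filter Polynomial WeierstrassCurve
open UpperHalfPlane hiding I
open Pool.Agent.MP_b2c033_nt.H87
open scoped Real Manifold MatrixGroups Topology PowerSeries

noncomputable section

/-! ## Definitions -/

/-- number of affine points, the singular one included -/
def cnt {p : ℕ} (V : WeierstrassCurve (ZMod p)) : ℕ :=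
  Nat.card {v : ZMod p × ZMod p // V.toAffine.Equation v.1 v.2}

/-- the trace of Frobenius, at all primes -/
def apz (W : WeierstrassCurve ℤ) (p : ℕ) : ℤ := p - cnt (W.map (Int.castRingHom (ZMod p)))

/-- `1` at good primes, `0` at bad primes -/
def epz (W : WeierstrassCurve ℤ) (p : ℕ) : ℤ := if (p : ℤ) ∣ W.Δ then 0 else 1

/-- global minimality -/
def MinW (W : WeierstrassCurve ℤ) : Prop := ∀ (W' : WeierstrassCurve ℤ) (C : VariableChange ℚ),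
  C • W.map (Int.castRingHom ℚ) = W'.map (Int.castRingHom ℚ) → |W.Δ| ≤ |W'.Δ|

open Classical in
/-- the point with given affine coordinates -/
def pa {F : Type} [Field F] (V : WeierstrassCurve F) (x y : F) : V.toAffine.Point :=
  if h : V.toAffine.Nonsingular x y then .some x y h else 0

open Classical in
/-- the point with coordinates `t = -x/y`, `w = -1/y` -/
def pw {F : Type} [Field F] (V : WeierstrassCurve F) (t w : F) : V.toAffine.Point :=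
  if w = 0 then 0 else pa V (t / w) (-1 / w)

/-- three points on the line `y = l x + m` -/
structure Col {R : Type} [CommRing R] (V : WeierstrassCurve R) (l m x₁ y₁ x₂ y₂ x₃ y₃ : R) :
    Prop where
  h1 : y₁ = l * x₁ + m
  h2 : y₂ = l * x₂ + m
  h3 : y₃ = l * x₃ + m
  e1 : x₁ + x₂ + x₃ = l ^ 2 + V.a₁ * l - V.a₂
  e2 : x₁ * x₂ + x₁ * x₃ + x₂ * x₃ = V.a₄ - 2 * l * m - V.a₁ * m - V.a₃ * l
  e3 : x₁ * x₂ * x₃ = m ^ 2 + V.a₃ * m - V.a₆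

/-- the equation in the chart at infinity -/
def Eq0 {R : Type} [CommRing R] (V : WeierstrassCurve R) (t w : R) : Prop :=
  w = t ^ 3 + V.a₁ * t * w + V.a₂ * t ^ 2 * w + V.a₃ * w ^ 2 + V.a₄ * t * w ^ 2 + V.a₆ * w ^ 3

/-- denominator of the invariant differential `dt / HH` -/
def HH {R : Type} [CommRing R] (V : WeierstrassCurve R) (t w : R) : R :=
  1 - V.a₁ * t - V.a₂ * t ^ 2 - 2 * V.a₃ * w - 2 * V.a₄ * t * w - 3 * V.a₆ * w ^ 2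

/-- the other partial derivative: `HH dw = KK dt` -/
def KK {R : Type} [CommRing R] (V : WeierstrassCurve R) (t w : R) : R :=
  3 * t ^ 2 + V.a₁ * w + 2 * V.a₂ * t * w + V.a₄ * w ^ 2

/-- leading coefficient of the cubic on the line `w = l t + n` -/
def UU {R : Type} [CommRing R] (V : WeierstrassCurve R) (l : R) : R :=
  1 + V.a₂ * l + V.a₄ * l ^ 2 + V.a₆ * l ^ 3

/-- three points on the line `w = l t + n` -/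
structure Cw {R : Type} [CommRing R] (V : WeierstrassCurve R) (l n t₁ w₁ t₂ w₂ t₃ w₃ : R) :
    Prop where
  h1 : w₁ = l * t₁ + n
  h2 : w₂ = l * t₂ + n
  h3 : w₃ = l * t₃ + n
  e1 : UU V l * (t₁ + t₂ + t₃) =
    -(V.a₁ * l + V.a₂ * n + V.a₃ * l ^ 2 + 2 * V.a₄ * l * n + 3 * V.a₆ * l ^ 2 * n)
  e2 : UU V l * (t₁ * t₂ + t₁ * t₃ + t₂ * t₃) =
    V.a₁ * n + 2 * V.a₃ * l * n + V.a₄ * n ^ 2 + 3 * V.a₆ * l * n ^ 2 - l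
  e3 : UU V l * (t₁ * t₂ * t₃) = n - V.a₃ * n ^ 2 - V.a₆ * n ^ 3

/-- a formal point -/
structure FP {R : Type} [CommRing R] (V : WeierstrassCurve R) (I : Ideal R) (t w : R) : Prop where
  ht : t ∈ I
  hw : w ∈ I
  eqn : Eq0 V t w

/-- a derivation -/
structure Der {R : Type} [CommRing R] (D : R → R) : Prop where
  add : ∀ a b, D (a + b) = D a + D b
  mul : ∀ a b, D (a * b) = a * D b + D a * b

/-- the curve over another ring -/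
abbrev bc (W : WeierstrassCurve ℤ) (R : Type) [CommRing R] : WeierstrassCurve R :=
  W.map (Int.castRingHom R)

/-! ## H3: the group law -/

structure S_COL : Prop where
  of_sum : ∀ (F : Type) [Field F] [DecidableEq F] (V : WeierstrassCurve F) (x₁ y₁ x₂ y₂ x₃ y₃ : F),
    V.toAffine.Nonsingular x₁ y₁ → V.toAffine.Nonsingular x₂ y₂ → V.toAffine.Nonsingular x₃ y₃ →
    pa V x₁ y₁ + pa V x₂ y₂ + pa V x₃ y₃ = 0 → ∃ l m, Col V l m x₁ y₁ x₂ y₂ x₃ y₃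
  sum : ∀ (F : Type) [Field F] [DecidableEq F] (V : WeierstrassCurve F)
    (l m x₁ y₁ x₂ y₂ x₃ y₃ : F),
    V.toAffine.Nonsingular x₁ y₁ → V.toAffine.Nonsingular x₂ y₂ → V.toAffine.Nonsingular x₃ y₃ →
    Col V l m x₁ y₁ x₂ y₂ x₃ y₃ → pa V x₁ y₁ + pa V x₂ y₂ + pa V x₃ y₃ = 0

def S_ADD : Prop := ∀ (R : Type) [CommRing R] (V : WeierstrassCurve R) (I : Ideal R)
  (t₁ w₁ t₂ w₂ : R), (∀ x ∈ I, IsUnit (1 + x)) → FP V I t₁ w₁ → FP V I t₂ w₂ →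
  ∃ l ∈ I, ∃ n t₃ w₃, FP V I t₃ w₃ ∧ Cw V l n t₁ w₁ t₂ w₂ t₃ w₃

structure S_CW : Prop where
  ns : ∀ (F : Type) [Field F] (V : WeierstrassCurve F) (t w : F), Eq0 V t w → HH V t w ≠ 0 →
    w ≠ 0 → V.toAffine.Nonsingular (t / w) (-1 / w)
  inj : ∀ (F : Type) [Field F] (V : WeierstrassCurve F) (t w t' w' : F), Eq0 V t w → HH V t w ≠ 0 →
    Eq0 V t' w' → HH V t' w' ≠ 0 → pw V t w = pw V t' w' → t = t' ∧ w = w'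
  sum : ∀ (F : Type) [Field F] [DecidableEq F] (V : WeierstrassCurve F)
    (l n t₁ w₁ t₂ w₂ t₃ w₃ : F), UU V l ≠ 0 → HH V t₁ w₁ ≠ 0 → HH V t₂ w₂ ≠ 0 → HH V t₃ w₃ ≠ 0 →
    Cw V l n t₁ w₁ t₂ w₂ t₃ w₃ → pw V t₁ w₁ + pw V t₂ w₂ + pw V t₃ w₃ = 0

def S_OM : Prop := ∀ (R : Type) [CommRing R] (W : WeierstrassCurve ℤ) (D : R → R)
  (l n t₁ w₁ t₂ w₂ t₃ w₃ o₁ o₂ o₃ : R), Der D → IsUnit (UU (bc W R) l) →
  IsUnit (HH (bc W R) t₁ w₁) → IsUnit (HH (bc W R) t₂ w₂) → IsUnit (HH (bc W R) t₃ w₃) →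
  Cw (bc W R) l n t₁ w₁ t₂ w₂ t₃ w₃ → D t₁ = o₁ * HH (bc W R) t₁ w₁ →
  D t₂ = o₂ * HH (bc W R) t₂ w₂ → D t₃ = o₃ * HH (bc W R) t₃ w₃ → o₁ + o₂ + o₃ = 0

/-- the pairs (point, invariant differential) of formal points form a group -/
def S_GRP : Prop := ∀ (R F : Type) [CommRing R] [Field F] [DecidableEq F] (W : WeierstrassCurve ℤ)
  (I : Ideal R) (D : R → R) (f : R →+* F), (∀ x ∈ I, IsUnit (1 + x)) → Der D →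
  ∃ G : AddSubgroup ((bc W F).toAffine.Point × R), ∀ P o, (P, o) ∈ G ↔
    ∃ t w, FP (bc W R) I t w ∧ P = pw (bc W F) (f t) (f w) ∧ D t = o * HH (bc W R) t w

/-! ## H4: the Frobenius relation -/

/-- `e Φ ^ 2 - a Φ + p = 0` on points with transcendental abscissa -/
def FR (p : ℕ) [Fact p.Prime] (V : WeierstrassCurve (ZMod p)) (a e : ℤ) : Prop :=
  ∀ (K : Type) [Field K] [DecidableEq K] [CharP K p] (j : AlgebraicClosure (ZMod p) →+* K)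
    (x y : K), (∀ f : (AlgebraicClosure (ZMod p))[X], f ≠ 0 → f.eval₂ j x ≠ 0) →
    (V.map (ZMod.castHom (dvd_refl p) K)).toAffine.Nonsingular x y →
    e • pa (V.map (ZMod.castHom (dvd_refl p) K)) ((x ^ p) ^ p) ((y ^ p) ^ p)
      - a • pa (V.map (ZMod.castHom (dvd_refl p) K)) (x ^ p) (y ^ p)
      + (p : ℤ) • pa (V.map (ZMod.castHom (dvd_refl p) K)) x y = 0

def S_FVC : Prop := ∀ (p : ℕ) [Fact p.Prime] (V : WeierstrassCurve (ZMod p))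
  (C : VariableChange (ZMod p)), cnt (C • V) = cnt V ∧ ∀ a e, FR p (C • V) a e → FR p V a e

def S_F5 : Prop := ∀ (p : ℕ) [Fact p.Prime] (A B : ZMod p), 5 ≤ p →
  (⟨0, 0, 0, A, B⟩ : WeierstrassCurve (ZMod p)).Δ ≠ 0 →
  FR p ⟨0, 0, 0, A, B⟩ (p - cnt (⟨0, 0, 0, A, B⟩ : WeierstrassCurve (ZMod p))) 1

def S_HA : Prop := ∀ (p : ℕ) [Fact p.Prime] (A B : ZMod p), 5 ≤ p →
  (⟨0, 0, 0, A, B⟩ : WeierstrassCurve (ZMod p)).Δ ≠ 0 →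
  ((p : ℤ) - cnt (⟨0, 0, 0, A, B⟩ : WeierstrassCurve (ZMod p))) ^ 2 < 4 * p

/-- the five classes over the field with two elements -/
def S_F2 : Prop := FR 2 ⟨0, 0, 1, 0, 0⟩ 0 1 ∧ FR 2 ⟨0, 0, 1, 1, 0⟩ (-2) 1 ∧
  FR 2 ⟨0, 0, 1, 1, 1⟩ 2 1 ∧ FR 2 ⟨1, 0, 0, 0, 1⟩ (-1) 1 ∧ FR 2 ⟨1, 1, 0, 0, 1⟩ 1 1

/-- the supersingular classes over the field with three elements -/
def S_F3a : Prop := FR 3 ⟨0, 0, 0, 1, 0⟩ 0 1 ∧ FR 3 ⟨0, 0, 0, 2, 0⟩ 0 1 ∧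
  FR 3 ⟨0, 0, 0, 2, 1⟩ (-3) 1 ∧ FR 3 ⟨0, 0, 0, 2, 2⟩ 3 1

/-- the ordinary classes over the field with three elements -/
def S_F3b : Prop := FR 3 ⟨0, 1, 0, 0, 1⟩ (-2) 1 ∧ FR 3 ⟨0, 1, 0, 0, 2⟩ 1 1 ∧
  FR 3 ⟨0, 2, 0, 0, 1⟩ (-1) 1 ∧ FR 3 ⟨0, 2, 0, 0, 2⟩ 2 1

/-- reduction to the representatives -/
def S_F23 : Prop := S_FVC → S_F2 → S_F3a → S_F3b →
  (∀ V : WeierstrassCurve (ZMod 2), V.Δ ≠ 0 →
    FR 2 V (2 - cnt V) 1 ∧ ((2 : ℤ) - cnt V) ^ 2 < 4 * 2) ∧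
  ∀ V : WeierstrassCurve (ZMod 3), V.Δ ≠ 0 →
    FR 3 V (3 - cnt V) 1 ∧ ((3 : ℤ) - cnt V) ^ 2 ≤ 9

def S_FN : Prop := ∀ (p : ℕ) [Fact p.Prime] (V : WeierstrassCurve (ZMod p)), V.Δ = 0 →
  ∃ (C : VariableChange (ZMod p)) (a b : ZMod p), C • V = ⟨a, b, 0, 0, 0⟩

/-- the count on a singular cubic -/
def S_FC : Prop := ∀ (p : ℕ) [Fact p.Prime] (a b : ZMod p),
  ((p : ℤ) - cnt (⟨a, b, 0, 0, 0⟩ : WeierstrassCurve (ZMod p)) =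
    (Nat.card {m : ZMod p // m ^ 2 + a * m - b = 0} : ℤ) - 1) ∧
  (a ^ 2 + 4 * b = 0 → Nat.card {m : ZMod p // m ^ 2 + a * m - b = 0} = 1) ∧
  (a ^ 2 + 4 * b ≠ 0 → Nat.card {m : ZMod p // m ^ 2 + a * m - b = 0} = 0 ∨
    Nat.card {m : ZMod p // m ^ 2 + a * m - b = 0} = 2)

/-- the relation on a singular cubic: cusp, split node, nonsplit node -/
def S_FS : Prop := ∀ (p : ℕ) [Fact p.Prime] (a b : ZMod p),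
  (a ^ 2 + 4 * b = 0 → FR p ⟨a, b, 0, 0, 0⟩ 0 0) ∧
  (a ^ 2 + 4 * b ≠ 0 → (∃ m : ZMod p, m ^ 2 + a * m - b = 0) → FR p ⟨a, b, 0, 0, 0⟩ 1 0) ∧
  (a ^ 2 + 4 * b ≠ 0 → (¬ ∃ m : ZMod p, m ^ 2 + a * m - b = 0) → FR p ⟨a, b, 0, 0, 0⟩ (-1) 0)

/-- the outcome of H4 -/
structure S_H4 : Prop where
  rel : ∀ (W : WeierstrassCurve ℤ) (p : ℕ) [Fact p.Prime],
    FR p (W.map (Int.castRingHom (ZMod p))) (apz W p) (epz W p)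
  hasse : ∀ (W : WeierstrassCurve ℤ) (p : ℕ), p.Prime → ¬ (p : ℤ) ∣ W.Δ → apz W p ^ 2 < 4 * p
  cusp : ∀ (W : WeierstrassCurve ℤ) (p : ℕ), p.Prime → (p : ℤ) ∣ W.Δ → (p : ℤ) ∣ W.c₄ →
    apz W p = 0
  node : ∀ (W : WeierstrassCurve ℤ) (p : ℕ), p.Prime → (p : ℤ) ∣ W.Δ → ¬ (p : ℤ) ∣ W.c₄ →
    apz W p = 1 ∨ apz W p = -1
  le : ∀ (W : WeierstrassCurve ℤ) (p : ℕ), p.Prime → |apz W p| ≤ p

def S_H4a : Prop := S_FVC → S_F5 → S_HA → S_F2 → S_F3a → S_F3b → S_F23 → S_FN → S_FC → S_FS → S_H4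

/-! ## H5: the congruence -/

def S_TR : Prop := ∀ (k K : Type) [Field k] [Field K] (V : WeierstrassCurve k⟦X⟧)
  (i : k⟦X⟧ →+* K) (t w : k⟦X⟧), Function.Injective i → PowerSeries.constantCoeff t = 0 →
  PowerSeries.constantCoeff w = 0 → Eq0 V t w → w ≠ 0 →
  ∀ f : k[X], f ≠ 0 → f.eval₂ (i.comp PowerSeries.C) (i t / i w) ≠ 0

def S_LOG : Prop := ∀ (W : WeierstrassCurve ℤ) (p : ℕ) (t w h : ℤ⟦X⟧), p.Prime →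
  PowerSeries.constantCoeff t = 0 → PowerSeries.constantCoeff w = 0 → Eq0 (bc W ℤ⟦X⟧) t w →
  (p : ℤ⟦X⟧) ∣ t → PowerSeries.X * PowerSeries.derivative ℤ t = h * HH (bc W ℤ⟦X⟧) t w →
  ∀ n : ℕ, ∃ r s : ℤ, ¬ (p : ℤ) ∣ s ∧ PowerSeries.coeff n h * s = r * (p * n)

/-- `b (n / d)` if `d ∣ n`, else `0` -/
def dv {R : Type} [Zero R] (b : ℕ → R) (d n : ℕ) : R := if d ∣ n then b (n / d) else 0

def S_H5 : Prop := ∀ (W : WeierstrassCurve ℤ) (p : ℕ) (t w h : ℤ⟦X⟧), p.Prime →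
  PowerSeries.constantCoeff t = 0 → PowerSeries.constantCoeff w = 0 → Eq0 (bc W ℤ⟦X⟧) t w →
  PowerSeries.X * PowerSeries.derivative ℤ t = h * HH (bc W ℤ⟦X⟧) t w →
  ∀ n : ℕ, ∃ r s : ℤ, ¬ (p : ℤ) ∣ s ∧
    (PowerSeries.coeff n h - apz W p * dv (fun m => PowerSeries.coeff m h) p n
      + epz W p * p * dv (fun m => PowerSeries.coeff m h) (p ^ 2) n) * s = r * n

def S_H5a : Prop := S_CW → S_GRP → S_H4 → S_TR → S_LOG → S_H5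

/-! ## H2: integrality of the formal point -/

def S_UNI : Prop := ∀ (W : WeierstrassCurve ℤ) (g t w t' w' : ℚ⟦X⟧),
  PowerSeries.constantCoeff t = 0 → PowerSeries.constantCoeff w = 0 →
  PowerSeries.constantCoeff t' = 0 → PowerSeries.constantCoeff w' = 0 →
  Eq0 (bc W ℚ⟦X⟧) t w → Eq0 (bc W ℚ⟦X⟧) t' w' →
  PowerSeries.derivative ℚ t = g * HH (bc W ℚ⟦X⟧) t w →
  PowerSeries.derivative ℚ t' = g * HH (bc W ℚ⟦X⟧) t' w' → t = t' ∧ w = w'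

def S_BD : Prop := ∀ (Λ : Type) [Field Λ] [CharZero Λ] (B : Subring Λ) (W : WeierstrassCurve ℤ)
  (g t w : Λ⟦X⟧), (∀ c : ℚ, (c : Λ) ∈ B) → (∀ n, PowerSeries.coeff n g ∈ B) →
  PowerSeries.constantCoeff t = 0 → PowerSeries.constantCoeff w = 0 → Eq0 (bc W Λ⟦X⟧) t w →
  PowerSeries.derivative Λ t = g * HH (bc W Λ⟦X⟧) t w →
  ∀ n, PowerSeries.coeff n t ∈ B ∧ PowerSeries.coeff n w ∈ B

/-- the integral change of variables from the scaled minimal model to the smooth model -/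
structure Chg (W : WeierstrassCurve ℤ) (m r s v A B₀ B₁ C₂ C₃ : ℤ) : Prop where
  hm : m ≠ 0
  h₁ : B₁ = m * W.a₁ + 2 * s
  h₂ : A * C₂ = m ^ 2 * W.a₂ - s * m * W.a₁ + 3 * r - s ^ 2
  h₃ : B₀ * A * C₃ = m ^ 3 * W.a₃ + r * m * W.a₁ + 2 * v

def S_MIN : Prop := ∀ (Λ : Type) [Field Λ] [CharZero Λ] (O : Subring Λ) (W : WeierstrassCurve ℤ)
  (p : ℕ) (n : ℤ) (c : ℚ) (A B₀ B₁ C₀ C₁ C₂ C₃ : ℤ) (x y ξ η : Λ), p.Prime → W.Δ ≠ 0 → MinW W →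
  Smooth O W.b₂ (8 * W.b₄) (16 * W.b₆) (4 * x) (4 * (2 * y + W.a₁ * x + W.a₃)) ((p : ℚ) ^ n) c
    A B₀ B₁ C₀ C₁ C₂ C₃ ξ η →
  ∃ m r s v : ℤ, Chg W m r s v A B₀ B₁ C₂ C₃ ∧ (m : Λ) ^ 2 * x = A * C₃ * ξ + r ∧
    (m : Λ) ^ 3 * y = A ^ 2 * C₃ * η + s * (A * C₃ * ξ) + v

/-- the difference of two close points is an integral formal point -/
def S_DIF : Prop := ∀ (S F : Type) [CommRing S] [Field F] [CharZero F] [DecidableEq F]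
  (J : Ideal S) (h : S →+* F) (W : WeierstrassCurve ℤ) (m r s v A B₀ B₁ C₀ C₁ C₂ C₃ : ℤ)
  (ξ₁ η₁ ξ₂ η₂ : S) (x₁ y₁ x₂ y₂ : F), (∀ x ∈ J, IsUnit (1 + x)) → W.Δ ≠ 0 → A ≠ 0 → C₃ ≠ 0 →
  Chg W m r s v A B₀ B₁ C₂ C₃ → ξ₁ - ξ₂ ∈ J → η₁ - η₂ ∈ J →
  A * η₁ ^ 2 + η₁ * (B₀ + B₁ * ξ₁) = C₀ + C₁ * ξ₁ + C₂ * ξ₁ ^ 2 + C₃ * ξ₁ ^ 3 →
  A * η₂ ^ 2 + η₂ * (B₀ + B₁ * ξ₂) = C₀ + C₁ * ξ₂ + C₂ * ξ₂ ^ 2 + C₃ * ξ₂ ^ 3 →
  (IsUnit (2 * A * η₂ + B₀ + B₁ * ξ₂) ∨ IsUnit (C₁ + 2 * C₂ * ξ₂ + 3 * C₃ * ξ₂ ^ 2 - B₁ * η₂)) →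
  (m : F) ^ 2 * x₁ = A * C₃ * h ξ₁ + r →
  (m : F) ^ 3 * y₁ = A ^ 2 * C₃ * h η₁ + s * (A * C₃ * h ξ₁) + v →
  (m : F) ^ 2 * x₂ = A * C₃ * h ξ₂ + r →
  (m : F) ^ 3 * y₂ = A ^ 2 * C₃ * h η₂ + s * (A * C₃ * h ξ₂) + v →
  (bc W F).toAffine.Equation x₁ y₁ → (bc W F).toAffine.Equation x₂ y₂ → x₁ ≠ x₂ →
  ∃ t ∈ J, ∃ w ∈ J, Eq0 (bc W F) (h t) (h w) ∧
    pw (bc W F) (h t) (h w) = pa (bc W F) x₁ y₁ - pa (bc W F) x₂ y₂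

/-- the integrality theorem -/
def S_H2 : Prop := ∀ (W : WeierstrassCurve ℤ) (g t w : ℚ⟦X⟧), W.Δ ≠ 0 → MinW W →
  PowerSeries.constantCoeff t = 0 → PowerSeries.constantCoeff w = 0 → w ≠ 0 →
  Eq0 (bc W ℚ⟦X⟧) t w → PowerSeries.derivative ℚ t = g * HH (bc W ℚ⟦X⟧) t w →
  FrZ (iq t / iq w) → FrZ (-1 / iq w) →
  ∃ t' w' : ℤ⟦X⟧, PowerSeries.map (Int.castRingHom ℚ) t' = t ∧
    PowerSeries.map (Int.castRingHom ℚ) w' = w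

/-! ## H1: the modular parametrization has expansions in the fraction field -/

/-- the series `a` converges to `φ` near the origin -/
def Loc (a : ℂ⟦X⟧) (φ : ℂ → ℂ) : Prop :=
  ∀ᶠ q in 𝓝 (0 : ℂ), HasSum (fun n : ℕ => PowerSeries.coeff n a * q ^ n) (φ q)

structure S_LOC : Prop where
  ana : ∀ a φ, Loc a φ → AnalyticAt ℂ φ 0
  ex : ∀ φ, AnalyticAt ℂ φ 0 → ∃ a, Loc a φ
  der : ∀ a φ, Loc a φ → Loc (PowerSeries.derivative ℂ a) (deriv φ)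
  zero : ∀ a φ, Loc a φ → φ 0 = PowerSeries.constantCoeff a
  add : ∀ a b φ ψ, Loc a φ → Loc b ψ → Loc (a + b) fun q => φ q + ψ q
  mul : ∀ a b φ ψ, Loc a φ → Loc b ψ → Loc (a * b) fun q => φ q * ψ q
  const : ∀ c : ℂ, Loc (PowerSeries.C c) fun _ => c
  var : Loc PowerSeries.X fun q => q
  uniq : ∀ a b φ ψ, Loc a φ → Loc b ψ → (∀ᶠ q in 𝓝[≠] (0 : ℂ), φ q = ψ q) → a = b
  conv : ∀ a φ, Conv a φ → Loc a φ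
  nome : ∀ P : ℂ → Prop, (∀ᶠ q in 𝓝[≠] (0 : ℂ), P q) ↔ ∀ᶠ z in atImInfty, P (nome z)

/-- the function `φ` is represented near the cusp by the Laurent series `k` -/
def RepL (φ : ℍ → ℂ) (k : L) : Prop := ∃ (a e : ℚ⟦X⟧) (α ε : ℂ → ℂ), Loc (cx a) α ∧
  Loc (cx e) ε ∧ e ≠ 0 ∧ k * iq e = iq a ∧ ∀ᶠ z in atImInfty, φ z * ε (nome z) = α (nome z)

def S_M4L : Prop := ∀ (u j t : ℍ → ℂ) (F J T : L) (n : ℕ) (A B : ℕ → ℂ[X]),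
  RepL u F → Rep j J → Rep t T → FrZ J → FrZ T →
  (∀ z, u z * ∑ i ∈ Finset.range n, (B i).eval (j z) * t z ^ i =
      ∑ i ∈ Finset.range n, (A i).eval (j z) * t z ^ i) →
  (∃ z, ∑ i ∈ Finset.range n, (B i).eval (j z) * t z ^ i ≠ 0) → FrZ F

def S_MOD : Prop := ∀ (N : ℕ) (u : ℍ → ℂ) (F : L) (P : ℂ[X]), 0 < N → P ≠ 0 →
  (∀ γ ∈ CongruenceSubgroup.Gamma1 N, ∀ z, u (γ • z) = u z) →
  (Mer fun z => P.eval (jj z) * u z) → RepL u F → FrZ F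

/-- an integral of a cusp form with periods in the lattice -/
structure Per (Λ : PeriodPair) (N : ℕ) (φ : ℍ → ℂ) : Prop where
  hol : MDifferentiable 𝓘(ℂ) 𝓘(ℂ) φ
  per : ∀ γ ∈ CongruenceSubgroup.Gamma1 N, ∀ z, φ (γ • z) - φ z ∈ Λ.lattice
  bdd : ∀ γ : SL(2, ℤ), IsBoundedAtImInfty fun z => φ (γ • z)

/-- expansions at all cusps -/
def Cusps (N : ℕ) (φ : ℍ → ℂ) : Prop := ∀ γ : SL(2, ℤ), ∃ ψ : ℂ → ℂ, AnalyticAt ℂ ψ 0 ∧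
  (∀ᶠ q in 𝓝[≠] (0 : ℂ), ψ q ≠ ψ 0) ∧
  ∀ z : ℍ, φ (γ • z) = ψ (Complex.exp (2 * π * Complex.I * z / N))

def S_CUSP : Prop := ∀ (Λ : PeriodPair) (N : ℕ) (φ : ℍ → ℂ), 0 < N → Per Λ N φ →
  (∃ z z', φ z ≠ φ z') → Cusps N φ

def S_FINZ : Prop := ∀ (Λ : PeriodPair) (N : ℕ) (φ : ℍ → ℂ), 0 < N → Per Λ N φ →
  (∃ z z', φ z ≠ φ z') → Cusps N φ →
  ∃ Z : Finset ℍ, ∀ z, φ z ∈ Λ.lattice →
    ∃ γ ∈ CongruenceSubgroup.Gamma1 N, ∃ z₀ ∈ Z, z = γ • z₀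

/-- an elliptic function with poles on the lattice only, with value zero there -/
structure Ell (Λ : PeriodPair) (E : ℂ → ℂ) : Prop where
  mer : Meromorphic E
  ana : AnalyticOnNhd ℂ E (Λ.lattice : Set ℂ)ᶜ
  zero : ∀ l ∈ Λ.lattice, E l = 0
  per : ∀ z, ∀ l ∈ Λ.lattice, E (z + l) = E z

def S_POLE : Prop := ∀ (Λ : PeriodPair) (E : ℂ → ℂ) (N : ℕ) (φ : ℍ → ℂ) (Z : Finset ℍ), Ell Λ E →
  Per Λ N φ → (∃ z z', φ z ≠ φ z') →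
  (∀ z, φ z ∈ Λ.lattice → ∃ γ ∈ CongruenceSubgroup.Gamma1 N, ∃ z₀ ∈ Z, z = γ • z₀) →
  ∃ P : ℂ[X], P ≠ 0 ∧ MDifferentiable 𝓘(ℂ) 𝓘(ℂ) fun z => P.eval (jj z) * E (φ z)

def S_GROW : Prop := ∀ (Λ : PeriodPair) (E : ℂ → ℂ) (N : ℕ) (φ : ℍ → ℂ) (P : ℂ[X]), 0 < N →
  Ell Λ E → Cusps N φ → ∀ γ : SL(2, ℤ), ∃ κ : ℝ,
    (fun z => P.eval (jj (γ • z)) * E (φ (γ • z))) =O[atImInfty] fun z => Real.exp (κ * z.im)

def S_WP : Prop := ∀ (W : WeierstrassCurve ℤ) (Λ : PeriodPair), Λ.g₂ = W.c₄ / 12 →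
  Λ.g₃ = W.c₆ / 216 → ∃ T U : ℂ → ℂ, AnalyticAt ℂ T 0 ∧ AnalyticAt ℂ U 0 ∧ T 0 = 0 ∧ U 0 = 0 ∧
    (∀ᶠ z in 𝓝 (0 : ℂ), Eq0 (bc W ℂ) (T z) (U z) ∧ deriv T z = HH (bc W ℂ) (T z) (U z)) ∧
    ∀ᶠ z in 𝓝[≠] (0 : ℂ), U z * (Λ.weierstrassP z - W.b₂ / 12) = T z ∧
      U z * (Λ.derivWeierstrassP z - W.a₁ * (Λ.weierstrassP z - W.b₂ / 12) - W.a₃) = -2

def S_H1 : Prop := ∀ (W : WeierstrassCurve ℤ) (Λ : PeriodPair) (N : ℕ) (φ : ℍ → ℂ) (c : ℚ⟦X⟧),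
  Λ.g₂ = W.c₄ / 12 → Λ.g₃ = W.c₆ / 216 → 0 < N → Per Λ N φ → c ≠ 0 →
  PowerSeries.constantCoeff c = 0 →
  (∀ z : ℍ, HasSum (fun n : ℕ => ((PowerSeries.coeff n c : ℚ) : ℂ) * nome z ^ n) (φ z)) →
  ∃ t w : ℚ⟦X⟧, PowerSeries.constantCoeff t = 0 ∧ PowerSeries.constantCoeff w = 0 ∧ w ≠ 0 ∧
    Eq0 (bc W ℚ⟦X⟧) t w ∧
    PowerSeries.derivative ℚ t = PowerSeries.derivative ℚ c * HH (bc W ℚ⟦X⟧) t w ∧
    FrZ (iq t / iq w) ∧ FrZ (-1 / iq w)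

def S_H1a : Prop :=
  S_LOC → S_BD → S_MOD → S_CUSP → S_FINZ → S_POLE → S_GROW → S_WP → S_H1

/-- the outcome of block H -/
def S_H : Prop := ∀ (W : WeierstrassCurve ℤ) (Λ : PeriodPair) (N : ℕ) (φ : ℍ → ℂ) (b : ℕ → ℚ),
  W.Δ ≠ 0 → MinW W → Λ.g₂ = W.c₄ / 12 → Λ.g₃ = W.c₆ / 216 → 0 < N → Per Λ N φ → b 0 = 0 →
  (∀ z : ℍ, HasSum (fun n : ℕ => ((b n / n : ℚ) : ℂ) * nome z ^ n) (φ z)) →
  (∀ n, ∃ z : ℤ, b n = z) ∧ ∀ p : ℕ, p.Prime → ∀ n : ℕ, ∃ r s : ℤ, ¬ (p : ℤ) ∣ s ∧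
    (b n - apz W p * dv b p n + epz W p * p * dv b (p ^ 2) n) * s = r * n

end

end Pool.Agent.MP_b2c033_nt.UH
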